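import Mathlib

set_option autoImplicit false

namespace Pool.Agent.Work.MP_8d13b5_lc

open Finset Filter Topology

/-- The box `[-H, H]^d` of integer vectors. -/
noncomputable def box (d H : ℕ) : Finset (Fin d → ℤ) :=
  Fintype.piFinset fun _ => Finset.Icc (-(H : ℤ)) H

theorem mem_box {d H : ℕ} {v : Fin d → ℤ} : v ∈ box d H ↔ ∀ i, -(H : ℤ) ≤ v i ∧ v i ≤ H := by
  simp [box, Fintype.mem_piFinset]

theorem card_box (d H : ℕ) : (box d H).card = (2 * H + 1) ^ d := by
  rw [box, Fintype.card_piFinset]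
  simp only [Int.card_Icc, Finset.prod_const, Finset.card_univ, Fintype.card_fin]
  congr 1
  omega

/-- reduction of an integer vector -/
def red (m d : ℕ) (v : Fin d → ℤ) : Fin d → ZMod m := fun i => (v i : ZMod m)

open Classical in
/-- The number of points of a box reducing to a given set of residue classes. -/
theorem card_box_red_le (d H N : ℕ) [NeZero N] (B : Finset (Fin d → ZMod N)) :
    ((box d H).filter (fun v => red N d v ∈ B)).card ≤ ((2 * H) / N + 1) ^ d * B.card := by
  have h : ((box d H).filter (fun v => red N d v ∈ B)).card ≤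
      ((Fintype.piFinset (fun _ : Fin d => Finset.range ((2 * H) / N + 1))) ×ˢ B).card := by
    refine Finset.card_le_card_of_injOn
      (fun v => (fun i => ((v i + H).toNat) / N, red N d v)) ?_ ?_
    · intro v hv
      rw [Finset.mem_coe, Finset.mem_filter] at hv
      obtain ⟨hv, hvB⟩ := hv
      rw [mem_box] at hv
      rw [Finset.mem_coe, Finset.mem_product]
      refine ⟨?_, hvB⟩
      rw [Fintype.mem_piFinset]
      intro i
      rw [Finset.mem_range, Nat.lt_succ_iff]
      apply Nat.div_le_div_right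
      have := hv i
      omega
    · intro v hv w hw hvw
      rw [Finset.mem_coe, Finset.mem_filter] at hv hw
      have hv' := mem_box.1 hv.1
      have hw' := mem_box.1 hw.1
      simp only [Prod.mk.injEq] at hvw
      obtain ⟨h1, h2⟩ := hvw
      funext i
      have h1i := congrFun h1 i
      have h2i := congrFun h2 i
      simp only [red] at h2i
      rw [ZMod.intCast_eq_intCast_iff_dvd_sub] at h2i
      have hvi := hv' i
      have hwi := hw' i
      -- same quotient and congruent
      set a := (v i + H).toNat with ha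
      set b := (w i + H).toNat with hb
      have ha' : (a : ℤ) = v i + H := by omega
      have hb' : (b : ℤ) = w i + H := by omega
      have hd : (N : ℤ) ∣ (b : ℤ) - a := by
        rw [ha', hb']
        convert h2i using 1
        ring
      have hmod : a % N = b % N := by
        have h3 : (a : ℤ) ≡ b [ZMOD N] := (Int.modEq_iff_dvd).2 hd
        exact_mod_cast h3
      have : a = b := by
        have e1 := Nat.div_add_mod a N
        have e2 := Nat.div_add_mod b N
        rw [h1i, hmod] at e1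
        omega
      omega
  refine h.trans ?_
  rw [Finset.card_product, Fintype.card_piFinset]
  simp

/-- a product bound in the naturals -/
theorem two_pow_mul_prod_le (Q : Finset ℕ) (f g : ℕ → ℕ) (h : ∀ p ∈ Q, 2 * f p ≤ g p) :
    2 ^ Q.card * ∏ p ∈ Q, f p ≤ ∏ p ∈ Q, g p := by
  rw [← Finset.prod_const, ← Finset.prod_mul_distrib]
  exact Finset.prod_le_prod' h

open Classical in
/-- Chinese remainder: number of classes mod `∏ p` avoiding good sets at every prime. -/
theorem card_bad_le (d : ℕ) (Q : Finset ℕ) (hQ : ∀ p ∈ Q, p.Prime)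
    (B : ∀ p : ℕ, Finset (Fin d → ZMod p))
    (hB : ∀ p ∈ Q, 2 * (B p).card ≤ p ^ d) (H : ℕ) :
      2 ^ Q.card * ((box d H).filter (fun v => ∀ p ∈ Q, red p d v ∈ B p)).card ≤
        (2 * H + ∏ p ∈ Q, p) ^ d := by
  classical
  set N := ∏ p ∈ Q, p with hN
  have hNpos : 0 < N := Finset.prod_pos fun p hp => (hQ p hp).pos
  have : NeZero N := ⟨hNpos.ne'⟩
  have hdvd : ∀ p ∈ Q, p ∣ N := fun p hp => Finset.dvd_prod_of_mem _ hp
  -- the set of bad classes mod N
  let pr : ∀ p ∈ Q, (Fin d → ZMod N) → (Fin d → ZMod p) := fun p hp c i =>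
    ZMod.castHom (hdvd p hp) (ZMod p) (c i)
  set BN : Finset (Fin d → ZMod N) :=
    Finset.univ.filter (fun c => ∀ p (hp : p ∈ Q), pr p hp c ∈ B p) with hBN
  have hred : ∀ p (hp : p ∈ Q) (v : Fin d → ℤ), pr p hp (red N d v) = red p d v := by
    intro p hp v
    funext i
    exact map_intCast _ _
  have hsub : (box d H).filter (fun v => ∀ p ∈ Q, red p d v ∈ B p) ⊆
      (box d H).filter (fun v => red N d v ∈ BN) := by
    intro v hv
    rw [Finset.mem_filter] at hv ⊢
    refine ⟨hv.1, ?_⟩
    rw [hBN, Finset.mem_filter]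
    refine ⟨Finset.mem_univ _, ?_⟩
    intro p hp
    rw [hred p hp]
    exact hv.2 p hp
  have hcardBN : BN.card ≤ ∏ p ∈ Q, (B p).card := by
    rw [← Finset.card_pi]
    refine Finset.card_le_card_of_injOn (fun c => fun p hp => pr p hp c) ?_ ?_
    · intro c hc
      rw [Finset.mem_coe, hBN, Finset.mem_filter] at hc
      rw [Finset.mem_coe, Finset.mem_pi]
      exact hc.2
    · intro c _ c' _ hcc
      funext i
      have h1 : ∀ p (hp : p ∈ Q), (p : ℤ) ∣ ((c i).val : ℤ) - (c' i).val := by
        intro p hp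
        have h2 := congrFun (congrFun (congrFun hcc p) hp) i
        simp only [pr] at h2
        have h3 : (((c i).val : ℤ) : ZMod p) = (((c' i).val : ℤ) : ZMod p) := by
          have e1 : ((c i).val : ZMod N) = c i := ZMod.natCast_zmod_val _
          have e2 : ((c' i).val : ZMod N) = c' i := ZMod.natCast_zmod_val _
          rw [← e1, ← e2] at h2
          simpa using h2
        have h4 := (ZMod.intCast_eq_intCast_iff_dvd_sub _ _ _).1 h3
        exact (dvd_sub_comm).1 h4
      have hN' : (N : ℤ) = ∏ p ∈ Q, (p : ℤ) := by rw [hN]; push_cast; rfl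
      have h5 : (N : ℤ) ∣ ((c i).val : ℤ) - (c' i).val := by
        rw [hN']
        apply Finset.prod_dvd_of_coprime
        · intro p hp q hq hpq
          have : IsCoprime (p : ℤ) (q : ℤ) := by
            rw [Nat.isCoprime_iff_coprime]
            exact (Nat.coprime_primes (hQ p hp) (hQ q hq)).2 hpq
          exact this
        · intro p hp
          exact h1 p hp
      have h6 : (((c' i).val : ℤ) : ZMod N) = (((c i).val : ℤ) : ZMod N) :=
        (ZMod.intCast_eq_intCast_iff_dvd_sub _ _ _).2 h5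
      have e1 : ((c i).val : ZMod N) = c i := ZMod.natCast_zmod_val _
      have e2 : ((c' i).val : ZMod N) = c' i := ZMod.natCast_zmod_val _
      rw [Int.cast_natCast, Int.cast_natCast, e1, e2] at h6
      exact h6.symm
  have h7 := card_box_red_le d H N BN
  have h8 : 2 ^ Q.card * BN.card ≤ N ^ d := by
    calc 2 ^ Q.card * BN.card ≤ 2 ^ Q.card * ∏ p ∈ Q, (B p).card :=
          Nat.mul_le_mul_left _ hcardBN
      _ ≤ ∏ p ∈ Q, p ^ d := two_pow_mul_prod_le Q _ _ hB
      _ = N ^ d := by rw [hN, Finset.prod_pow]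
  calc 2 ^ Q.card * ((box d H).filter (fun v => ∀ p ∈ Q, red p d v ∈ B p)).card
      ≤ 2 ^ Q.card * (((2 * H) / N + 1) ^ d * BN.card) :=
        Nat.mul_le_mul_left _ ((Finset.card_le_card hsub).trans h7)
    _ = ((2 * H) / N + 1) ^ d * (2 ^ Q.card * BN.card) := by ring
    _ ≤ ((2 * H) / N + 1) ^ d * N ^ d := Nat.mul_le_mul_left _ h8
    _ = (((2 * H) / N + 1) * N) ^ d := by rw [mul_pow]
    _ ≤ (2 * H + N) ^ d := by
        apply Nat.pow_le_pow_left
        rw [add_mul, one_mul]
        exact Nat.add_le_add_right (Nat.div_mul_le_self _ _) _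

/-- If for infinitely many primes the set of bad residue vectors has proportion at most `1/2`,
then the integer vectors which are bad at every prime have density `0`. -/
theorem tendsto_bad (d : ℕ) (S : Set ℕ) (hS : S.Infinite) (hSp : ∀ p ∈ S, p.Prime)
    (B : ∀ p : ℕ, Finset (Fin d → ZMod p))
    (hB : ∀ p ∈ S, 2 * (B p).card ≤ p ^ d)
    (P : (Fin d → ℤ) → Prop) [DecidablePred P] (hP : ∀ v, P v → ∀ p ∈ S, red p d v ∈ B p) :
    Tendsto (fun H : ℕ => (((box d H).filter P).card : ℝ) / ((2 * (H : ℝ) + 1) ^ d)) atTop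
      (𝓝 0) := by
  classical
  rw [Metric.tendsto_atTop]
  intro ε hε
  obtain ⟨k, hk⟩ : ∃ k : ℕ, (2 : ℝ) / 2 ^ k < ε := by
    obtain ⟨k, hk⟩ := exists_pow_lt_of_lt_one (half_pos hε) (by norm_num : (1 / 2 : ℝ) < 1)
    refine ⟨k, ?_⟩
    rw [div_pow, one_pow] at hk
    rw [div_eq_mul_one_div]
    linarith
  obtain ⟨Q, hQS, hQk⟩ := hS.exists_subset_card_eq k
  set N := ∏ p ∈ Q, p with hN
  have hlim : Tendsto (fun H : ℕ => ((2 * (H : ℝ) + N) / (2 * (H : ℝ) + 1)) ^ d) atTop (𝓝 1) := by
    have h1 : Tendsto (fun H : ℕ => ((2 * (H : ℝ) + N) / (2 * (H : ℝ) + 1))) atTop (𝓝 1) := by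
      have h2 : Tendsto (fun H : ℕ => 1 + ((N : ℝ) - 1) / (2 * (H : ℝ) + 1)) atTop
          (𝓝 (1 + 0)) := by
        apply Tendsto.const_add
        apply Tendsto.div_atTop tendsto_const_nhds
        apply Filter.Tendsto.atTop_add _ tendsto_const_nhds
        exact Filter.Tendsto.const_mul_atTop (by norm_num) tendsto_natCast_atTop_atTop
      rw [add_zero] at h2
      refine h2.congr fun H => ?_
      have : (2 * (H : ℝ) + 1) ≠ 0 := by positivity
      field_simp
      ring
    simpa using h1.pow d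
  have hev : ∀ᶠ H : ℕ in atTop, ((2 * (H : ℝ) + N) / (2 * (H : ℝ) + 1)) ^ d < 2 :=
    hlim.eventually_lt_const (by norm_num)
  obtain ⟨H0, hH0⟩ := eventually_atTop.1 hev
  refine ⟨H0, fun H hH => ?_⟩
  have h1 := hH0 H hH
  rw [Real.dist_eq, sub_zero, abs_of_nonneg (by positivity)]
  have h2 : 2 ^ Q.card * ((box d H).filter P).card ≤ (2 * H + N) ^ d := by
    refine le_trans (Nat.mul_le_mul_left _ (Finset.card_le_card ?_))
      (card_bad_le d Q (fun p hp => hSp p (hQS hp)) B (fun p hp => hB p (hQS hp)) H)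
    intro v hv
    rw [Finset.mem_filter] at hv ⊢
    exact ⟨hv.1, fun p hp => hP v hv.2 p (hQS hp)⟩
  have h3 : (2 : ℝ) ^ k * (((box d H).filter P).card : ℝ) ≤ (2 * (H : ℝ) + N) ^ d := by
    rw [← hQk]
    exact_mod_cast h2
  have hpos : (0 : ℝ) < (2 * (H : ℝ) + 1) ^ d := by positivity
  rw [div_lt_iff₀ hpos]
  rw [div_pow, div_lt_iff₀ hpos] at h1
  have h2k : (0 : ℝ) < 2 ^ k := by positivity
  have h4 : (((box d H).filter P).card : ℝ) ≤ (2 * (H : ℝ) + N) ^ d / 2 ^ k := by
    rw [le_div_iff₀ h2k]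
    linarith
  calc (((box d H).filter P).card : ℝ) ≤ (2 * (H : ℝ) + N) ^ d / 2 ^ k := h4
    _ < (2 * (2 * (H : ℝ) + 1) ^ d) / 2 ^ k := by
        apply div_lt_div_of_pos_right h1 h2k
    _ = 2 / 2 ^ k * (2 * (H : ℝ) + 1) ^ d := by ring
    _ < ε * (2 * (H : ℝ) + 1) ^ d := by
        apply mul_lt_mul_of_pos_right hk hpos

end Pool.Agent.Work.MP_8d13b5_lc
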