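import Pool.Agent.Work.MP_8d13b5_lc.Bd.B06
import Pool.Agent.Work.MP_8d13b5_lc.Sieve

set_option autoImplicit false

namespace Pool.Agent.Work.MP_8d13b5_lc

open Polynomial Finset Filter Topology

section Period

variable {R : Type*} [CommRing R]

/-- the shift operator on sequences -/
def shift (R : Type*) [CommRing R] : (ℕ → R) →ₗ[R] (ℕ → R) where
  toFun u n := u (n + 1)
  map_add' _ _ := rfl
  map_smul' _ _ := rfl

theorem shift_pow_apply (k : ℕ) (u : ℕ → R) (n : ℕ) : ((shift R) ^ k) u n = u (n + k) := by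
  induction k generalizing n with
  | zero => simp
  | succ k ih =>
    rw [pow_succ', Module.End.mul_apply]
    show ((shift R) ^ k) u (n + 1) = _
    rw [ih]
    congr 1
    ring

theorem aeval_shift_monomial (k : ℕ) (a : R) (u : ℕ → R) (n : ℕ) :
    (aeval (shift R) (monomial k a)) u n = a * u (n + k) := by
  rw [aeval_monomial, Module.End.mul_apply]
  show (algebraMap R (Module.End R (ℕ → R)) a) (((shift R) ^ k) u) n = _
  rw [Module.algebraMap_end_apply, Pi.smul_apply, shift_pow_apply, smul_eq_mul]

theorem aeval_charPoly (E : LinearRecurrence R) (u : ℕ → R) (hu : E.IsSolution u) :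
    (aeval (shift R) E.charPoly) u = 0 := by
  funext n
  rw [LinearRecurrence.charPoly, map_sub, map_sum, LinearMap.sub_apply, Pi.sub_apply,
    aeval_shift_monomial, one_mul, hu n, LinearMap.sum_apply, Finset.sum_apply]
  simp only [aeval_shift_monomial]
  simp

theorem periodic_of_dvd (E : LinearRecurrence R) (T : ℕ) (hT : E.charPoly ∣ X ^ T - 1)
    (u : ℕ → R) (hu : E.IsSolution u) (n : ℕ) : u (n + T) = u n := by
  obtain ⟨q, hq⟩ := hT
  have h1 : (aeval (shift R) (X ^ T - 1 : R[X])) u = 0 := by
    rw [hq, mul_comm, map_mul, Module.End.mul_apply, aeval_charPoly E u hu, map_zero]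
  have h2 := congrFun h1 n
  rw [map_sub, map_pow, aeval_X, map_one, LinearMap.sub_apply, Pi.sub_apply,
    shift_pow_apply] at h2
  simpa [sub_eq_zero] using h2

theorem periodic_mul (T : ℕ) (u : ℕ → R) (h : ∀ n, u (n + T) = u n) (k n : ℕ) :
    u (n + k * T) = u n := by
  induction k with
  | zero => simp
  | succ k ih => rw [Nat.succ_mul, ← add_assoc, h, ih]

/-- the `n`-th term as a linear functional of the initial data -/
def term (E : LinearRecurrence R) (n : ℕ) : (Fin E.order → R) →ₗ[R] R :=
  (LinearMap.proj n).comp (E.solSpace.subtype.comp E.toInit.symm.toLinearMap)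

theorem term_apply (E : LinearRecurrence R) (n : ℕ) (v : Fin E.order → R) :
    term E n v = E.mkSol v n := rfl

theorem mkSol_shift (E : LinearRecurrence R) (v : Fin E.order → R) (j n : ℕ) :
    E.mkSol (fun i => E.mkSol v (i + j)) n = E.mkSol v (n + j) := by
  symm
  apply E.eq_mk_of_is_sol_of_eq_init (u := fun n => E.mkSol v (n + j))
  · intro m
    have := E.is_sol_mkSol v (m + j)
    show E.mkSol v (m + E.order + j) = ∑ i, E.coeffs i * E.mkSol v (m + i + j)
    rw [show m + E.order + j = m + j + E.order by ring, this]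
    apply Finset.sum_congr rfl
    intro i _
    congr 2
    ring
  · intro i
    rfl

theorem term_ne_zero [Nontrivial R] (E : LinearRecurrence R) (hd : 0 < E.order) (T : ℕ)
    (hT0 : 0 < T) (hT : E.charPoly ∣ X ^ T - 1) (n : ℕ) :
    ∃ v : Fin E.order → R, E.mkSol v n ≠ 0 := by
  by_contra hcon
  push Not at hcon
  set v : Fin E.order → R := Pi.single ⟨0, hd⟩ 1 with hv
  have h1 : ∀ j, E.mkSol v (n + j) = 0 := by
    intro j
    rw [← mkSol_shift]
    exact hcon _
  have h2 : E.mkSol v (0 + n * T) = E.mkSol v 0 :=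
    periodic_mul T _ (periodic_of_dvd E T hT _ (E.is_sol_mkSol v)) n 0
  have h3 : 0 + n * T = n + (n * T - n) := by
    have : n ≤ n * T := Nat.le_mul_of_pos_right n hT0
    omega
  rw [h3, h1] at h2
  have h4 : E.mkSol v 0 = 1 := by
    have := E.mkSol_eq_init v ⟨0, hd⟩
    simp only at this
    rw [this, hv, Pi.single_eq_same]
  rw [h4] at h2
  exact zero_ne_one h2

end Period

/-- reduction of a recurrence modulo `m` -/
def redRec (E : LinearRecurrence ℤ) (m : ℕ) : LinearRecurrence (ZMod m) :=
  ⟨E.order, fun i => (E.coeffs i : ZMod m)⟩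

theorem charPoly_redRec (E : LinearRecurrence ℤ) (m : ℕ) :
    (redRec E m).charPoly = E.charPoly.map (Int.castRingHom (ZMod m)) := by
  rw [LinearRecurrence.charPoly, LinearRecurrence.charPoly, Polynomial.map_sub,
    Polynomial.map_monomial, Polynomial.map_sum]
  simp only [Polynomial.map_monomial, redRec, Int.coe_castRingHom, Int.cast_one]
  rfl

theorem mkSol_redRec (E : LinearRecurrence ℤ) (m : ℕ) (v : Fin E.order → ℤ) (n : ℕ) :
    ((E.mkSol v n : ℤ) : ZMod m) = (redRec E m).mkSol (red m E.order v) n := by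
  apply (redRec E m).eq_mk_of_is_sol_of_eq_init (u := fun n => ((E.mkSol v n : ℤ) : ZMod m))
  · intro k
    have := E.is_sol_mkSol v k
    show ((E.mkSol v (k + E.order) : ℤ) : ZMod m) = _
    rw [this]
    push_cast
    rfl
  · intro i
    show ((E.mkSol v (i : ℕ) : ℤ) : ZMod m) = red m E.order v i
    have := E.mkSol_eq_init v i
    rw [this]
    rfl

/-- the bad residue vectors modulo `p`: those giving a sequence with a zero mod `p`. -/
noncomputable def badSet (E : LinearRecurrence ℤ) (p : ℕ) : Finset (Fin E.order → ZMod p) :=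
  if h : p.Prime then
    haveI : Fact p.Prime := ⟨h⟩
    haveI : Fintype (ZMod p) := ZMod.fintype p
    letI := Classical.decPred fun v : Fin E.order → ZMod p => ∃ n, (redRec E p).mkSol v n = 0
    Finset.univ.filter (fun v => ∃ n, (redRec E p).mkSol v n = 0)
  else ∅

theorem mem_badSet (E : LinearRecurrence ℤ) (p : ℕ) (hp : p.Prime)
    (v : Fin E.order → ZMod p) :
    v ∈ badSet E p ↔ ∃ n, (redRec E p).mkSol v n = 0 := by
  simp [badSet, hp]

theorem card_ker_le {k : Type*} [Field k] [Fintype k] {V : Type*} [AddCommGroup V] [Module k V]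
    [Fintype V] [DecidableEq V] (f : V →ₗ[k] k) (hf : ∃ v, f v ≠ 0)
    (K : Finset V) (hK : ∀ v ∈ K, f v = 0) :
    Fintype.card k * K.card ≤ Fintype.card V := by
  classical
  obtain ⟨w, hw⟩ := hf
  rw [← Finset.card_univ, ← Finset.card_univ (α := V), ← Finset.card_product]
  apply Finset.card_le_card_of_injOn (fun x : k × V => x.1 • w + x.2)
  · intro x _
    exact Finset.mem_coe.2 (Finset.mem_univ _)
  · rintro ⟨a, x⟩ hx ⟨b, y⟩ hy hxy
    rw [Finset.mem_coe, Finset.mem_product] at hx hy
    simp only at hxy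
    have h1 := congrArg f hxy
    rw [map_add, map_add, map_smul, map_smul, hK x hx.2, hK y hy.2, add_zero, add_zero,
      smul_eq_mul, smul_eq_mul] at h1
    have h2 : a = b := mul_right_cancel₀ hw h1
    subst h2
    simpa using hxy

theorem card_badSet (E : LinearRecurrence ℤ) (hd : 0 < E.order) (p : ℕ) (hp : p.Prime)
    (hp2 : 2 < p)
    (hdvd : (E.charPoly.map (Int.castRingHom (ZMod p))) ∣ X ^ ((p - 1) / 2) - 1) :
    2 * (badSet E p).card ≤ p ^ E.order := by
  classical
  have : Fact p.Prime := ⟨hp⟩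
  set T := (p - 1) / 2 with hT
  have hT0 : 0 < T := by omega
  rw [← charPoly_redRec] at hdvd
  set E' := redRec E p with hE'
  have hper : ∀ v n, E'.mkSol v (n + T) = E'.mkSol v n := fun v n =>
    periodic_of_dvd E' T hdvd _ (E'.is_sol_mkSol v) n
  have hmod : ∀ v n, E'.mkSol v n = E'.mkSol v (n % T) := by
    intro v n
    conv_lhs => rw [← Nat.mod_add_div' n T]
    exact periodic_mul T _ (hper v) _ _
  let K : ℕ → Finset (Fin E.order → ZMod p) := fun n =>
    Finset.univ.filter (fun v : Fin E.order → ZMod p => (redRec E p).mkSol v n = 0)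
  have hsub : badSet E p ⊆ (Finset.range T).biUnion K := by
    intro v hv
    rw [mem_badSet E p hp] at hv
    obtain ⟨n, hn⟩ := hv
    refine Finset.mem_biUnion.2 ⟨n % T, Finset.mem_range.2 (Nat.mod_lt _ hT0),
      Finset.mem_filter.2 ⟨Finset.mem_univ _, ?_⟩⟩
    exact (hmod v n).symm.trans hn
  have hcardV : Fintype.card (Fin E.order → ZMod p) = p ^ E.order := by
    rw [Fintype.card_fun, ZMod.card, Fintype.card_fin]
  have hK : ∀ n, p * (K n).card ≤ p ^ E.order := by
    intro n
    have h1 := card_ker_le (term E' n) (term_ne_zero E' hd T hT0 hdvd n) (K n) (by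
      intro v hv
      exact (Finset.mem_filter.1 hv).2)
    rw [ZMod.card] at h1
    rw [← hcardV]
    exact h1
  have h2 : (badSet E p).card ≤ ∑ n ∈ Finset.range T, (K n).card :=
    (Finset.card_le_card hsub).trans Finset.card_biUnion_le
  have h3 : p * (badSet E p).card ≤ T * p ^ E.order := by
    calc p * (badSet E p).card ≤ p * ∑ n ∈ Finset.range T, (K n).card :=
          Nat.mul_le_mul_left _ h2
      _ = ∑ n ∈ Finset.range T, p * (K n).card := by rw [Finset.mul_sum]
      _ ≤ ∑ n ∈ Finset.range T, p ^ E.order := Finset.sum_le_sum fun n _ => hK n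
      _ = T * p ^ E.order := by simp
  have h4 : p * (2 * (badSet E p).card) ≤ p * p ^ E.order := by
    calc p * (2 * (badSet E p).card) = 2 * (p * (badSet E p).card) := by ring
      _ ≤ 2 * (T * p ^ E.order) := Nat.mul_le_mul_left _ h3
      _ = (2 * T) * p ^ E.order := by ring
      _ ≤ p * p ^ E.order := by
          apply Nat.mul_le_mul_right
          omega
  exact Nat.le_of_mul_le_mul_left h4 hp.pos

theorem charPoly_coeff_zero (E : LinearRecurrence ℤ) (hd : 0 < E.order) :
    E.charPoly.coeff 0 = - E.coeffs ⟨0, hd⟩ := by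
  rw [LinearRecurrence.charPoly, coeff_sub, finsetSum_coeff, coeff_monomial,
    if_neg hd.ne', zero_sub, neg_inj, Finset.sum_eq_single ⟨0, hd⟩]
  · simp
  · intro i _ hi
    rw [coeff_monomial, if_neg]
    intro h
    apply hi
    ext
    exact h
  · intro h
    exact absurd (Finset.mem_univ _) h

end Pool.Agent.Work.MP_8d13b5_lc
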