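import Pool.Agent.Work.MP_8d13b5_lc.Bd.B06
import Pool.Agent.Work.MP_8d13b5_lc.Lrs

set_option autoImplicit false

namespace Pool.Agent.Work.MP_8d13b5_lc

open Encodable

/-- inner product of two lists of integers, up to the length of the first -/
def dot (a b : List ℤ) : ℤ :=
  ((List.range a.length).map fun i => a.getD i 0 * b.getD i 0).foldr (fun x y => x + y) 0

/-- reversed history of a linear recurrence sequence -/
def hist (x : List ℤ × List ℤ) (n : ℕ) : List ℤ :=
  Nat.rec (motive := fun _ => List ℤ) x.2.reverse (fun _ l => dot x.1 l :: l) n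

/-- the `n`-th term of the coded sequence -/
def val (x : List ℤ × List ℤ) (n : ℕ) : ℤ := (hist x n).getD (x.1.length - 1) 0

theorem primrec_dot : Primrec₂ dot := by
  unfold dot
  refine Primrec.list_foldr (f := fun p : List ℤ × List ℤ =>
    (List.range p.1.length).map fun i => p.1.getD i 0 * p.2.getD i 0) (g := fun _ => (0 : ℤ))
    (h := fun _ q => q.1 + q.2) ?_ (Primrec.const 0) ?_
  · refine Primrec.list_map ?_ ?_
    · exact Primrec.list_range.comp (Primrec.list_length.comp Primrec.fst)
    · refine primrec_int_mul.comp₂ ?_ ?_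
      · exact (Primrec.list_getD 0).comp₂ (Primrec.fst.comp Primrec.fst).to₂ Primrec₂.right
      · exact (Primrec.list_getD 0).comp₂ (Primrec.snd.comp Primrec.fst).to₂ Primrec₂.right
  · exact primrec_int_add.comp₂ (Primrec.fst.comp Primrec.snd).to₂
      (Primrec.snd.comp Primrec.snd).to₂

theorem primrec_hist : Primrec₂ hist := by
  unfold hist
  refine Primrec.nat_rec (f := fun x : List ℤ × List ℤ => x.2.reverse)
    (g := fun x p => dot x.1 p.2 :: p.2) ?_ ?_
  · exact Primrec.list_reverse.comp Primrec.snd
  · exact Primrec.list_cons.comp₂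
      (primrec_dot.comp₂ (Primrec.fst.comp Primrec.fst).to₂ (Primrec.snd.comp Primrec.snd).to₂)
      (Primrec.snd.comp Primrec.snd).to₂

theorem primrec_val : Primrec₂ val := by
  unfold val
  exact (Primrec.list_getD 0).comp₂ primrec_hist
    (Primrec.nat_sub.comp (Primrec.list_length.comp (Primrec.fst.comp Primrec.fst))
      (Primrec.const 1)).to₂

/-- the modulus `k` is a witness against zeros -/
def Obst (x : List ℤ × List ℤ) (k : ℕ) : Prop :=
  2 ≤ k ∧ ∀ i < k ^ x.1.length, ¬ (val x i).natAbs % k = 0

theorem primrec_pow : Primrec₂ (fun a b : ℕ => a ^ b) :=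
  Primrec₂.unpaired'.1 Nat.Primrec.pow

theorem primrec_obst : PrimrecRel Obst := by
  unfold Obst
  refine PrimrecPred.and ?_ ?_
  · exact Primrec.nat_le.comp (Primrec.const 2) Primrec.snd
  · have hR : PrimrecRel (fun (i : ℕ) (y : (List ℤ × List ℤ) × ℕ) =>
        ¬ (val y.1 i).natAbs % y.2 = 0) := by
      refine PrimrecPred.not ?_
      refine Primrec.eq.comp ?_ (Primrec.const 0)
      refine Primrec.nat_mod.comp ?_ (Primrec.snd.comp Primrec.snd)
      exact primrec_natAbs.comp (primrec_val.comp (Primrec.fst.comp Primrec.snd) Primrec.fst)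
    have h1 := PrimrecRel.forall_mem_list hR
    have hf : Primrec (fun p : (List ℤ × List ℤ) × ℕ => p.2 ^ p.1.1.length) :=
      primrec_pow.comp Primrec.snd (Primrec.list_length.comp (Primrec.fst.comp Primrec.fst))
    refine (h1.comp (Primrec.list_range.comp hf) Primrec.id).of_eq fun p => ?_
    simp only [List.mem_range, id]

open Classical in
/-- one step of the search -/
noncomputable def test (x : List ℤ × List ℤ) (k : ℕ) : Option Bool :=
  if val x k = 0 then some true else if Obst x k then some false else none

theorem primrec_test : Primrec₂ test := by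
  classical
  unfold test
  refine Primrec.ite ?_ (Primrec.const _) (Primrec.ite ?_ (Primrec.const _) (Primrec.const _))
  · exact Primrec.eq.comp primrec_val (Primrec.const 0)
  · exact primrec_obst

/-- the search procedure -/
noncomputable def search (x : List ℤ × List ℤ) : Part Bool := Nat.rfindOpt (test x)

theorem partrec_search : Partrec search :=
  Partrec.rfindOpt primrec_test.to_comp

theorem search_spec (x : List ℤ × List ℤ)
    (hx : ∀ k, Obst x k → ∀ n, ¬ val x n = 0) :
    (true ∈ search x ↔ ∃ n, val x n = 0) ∧ (false ∈ search x ↔ ∃ k, Obst x k) := by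
  have hT : true ∈ search x → ∃ n, val x n = 0 := by
    intro h
    obtain ⟨k, hk⟩ := Nat.rfindOpt_spec h
    rw [Option.mem_def, test] at hk
    split_ifs at hk with h1 h2
    · exact ⟨k, h1⟩
    · simp at hk
  have hF : false ∈ search x → ∃ k, Obst x k := by
    intro h
    obtain ⟨k, hk⟩ := Nat.rfindOpt_spec h
    rw [Option.mem_def, test] at hk
    split_ifs at hk with h1 h2
    · simp at hk
    · exact ⟨k, h2⟩
  refine ⟨⟨hT, ?_⟩, ⟨hF, ?_⟩⟩
  · rintro ⟨n, hn⟩
    have hdom : (search x).Dom := by
      refine Nat.rfindOpt_dom.2 ⟨n, true, ?_⟩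
      rw [Option.mem_def, test, if_pos hn]
    have hget := Part.get_mem hdom
    cases hb : (search x).get hdom with
    | true => rwa [hb] at hget
    | false =>
      rw [hb] at hget
      obtain ⟨k, hk⟩ := hF hget
      exact absurd hn (hx k hk n)
  · rintro ⟨k, hk⟩
    have hdom : (search x).Dom := by
      refine Nat.rfindOpt_dom.2 ⟨k, false, ?_⟩
      rw [Option.mem_def, test, if_neg (hx k hk k), if_pos hk]
    have hget := Part.get_mem hdom
    cases hb : (search x).get hdom with
    | false => rwa [hb] at hget
    | true =>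
      rw [hb] at hget
      obtain ⟨n, hn⟩ := hT hget
      exact absurd hn (hx k hk n)

/-- The input data `(c_1, …, c_d; u_0, …, u_{d-1})` of a recurrence
`u (n + d) = c_1 u (n + d - 1) + … + c_d u n`. -/
def code (E : LinearRecurrence ℤ) (v : Fin E.order → ℤ) : List ℤ × List ℤ :=
  ((List.ofFn E.coeffs).reverse, List.ofFn v)

theorem length_hist (x : List ℤ × List ℤ) (n : ℕ) : (hist x n).length = n + x.2.length := by
  induction n with
  | zero => simp [hist]
  | succ n ih =>
    show (dot x.1 (hist x n) :: hist x n).length = _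
    rw [List.length_cons, ih]
    ring

theorem foldr_eq_sum (l : List ℤ) : l.foldr (fun x y => x + y) 0 = l.sum := rfl

theorem dot_eq (a b : List ℤ) :
    dot a b = ∑ i ∈ Finset.range a.length, a.getD i 0 * b.getD i 0 := by
  rw [dot, foldr_eq_sum, Finset.sum_range, ← List.sum_ofFn]
  congr 1
  apply List.ext_getElem
  · simp
  · intro i h1 h2
    simp only [List.getElem_map, List.getElem_range, List.getElem_ofFn]

theorem hist_code (E : LinearRecurrence ℤ) (v : Fin E.order → ℤ) (n : ℕ) :
    ∀ i < n + E.order, (hist (code E v) n).getD i 0 = E.mkSol v (n + E.order - 1 - i) := by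
  induction n with
  | zero =>
    intro i hi
    rw [zero_add] at hi
    have hlen : i < (List.ofFn v).reverse.length := by simpa using hi
    show (List.ofFn v).reverse.getD i 0 = _
    rw [List.getD_eq_getElem _ _ hlen, List.getElem_reverse, List.getElem_ofFn]
    have hj : 0 + E.order - 1 - i < E.order := by omega
    have := E.mkSol_eq_init v ⟨0 + E.order - 1 - i, hj⟩
    simp only at this
    rw [this]
    congr 1
    apply Fin.ext
    simp
  | succ n ih =>
    intro i hi
    show (dot (code E v).1 (hist (code E v) n) :: hist (code E v) n).getD i 0 = _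
    cases i with
    | succ i =>
      rw [List.getD_cons_succ, ih i (by omega)]
      congr 1
      omega
    | zero =>
      rw [List.getD_cons_zero, dot_eq]
      have h1 : n + 1 + E.order - 1 - 0 = n + E.order := by omega
      rw [h1, E.is_sol_mkSol v n]
      have hlen : (code E v).1.length = E.order := by simp [code]
      rw [hlen, ← Finset.sum_range_reflect, Finset.sum_range]
      apply Finset.sum_congr rfl
      rintro ⟨i, hi⟩ _
      simp only
      rw [ih _ (by omega)]
      have h2 : n + E.order - 1 - (E.order - 1 - i) = n + i := by omega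
      rw [h2]
      congr 1
      have hl : E.order - 1 - i < (List.ofFn E.coeffs).reverse.length := by
        simp; omega
      show (List.ofFn E.coeffs).reverse.getD (E.order - 1 - i) 0 = _
      rw [List.getD_eq_getElem _ _ hl, List.getElem_reverse, List.getElem_ofFn]
      congr 1
      apply Fin.ext
      simp
      omega

theorem val_code (E : LinearRecurrence ℤ) (hd : 0 < E.order) (v : Fin E.order → ℤ) (n : ℕ) :
    val (code E v) n = E.mkSol v n := by
  have hlen : (code E v).1.length = E.order := by simp [code]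
  rw [val, hlen, hist_code E v n _ (by omega)]
  congr 1
  omega

/-- In a finite orbit every state occurs among the first `card` states. -/
theorem orbit_mod {α : Type*} [Fintype α] (F : α → α) (s : ℕ → α) (hs : ∀ n, s (n + 1) = F (s n))
    (n : ℕ) : ∃ i < Fintype.card α, s i = s n := by
  classical
  induction n using Nat.strong_induction_on with
  | _ n ih =>
    by_cases hn : n < Fintype.card α
    · exact ⟨n, hn, rfl⟩
    · push Not at hn
      have hpig : ∃ a ∈ Finset.range (Fintype.card α + 1),
          ∃ b ∈ Finset.range (Fintype.card α + 1), a ≠ b ∧ s a = s b := by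
        apply Finset.exists_ne_map_eq_of_card_lt_of_maps_to (t := Finset.univ)
        · simp
        · intro x _; simp
      obtain ⟨a, ha, b, hb, hab, hsab⟩ := hpig
      rw [Finset.mem_range] at ha hb
      have key : ∀ a b : ℕ, s a = s b → ∀ k, s (a + k) = s (b + k) := by
        intro a b h k
        induction k with
        | zero => exact h
        | succ k ihk => rw [← add_assoc, ← add_assoc, hs, hs, ihk]
      rcases Nat.lt_or_gt_of_ne hab with h | h
      · have h1 := key a b hsab (n - b)
        rw [show b + (n - b) = n by omega] at h1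
        obtain ⟨i, hi, his⟩ := ih (a + (n - b)) (by omega)
        exact ⟨i, hi, his.trans h1⟩
      · have h1 := key b a hsab.symm (n - a)
        rw [show a + (n - a) = n by omega] at h1
        obtain ⟨i, hi, his⟩ := ih (b + (n - a)) (by omega)
        exact ⟨i, hi, his.trans h1⟩

theorem mkSol_mod_early (E : LinearRecurrence ℤ) (hd : 0 < E.order) (v : Fin E.order → ℤ)
    (m : ℕ) (hm : 2 ≤ m) (n : ℕ) :
    ∃ i < m ^ E.order, ((E.mkSol v i : ℤ) : ZMod m) = ((E.mkSol v n : ℤ) : ZMod m) := by
  have : NeZero m := ⟨by omega⟩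
  let s : ℕ → (Fin E.order → ZMod m) := fun n i => ((E.mkSol v (n + i) : ℤ) : ZMod m)
  have hs : ∀ n, s (n + 1) = (redRec E m).tupleSucc (s n) := by
    intro n
    funext i
    show ((E.mkSol v (n + 1 + i) : ℤ) : ZMod m) = _
    by_cases hi : (i : ℕ) + 1 < E.order
    · have : (redRec E m).tupleSucc (s n) i = s n ⟨i + 1, hi⟩ := by
        show (if h : (i : ℕ) + 1 < E.order then s n ⟨i + 1, h⟩ else _) = _
        rw [dif_pos hi]
      rw [this]
      show ((E.mkSol v (n + 1 + i) : ℤ) : ZMod m) = ((E.mkSol v (n + (i + 1)) : ℤ) : ZMod m)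
      rw [show n + 1 + (i : ℕ) = n + (i + 1) by ring]
    · have h1 : (redRec E m).tupleSucc (s n) i = ∑ j : Fin E.order, (E.coeffs j : ZMod m) * s n j := by
        show (if h : (i : ℕ) + 1 < E.order then s n ⟨i + 1, h⟩ else _) = _
        rw [dif_neg hi]
        rfl
      rw [h1]
      have h2 : n + 1 + (i : ℕ) = n + E.order := by have := i.2; omega
      rw [h2, E.is_sol_mkSol v n]
      push_cast
      rfl
  obtain ⟨i, hi, his⟩ := orbit_mod _ s hs n
  refine ⟨i, ?_, ?_⟩
  · have : Fintype.card (Fin E.order → ZMod m) = m ^ E.order := by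
      rw [Fintype.card_fun, ZMod.card, Fintype.card_fin]
    omega
  · have := congrFun his ⟨0, hd⟩
    exact this

theorem obst_code (E : LinearRecurrence ℤ) (hd : 0 < E.order) (v : Fin E.order → ℤ) (k : ℕ) :
    Obst (code E v) k ↔ (2 ≤ k ∧ ∀ n, ¬ (k : ℤ) ∣ E.mkSol v n) := by
  have hlen : (code E v).1.length = E.order := by simp [code]
  have hdvd : ∀ n, (val (code E v) n).natAbs % k = 0 ↔ (k : ℤ) ∣ E.mkSol v n := by
    intro n
    rw [val_code E hd, Int.natCast_dvd, Nat.dvd_iff_mod_eq_zero]
  unfold Obst
  rw [hlen]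
  constructor
  · rintro ⟨hk, h⟩
    refine ⟨hk, fun n hn => ?_⟩
    obtain ⟨i, hi, his⟩ := mkSol_mod_early E hd v k hk n
    apply h i hi
    rw [hdvd, ← ZMod.intCast_zmod_eq_zero_iff_dvd, his, ZMod.intCast_zmod_eq_zero_iff_dvd]
    exact hn
  · rintro ⟨hk, h⟩
    refine ⟨hk, fun i _ hi => ?_⟩
    exact h i ((hdvd i).1 hi)

theorem search_code (E : LinearRecurrence ℤ) (hd : 0 < E.order) (v : Fin E.order → ℤ) :
    (true ∈ search (code E v) ↔ ∃ n, E.mkSol v n = 0) ∧
    (false ∈ search (code E v) ↔ ∃ m : ℕ, 2 ≤ m ∧ ∀ n, ¬ (m : ℤ) ∣ E.mkSol v n) := by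
  have h := search_spec (code E v) (by
    intro k hk n hn
    rw [obst_code E hd] at hk
    rw [val_code E hd] at hn
    apply hk.2 n
    rw [hn]
    exact dvd_zero _)
  simp only [val_code E hd, obst_code E hd] at h
  exact h

end Pool.Agent.Work.MP_8d13b5_lc
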