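import Pool.Agent.Work.MP_8d13b5_lc.USComp

set_option autoImplicit false

/-!
The universal set `S` and the decision procedure.
-/

namespace Pool.Agent.Work.MP_8d13b5_lc.US

open Finset Encodable

/-- every valid code comes from a recurrence -/
theorem exists_code (x : Code) (hx : valid x) :
    ∃ (E : LinearRecurrence ℤ) (hd : 0 < E.order) (v : Fin E.order → ℤ),
      E.coeffs ⟨0, hd⟩ ≠ 0 ∧ code E v = x := by
  obtain ⟨c, w⟩ := x
  obtain ⟨h1, h2, h3⟩ := hx
  simp only at h1 h2 h3
  refine ⟨⟨c.length, fun i => c.getD (c.length - 1 - i) 0⟩, h2, fun i => w.getD i 0, ?_, ?_⟩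
  · simpa using h3
  · unfold code
    refine Prod.ext ?_ ?_
    · apply List.ext_getElem
      · simp
      · intro i hi1 hi2
        simp only [List.getElem_reverse, List.getElem_ofFn, List.length_ofFn]
        rw [← List.getD_eq_getElem c 0 hi2]
        congr 1
        simp only at hi2
        omega
    · apply List.ext_getElem
      · simpa using h1
      · intro i hi1 hi2
        simp only [List.getElem_ofFn]
        rw [List.getD_eq_getElem w 0 hi2]

theorem card_Ex (e : ℕ) (W : Finset ℕ) (hW : ∀ n ∈ W, Ex e n) : W.card ≤ G e := by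
  classical
  rcases W.eq_empty_or_nonempty with h | ⟨n, hn⟩
  · rw [h]; simp
  · obtain ⟨x, hx, hv, -⟩ := hW n hn
    obtain ⟨E, hd, v, h0, hcode⟩ := exists_code x hv
    have hG : G e = bnd x := by
      unfold G
      rw [hx]
      simp only [hv, if_true]
    rw [hG, ← hcode]
    apply card_exc E hd h0 v W
    intro k hk
    obtain ⟨y, hy, -, hy3⟩ := hW k hk
    rw [hx] at hy
    rw [hcode]
    rw [Option.some.injEq] at hy
    rw [hy]
    exact hy3

/-- If the first terms of the class vanish then the whole class does. -/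
theorem class_zero (x : Code) (hx : valid x) (r : ℕ)
    (h : ∀ m < x.1.length, val x (r + m * per x) = 0) (m : ℕ) : val x (r + m * per x) = 0 := by
  obtain ⟨E, hd, v, h0, rfl⟩ := exists_code x hx
  rw [val_code E hd]
  apply class_eq_zero E _ r _ (E.is_sol_mkSol v)
  intro m hm
  have := h m (by rwa [length_code])
  rwa [val_code E hd] at this

section

variable (f : ℕ → ℕ)

/-- the slow function -/
def ff (n : ℕ) : ℕ := min (f n) (Nat.sqrt n)

/-- how many sequences are taken into account at `n` -/
noncomputable def gg (n : ℕ) : ℕ := hh (ff f n) n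

/-- the universal set -/
def SS : Set ℕ := {n | RR (gg f n) n}

variable {f}

theorem computable_ff (hf : Computable f) : Computable (ff f) :=
  Primrec.nat_min.to_comp.comp hf Primrec.nat_sqrt.to_comp

theorem computable_gg (hf : Computable f) : Computable (gg f) :=
  primrec_hh.to_comp.comp (computable_ff hf) Computable.id

theorem monotone_ff (hm : Monotone f) : Monotone (ff f) := fun _ _ h =>
  min_le_min (hm h) (Nat.sqrt_le_sqrt h)

theorem F_mono : Monotone F := by
  intro a b hab
  exact sum_le_sum_of_subset (range_mono hab)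

theorem F_hh_le (y n : ℕ) : F (hh y n) ≤ y := by
  unfold hh
  have h0 : F 0 ≤ y := by simp [F]
  exact Nat.findGreatest_spec (P := fun k => F k ≤ y) (Nat.zero_le n) h0

theorem hh_mono {y y' n n' : ℕ} (hy : y ≤ y') (hn : n ≤ n') : hh y n ≤ hh y' n' := by
  unfold hh
  apply Nat.le_findGreatest
  · exact (Nat.findGreatest_le n).trans hn
  · exact (F_hh_le y n).trans hy

theorem gg_mono (hm : Monotone f) : Monotone (gg f) := fun _ _ h =>
  hh_mono (monotone_ff hm h) h

theorem lt_gg {e n : ℕ} (h1 : e + 1 ≤ n) (h2 : F (e + 1) ≤ ff f n) : e < gg f n := by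
  have : e + 1 ≤ hh (ff f n) n := Nat.le_findGreatest h1 h2
  exact this

open Classical in
theorem computablePred_SS (hf : Computable f) :
    Computable (fun n => decide (n ∈ SS f)) := by
  have h1 : Computable₂ (fun a b : ℕ => decide (RR a b)) := primrec_RR.decide.to_comp
  exact h1.comp (computable_gg hf) Computable.id

open Classical in
/-- the complement of `SS f` is sparse -/
theorem card_compl (hm : Monotone f) (x : ℕ) :
    ((range x).filter (fun n => n ∉ SS f)).card ≤ ff f x := by
  have hsub : (range x).filter (fun n => n ∉ SS f) ⊆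
      (range (gg f x)).biUnion (fun e => (range x).filter (fun n => Ex e n)) := by
    intro n hn
    rw [mem_filter, mem_range] at hn
    obtain ⟨hn1, hn2⟩ := hn
    have h1 : ¬ RR (gg f n) n := hn2
    unfold RR at h1
    push Not at h1
    obtain ⟨e, he1, he2⟩ := h1
    refine mem_biUnion.2 ⟨e, mem_range.2 (lt_of_lt_of_le he1 (gg_mono hm hn1.le)), ?_⟩
    exact mem_filter.2 ⟨mem_range.2 hn1, he2⟩
  calc ((range x).filter (fun n => n ∉ SS f)).card
      ≤ ((range (gg f x)).biUnion (fun e => (range x).filter (fun n => Ex e n))).card :=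
        card_le_card hsub
    _ ≤ ∑ e ∈ range (gg f x), ((range x).filter (fun n => Ex e n)).card := card_biUnion_le
    _ ≤ ∑ e ∈ range (gg f x), G e :=
        sum_le_sum fun e _ => card_Ex e _ (fun n hn => (mem_filter.1 hn).2)
    _ = F (gg f x) := rfl
    _ ≤ ff f x := F_hh_le _ _

/-- every residue class meets the universal set -/
theorem exists_mem_class (hm : Monotone f) (T r : ℕ) (hr : r < T) : ∃ m, r + m * T ∈ SS f := by
  classical
  by_contra hcon
  push Not at hcon
  have hT : 0 < T := by omega
  set K := 2 * T with hK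
  set X := r + K * T with hX
  have h1 : K ≤ ((range X).filter (fun n => n ∉ SS f)).card := by
    have h2 : ((range K).image (fun m => r + m * T)).card = K := by
      rw [card_image_of_injective, card_range]
      intro a b hab
      simp only [Nat.add_left_cancel_iff] at hab
      exact Nat.eq_of_mul_eq_mul_right hT hab
    calc K = ((range K).image (fun m => r + m * T)).card := h2.symm
      _ ≤ _ := by
        apply card_le_card
        intro n hn
        obtain ⟨m, hm, rfl⟩ := mem_image.1 hn
        rw [mem_range] at hm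
        refine mem_filter.2 ⟨mem_range.2 ?_, hcon m⟩
        have : m * T < K * T := Nat.mul_lt_mul_of_pos_right hm hT
        omega
  have h2 := h1.trans ((card_compl hm X).trans (min_le_right _ _))
  have h3 : K * K ≤ X := Nat.le_sqrt.1 h2
  have h4 : K * K = 4 * (T * T) := by rw [hK]; ring
  have h5 : K * T = 2 * (T * T) := by rw [hK]; ring
  have h6 : T ≤ T * T := Nat.le_mul_of_pos_left T hT
  omega

theorem exists_threshold (hm : Monotone f) (hunb : ∀ B, ∃ n, B ≤ f n) (e : ℕ) :
    ∃ N, e + 1 ≤ N ∧ F (e + 1) ≤ ff f N := by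
  obtain ⟨n, hn⟩ := hunb (F (e + 1))
  refine ⟨max (e + 1) (max n (F (e + 1) * F (e + 1))), le_max_left _ _, le_min ?_ ?_⟩
  · exact hn.trans (hm ((le_max_left _ _).trans (le_max_right _ _)))
  · rw [Nat.le_sqrt]
    exact (le_max_right _ _).trans (le_max_right _ _)

open Classical in
/-- beyond this point all sequences coded by numbers up to `e` are taken into account -/
noncomputable def NN (hm : Monotone f) (hunb : ∀ B, ∃ n, B ≤ f n) (e : ℕ) : ℕ :=
  Nat.find (exists_threshold hm hunb e)

theorem NN_spec (hm : Monotone f) (hunb : ∀ B, ∃ n, B ≤ f n) (e n : ℕ)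
    (hn : NN hm hunb e ≤ n) : e < gg f n := by
  classical
  obtain ⟨h1, h2⟩ := Nat.find_spec (exists_threshold hm hunb e)
  exact lt_gg (h1.trans hn) (h2.trans (monotone_ff hm hn))

theorem computable_NN (hf : Computable f) (hm : Monotone f) (hunb : ∀ B, ∃ n, B ≤ f n) :
    Computable (NN hm hunb) := by
  classical
  have hp : Computable₂ (fun e n : ℕ => decide (e + 1 ≤ n ∧ F (e + 1) ≤ ff f n)) := by
    have h1 : Computable (fun p : ℕ × ℕ => decide (p.1 + 1 ≤ p.2)) := by
      have h : PrimrecPred (fun p : ℕ × ℕ => p.1 + 1 ≤ p.2) :=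
        Primrec.nat_le.comp (Primrec.succ.comp Primrec.fst) Primrec.snd
      exact h.decide.to_comp
    have h2 : Computable (fun p : ℕ × ℕ => decide (F (p.1 + 1) ≤ ff f p.2)) := by
      have h : Computable₂ (fun a b : ℕ => decide (a ≤ b)) := Primrec.nat_le.decide.to_comp
      exact h.comp (primrec_F.to_comp.comp (Computable.succ.comp Computable.fst))
        ((computable_ff hf).comp Computable.snd)
    have h3 : Computable (fun p : ℕ × ℕ =>
        (decide (p.1 + 1 ≤ p.2) && decide (F (p.1 + 1) ≤ ff f p.2))) :=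
      Primrec.and.to_comp.comp h1 h2
    refine h3.of_eq fun p => ?_
    simp
  have h4 : Partrec (fun e : ℕ => Nat.rfind (fun n =>
      Part.some (decide (e + 1 ≤ n ∧ F (e + 1) ≤ ff f n)))) := Partrec.rfind hp.partrec₂
  refine h4.of_eq_tot fun e => ?_
  refine Nat.mem_rfind.2 ⟨?_, ?_⟩
  · have := Nat.find_spec (exists_threshold hm hunb e)
    rw [Part.mem_some_iff]
    symm
    exact decide_eq_true this
  · intro m hm'
    have := Nat.find_min (exists_threshold hm hunb e) hm'
    rw [Part.mem_some_iff]
    symm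
    exact decide_eq_false this

/-- search for a zero in `SS f` below `k` -/
noncomputable def bb (f : ℕ → ℕ) (x : Code) (k : ℕ) : Bool :=
  open Classical in
  Nat.rec (motive := fun _ => Bool) false
    (fun n ih => ih || (decide (n ∈ SS f) && decide (val x n = 0))) k

theorem bb_iff (x : Code) (k : ℕ) : bb f x k = true ↔ ∃ n < k, n ∈ SS f ∧ val x n = 0 := by
  classical
  induction k with
  | zero => simp [bb]
  | succ k ih =>
    have h : bb f x (k + 1) = (bb f x k || (decide (k ∈ SS f) && decide (val x k = 0))) := rfl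
    rw [h, Bool.or_eq_true, ih, Bool.and_eq_true, decide_eq_true_eq, decide_eq_true_eq]
    constructor
    · rintro (⟨n, hn, h⟩ | h)
      · exact ⟨n, by omega, h⟩
      · exact ⟨k, by omega, h⟩
    · rintro ⟨n, hn, hS, hv⟩
      rcases Nat.lt_succ_iff_lt_or_eq.1 hn with h' | h'
      · exact Or.inl ⟨n, h', hS, hv⟩
      · rw [h'] at hS hv
        exact Or.inr ⟨hS, hv⟩

theorem computable_bb (hf : Computable f) : Computable₂ (bb f) := by
  classical
  obtain ⟨χ, hχ⟩ : ∃ χ : ℕ → Bool, χ = fun n => decide (n ∈ SS f) := ⟨_, rfl⟩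
  have hχc : Computable χ := by
    rw [hχ]
    exact computablePred_SS hf
  obtain ⟨ζ, hζ⟩ : ∃ ζ : Code → ℕ → Bool, ζ = fun x n => decide (val x n = 0) := ⟨_, rfl⟩
  have hζc : Computable₂ ζ := by
    rw [hζ]
    have h : PrimrecRel (fun (x : Code) (n : ℕ) => val x n = 0) :=
      Primrec.eq.comp primrec_val (Primrec.const 0)
    exact h.decide.to_comp
  have h1 : Computable₂ (fun (p : Code × ℕ) (q : ℕ × Bool) => (q.2 || (χ q.1 && ζ p.1 q.1))) := by
    have ha : Computable (fun r : (Code × ℕ) × (ℕ × Bool) => r.2.2) :=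
      Computable.snd.comp Computable.snd
    have hb : Computable (fun r : (Code × ℕ) × (ℕ × Bool) => χ r.2.1) :=
      hχc.comp (Computable.fst.comp Computable.snd)
    have hc : Computable (fun r : (Code × ℕ) × (ℕ × Bool) => ζ r.1.1 r.2.1) :=
      hζc.comp (Computable.fst.comp Computable.fst) (Computable.fst.comp Computable.snd)
    exact Primrec.or.to_comp.comp ha (Primrec.and.to_comp.comp hb hc)
  have h2 : Computable (fun p : Code × ℕ => Nat.rec (motive := fun _ => Bool) false
      (fun n ih => ih || (χ n && ζ p.1 n)) p.2) :=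
    Computable.nat_rec (f := fun p : Code × ℕ => p.2) (g := fun _ => false)
      (h := fun (p : Code × ℕ) (q : ℕ × Bool) => (q.2 || (χ q.1 && ζ p.1 q.1)))
      Computable.snd (Computable.const false) h1
  have h3 : (fun p : Code × ℕ => bb f p.1 p.2) = (fun p : Code × ℕ =>
      Nat.rec (motive := fun _ => Bool) false (fun n ih => ih || (χ n && ζ p.1 n)) p.2) := by
    funext p
    unfold bb
    rw [hχ, hζ]
  show Computable (fun p : Code × ℕ => bb f p.1 p.2)
  rw [h3]
  exact h2

open Classical in
/-- the decision procedure -/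
noncomputable def DD (hm : Monotone f) (hunb : ∀ B, ∃ n, B ≤ f n) (x : Code) : Bool :=
  decide (AA x) || bb f x (NN hm hunb (encode x))

theorem computable_DD (hf : Computable f) (hm : Monotone f) (hunb : ∀ B, ∃ n, B ≤ f n) :
    Computable (DD hm hunb) := by
  classical
  refine Primrec.or.to_comp.comp primrec_AA.decide.to_comp ?_
  exact (computable_bb hf).comp Computable.id
    ((computable_NN hf hm hunb).comp Computable.encode)

/-- zeros in `SS f` beyond the threshold lie in a class of zeros -/
theorem zero_of_ge (hm : Monotone f) (hunb : ∀ B, ∃ n, B ≤ f n) (x : Code) (hx : valid x) (n : ℕ)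
    (hn : n ∈ SS f) (h0 : val x n = 0) (hge : NN hm hunb (encode x) ≤ n) (m : ℕ) :
    val x (n % per x + m * per x) = 0 := by
  apply class_zero x hx
  by_contra hcon
  push Not at hcon
  have hex : Ex (encode x) n := ⟨x, encodek x, hx, h0, hcon⟩
  exact hn _ (NN_spec hm hunb _ n hge) hex

theorem DD_spec (hm : Monotone f) (hunb : ∀ B, ∃ n, B ≤ f n) (x : Code) (hx : valid x) :
    DD hm hunb x = true ↔ ∃ n ∈ SS f, val x n = 0 := by
  classical
  unfold DD
  rw [Bool.or_eq_true, decide_eq_true_eq, bb_iff]
  constructor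
  · rintro (⟨r, hr, h⟩ | ⟨n, _, h1, h2⟩)
    · obtain ⟨m, hm'⟩ := exists_mem_class (f := f) hm (per x) r hr
      exact ⟨_, hm', class_zero x hx r h m⟩
    · exact ⟨n, h1, h2⟩
  · rintro ⟨n, h1, h2⟩
    rcases lt_or_ge n (NN hm hunb (encode x)) with h | h
    · exact Or.inr ⟨n, h, h1, h2⟩
    · left
      exact ⟨n % per x, Nat.mod_lt _ (per_pos x), fun m _ => zero_of_ge hm hunb x hx n h1 h2 h m⟩

end

/-- the coded sequence is the only one with the given data -/
theorem eq_val (x : Code) (hx : valid x) (u : ℕ → ℤ)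
    (h1 : ∀ i, i < x.1.length → u i = x.2.getD i 0)
    (h2 : ∀ n : ℕ, u (n + x.1.length) =
      ∑ j ∈ range x.1.length, x.1.getD j 0 * u (n + x.1.length - 1 - j)) (n : ℕ) :
    u n = val x n := by
  obtain ⟨E, hd, v, h0, rfl⟩ := exists_code x hx
  rw [val_code E hd]
  rw [length_code] at h1 h2
  apply E.eq_mk_of_is_sol_of_eq_init
  · intro n
    rw [h2, ← sum_range_reflect, Finset.sum_range]
    apply sum_congr rfl
    rintro ⟨i, hi⟩ _
    simp only
    have h3 : n + E.order - 1 - (E.order - 1 - i) = n + i := by omega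
    rw [h3]
    congr 1
    have hl : E.order - 1 - i < (List.ofFn E.coeffs).reverse.length := by
      simp; omega
    show (List.ofFn E.coeffs).reverse.getD (E.order - 1 - i) 0 = _
    rw [List.getD_eq_getElem _ _ hl, List.getElem_reverse, List.getElem_ofFn]
    congr 1
    apply Fin.ext
    simp
    omega
  · intro i
    rw [h1 i i.2]
    show (List.ofFn v).getD i 0 = v i
    rw [List.getD_eq_getElem _ _ (by simp), List.getElem_ofFn]

/-- and it does satisfy the conditions -/
theorem val_init (x : Code) (hx : valid x) (i : ℕ) (hi : i < x.1.length) :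
    val x i = x.2.getD i 0 := by
  obtain ⟨E, hd, v, h0, rfl⟩ := exists_code x hx
  rw [length_code] at hi
  rw [val_code E hd]
  have h3 := E.mkSol_eq_init v ⟨i, hi⟩
  simp only at h3
  rw [h3]
  show v ⟨i, hi⟩ = (List.ofFn v).getD i 0
  rw [List.getD_eq_getElem _ _ (by simpa using hi), List.getElem_ofFn]

theorem val_rec (x : Code) (hx : valid x) (n : ℕ) :
    val x (n + x.1.length) =
      ∑ j ∈ range x.1.length, x.1.getD j 0 * val x (n + x.1.length - 1 - j) := by
  obtain ⟨E, hd, v, h0, rfl⟩ := exists_code x hx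
  rw [length_code, val_code E hd, E.is_sol_mkSol v n, ← sum_range_reflect, Finset.sum_range]
  apply sum_congr rfl
  rintro ⟨i, hi⟩ _
  simp only
  rw [val_code E hd]
  have h3 : n + E.order - 1 - (E.order - 1 - i) = n + i := by omega
  rw [h3]
  congr 1
  have hl : E.order - 1 - i < (List.ofFn E.coeffs).reverse.length := by
    simp; omega
  show _ = (List.ofFn E.coeffs).reverse.getD (E.order - 1 - i) 0
  rw [List.getD_eq_getElem _ _ hl, List.getElem_reverse, List.getElem_ofFn]
  congr 1
  apply Fin.ext
  simp
  omega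

end Pool.Agent.Work.MP_8d13b5_lc.US
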