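import Pool.Agent.Work.MP_8d13b5_lc.Lrs

set_option autoImplicit false

namespace Pool.Agent.Work.MP_8d13b5_lc

open Polynomial Finset Filter Topology

/-- Counting points on an affine hyperplane. -/
theorem card_affine_le {k : Type*} [Field k] [Fintype k] {V : Type*} [AddCommGroup V] [Module k V]
    [Fintype V] [DecidableEq V] (f : V →ₗ[k] k) (hf : ∃ v, f v ≠ 0) (a : k)
    (K : Finset V) (hK : ∀ v ∈ K, a + f v = 0) :
    Fintype.card k * K.card ≤ Fintype.card V := by
  classical
  obtain ⟨w, hw⟩ := hf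
  rw [← Finset.card_univ, ← Finset.card_univ (α := V), ← Finset.card_product]
  apply Finset.card_le_card_of_injOn (fun x : k × V => x.1 • w + x.2)
  · intro x _
    exact Finset.mem_coe.2 (Finset.mem_univ _)
  · rintro ⟨c, x⟩ hx ⟨b, y⟩ hy hxy
    rw [Finset.mem_coe, Finset.mem_product] at hx hy
    simp only at hxy
    have h1 := congrArg f hxy
    have hx' := eq_neg_of_add_eq_zero_right (hK x hx.2)
    have hy' := eq_neg_of_add_eq_zero_right (hK y hy.2)
    rw [map_add, map_add, map_smul, map_smul, hx', hy', add_left_inj,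
      smul_eq_mul, smul_eq_mul] at h1
    have h2 : c = b := mul_right_cancel₀ hw h1
    subst h2
    simpa using hxy

/-- The terms of the members of an affine family. -/
theorem mkSol_family (E : LinearRecurrence ℤ) {m : ℕ} (v : Fin E.order → ℤ)
    (w : Fin m → Fin E.order → ℤ) (t : Fin m → ℤ) (n : ℕ) :
    E.mkSol (v + ∑ j, t j • w j) n = E.mkSol v n + ∑ j, t j * E.mkSol (w j) n := by
  rw [← term_apply, map_add, map_sum]
  simp only [map_smul, term_apply, smul_eq_mul]

/-- The residues of the parameters giving a sequence with a zero mod `p`. -/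
noncomputable def badFam (E : LinearRecurrence ℤ) {m : ℕ} (v : Fin E.order → ℤ)
    (w : Fin m → Fin E.order → ℤ) (p : ℕ) : Finset (Fin m → ZMod p) :=
  if h : p.Prime then
    haveI : Fact p.Prime := ⟨h⟩
    haveI : Fintype (ZMod p) := ZMod.fintype p
    letI := Classical.decPred fun t : Fin m → ZMod p => ∃ n, ((E.mkSol v n : ℤ) : ZMod p) +
      ∑ j, t j * ((E.mkSol (w j) n : ℤ) : ZMod p) = 0
    Finset.univ.filter (fun t => ∃ n, ((E.mkSol v n : ℤ) : ZMod p) +
      ∑ j, t j * ((E.mkSol (w j) n : ℤ) : ZMod p) = 0)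
  else ∅

theorem mem_badFam (E : LinearRecurrence ℤ) {m : ℕ} (v : Fin E.order → ℤ)
    (w : Fin m → Fin E.order → ℤ) (p : ℕ) (hp : p.Prime) (t : Fin m → ZMod p) :
    t ∈ badFam E v w p ↔ ∃ n, ((E.mkSol v n : ℤ) : ZMod p) +
      ∑ j, t j * ((E.mkSol (w j) n : ℤ) : ZMod p) = 0 := by
  simp [badFam, hp]

theorem card_badFam (E : LinearRecurrence ℤ) {m : ℕ} (v : Fin E.order → ℤ)
    (w : Fin m → Fin E.order → ℤ) (p : ℕ) (hp : p.Prime)
    (hp2 : 2 < p)
    (hdvd : (E.charPoly.map (Int.castRingHom (ZMod p))) ∣ X ^ ((p - 1) / 2) - 1)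
    (hcop : ∀ n, ¬ ((p : ℤ) ∣ E.mkSol v n ∧ ∀ j, (p : ℤ) ∣ E.mkSol (w j) n)) :
    2 * (badFam E v w p).card ≤ p ^ m := by
  classical
  have : Fact p.Prime := ⟨hp⟩
  set T := (p - 1) / 2 with hT
  have hT0 : 0 < T := by omega
  rw [← charPoly_redRec] at hdvd
  have hmod : ∀ (x : Fin E.order → ℤ) (n : ℕ),
      ((E.mkSol x n : ℤ) : ZMod p) = ((E.mkSol x (n % T) : ℤ) : ZMod p) := by
    intro x n
    rw [mkSol_redRec, mkSol_redRec]
    conv_lhs => rw [← Nat.mod_add_div' n T]
    exact periodic_mul T _ (fun k => periodic_of_dvd (redRec E p) T hdvd _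
      ((redRec E p).is_sol_mkSol _) k) _ _
  let K : ℕ → Finset (Fin m → ZMod p) := fun n =>
    Finset.univ.filter (fun t : Fin m → ZMod p => ((E.mkSol v n : ℤ) : ZMod p) +
      ∑ j, t j * ((E.mkSol (w j) n : ℤ) : ZMod p) = 0)
  have hsub : badFam E v w p ⊆ (Finset.range T).biUnion K := by
    intro t ht
    rw [mem_badFam E v w p hp] at ht
    obtain ⟨n, hn⟩ := ht
    refine Finset.mem_biUnion.2 ⟨n % T, Finset.mem_range.2 (Nat.mod_lt _ hT0),
      Finset.mem_filter.2 ⟨Finset.mem_univ _, ?_⟩⟩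
    rw [← hmod]
    simp only [← hmod]
    exact hn
  have hcardV : Fintype.card (Fin m → ZMod p) = p ^ m := by
    rw [Fintype.card_fun, ZMod.card, Fintype.card_fin]
  have hK : ∀ n, p * (K n).card ≤ p ^ m := by
    intro n
    let f : (Fin m → ZMod p) →ₗ[ZMod p] ZMod p :=
      ∑ j, ((E.mkSol (w j) n : ℤ) : ZMod p) • LinearMap.proj j
    have hf : ∀ t, f t = ∑ j, t j * ((E.mkSol (w j) n : ℤ) : ZMod p) := by
      intro t
      rw [LinearMap.sum_apply]
      apply Finset.sum_congr rfl
      intro j _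
      rw [LinearMap.smul_apply, LinearMap.proj_apply, smul_eq_mul, mul_comm]
    by_cases hex : ∃ j, ((E.mkSol (w j) n : ℤ) : ZMod p) ≠ 0
    · obtain ⟨j, hj⟩ := hex
      have h1 := card_affine_le f ⟨Pi.single j 1, by
        rw [hf, Finset.sum_eq_single j]
        · rw [Pi.single_eq_same, one_mul]; exact hj
        · intro i _ hi
          rw [Pi.single_eq_of_ne hi, zero_mul]
        · intro h; exact absurd (Finset.mem_univ _) h⟩ ((E.mkSol v n : ℤ) : ZMod p) (K n) (by
        intro t ht
        rw [hf]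
        exact (Finset.mem_filter.1 ht).2)
      rw [ZMod.card] at h1
      rw [← hcardV]
      exact h1
    · push Not at hex
      have hv : ((E.mkSol v n : ℤ) : ZMod p) ≠ 0 := by
        intro h
        apply hcop n
        refine ⟨(ZMod.intCast_zmod_eq_zero_iff_dvd _ p).1 h, fun j =>
          (ZMod.intCast_zmod_eq_zero_iff_dvd _ p).1 (hex j)⟩
      have hempty : K n = ∅ := by
        rw [Finset.filter_eq_empty_iff]
        intro t _ h
        simp only [hex, mul_zero, Finset.sum_const_zero, add_zero] at h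
        exact hv h
      rw [hempty, Finset.card_empty, mul_zero]
      exact Nat.zero_le _
  have h2 : (badFam E v w p).card ≤ ∑ n ∈ Finset.range T, (K n).card :=
    (Finset.card_le_card hsub).trans Finset.card_biUnion_le
  have h3 : p * (badFam E v w p).card ≤ T * p ^ m := by
    calc p * (badFam E v w p).card ≤ p * ∑ n ∈ Finset.range T, (K n).card :=
          Nat.mul_le_mul_left _ h2
      _ = ∑ n ∈ Finset.range T, p * (K n).card := by rw [Finset.mul_sum]
      _ ≤ ∑ n ∈ Finset.range T, p ^ m := Finset.sum_le_sum fun n _ => hK n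
      _ = T * p ^ m := by simp
  have h4 : p * (2 * (badFam E v w p).card) ≤ p * p ^ m := by
    calc p * (2 * (badFam E v w p).card) = 2 * (p * (badFam E v w p).card) := by ring
      _ ≤ 2 * (T * p ^ m) := Nat.mul_le_mul_left _ h3
      _ = (2 * T) * p ^ m := by ring
      _ ≤ p * p ^ m := by
          apply Nat.mul_le_mul_right
          omega
  exact Nat.le_of_mul_le_mul_left h4 hp.pos

open Classical in
/-- For every unimodular affine family of sequences of a simple recurrence, the proportion of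
the parameters in a box for which no prime misses all the terms tends to `0`. -/
theorem tendsto_bad_family (E : LinearRecurrence ℤ) (hd : 0 < E.order)
    (h0 : E.coeffs ⟨0, hd⟩ ≠ 0) (hs : (E.charPoly.map (Int.castRingHom ℚ)).Separable)
    {m : ℕ} (v : Fin E.order → ℤ) (w : Fin m → Fin E.order → ℤ)
    (hfin : {p : ℕ | p.Prime ∧ ∃ n, (p : ℤ) ∣ E.mkSol v n ∧
      ∀ j, (p : ℤ) ∣ E.mkSol (w j) n}.Finite) :
    Tendsto (fun H : ℕ => (((box m H).filter
        (fun t => ¬ ∃ p : ℕ, p.Prime ∧ ∀ n, ¬ (p : ℤ) ∣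
          E.mkSol (v + ∑ j, t j • w j) n)).card : ℝ) /
        ((2 * (H : ℝ) + 1) ^ m)) atTop (𝓝 0) := by
  have hgood := infinite_good E.charPoly (LinearRecurrence.charPoly_monic E) hs (by
    rw [charPoly_coeff_zero E hd]
    simpa using h0)
  have hgood' := hgood.sdiff hfin
  refine tendsto_bad m _ hgood' (fun p hp => hp.1.1) (badFam E v w) (fun p hp => ?_) _ ?_
  · refine card_badFam E v w p hp.1.1 hp.1.2.1 hp.1.2.2 fun n hn => ?_
    exact hp.2 ⟨hp.1.1, n, hn⟩
  · intro t ht p hp
    rw [mem_badFam E v w p hp.1.1]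
    by_contra hcon
    push Not at hcon
    apply ht
    refine ⟨p, hp.1.1, fun n hn => hcon n ?_⟩
    rw [← ZMod.intCast_zmod_eq_zero_iff_dvd, mkSol_family] at hn
    push_cast at hn
    exact hn

end Pool.Agent.Work.MP_8d13b5_lc
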