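import Mathlib

/-!
A generic local-global principle for simple linear recurrences.
-/

open Polynomial IntermediateField

namespace Pool.Agent.Work.MP_8d13b5_lc.GenericPower

/-- Extending a ring homomorphism to a prime field from an order to a larger ring,
when the prime does not divide the index. -/
theorem extend_hom {L : Type*} [Field L] (A : Subring L) (B : Subring L)
    (k : ℤ) (hk : ∀ b ∈ B, (k : L) * b ∈ A) {F : Type*} [Field F] (φ : A →+* F)
    (hkF : (k : F) ≠ 0) : Nonempty (B →+* F) := by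
  have key : ∀ (x y : L) (hx : x ∈ A) (hy : y ∈ A) (h : x * y ∈ A),
      φ ⟨x * y, h⟩ = φ ⟨x, hx⟩ * φ ⟨y, hy⟩ := by
    intro x y hx hy h
    rw [← map_mul]; rfl
  have keya : ∀ (x y : L) (hx : x ∈ A) (hy : y ∈ A) (h : x + y ∈ A),
      φ ⟨x + y, h⟩ = φ ⟨x, hx⟩ + φ ⟨y, hy⟩ := by
    intro x y hx hy h
    rw [← map_add]; rfl
  have hkA : (k : L) ∈ A := intCast_mem A k
  have hφk : φ ⟨(k : L), hkA⟩ = (k : F) := by
    have : (⟨(k : L), hkA⟩ : A) = ((k : ℤ) : A) := rfl
    rw [this, map_intCast]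
  refine ⟨{ toFun := fun b => φ ⟨(k : L) * b, hk b b.2⟩ / (k : F)
            map_one' := ?_, map_mul' := ?_, map_zero' := ?_, map_add' := ?_ }⟩
  · have : (⟨(k : L) * ((1 : B) : L), hk _ (1 : B).2⟩ : A) = ⟨(k : L), hkA⟩ := by
      apply Subtype.ext; simp
    rw [this, hφk, div_self hkF]
  · intro x y
    have hxy : (k : L) * ((k : L) * ((x * y : B) : L)) ∈ A :=
      A.mul_mem hkA (hk _ (x * y).2)
    have e1 : φ ⟨(k : L) * ((k : L) * ((x * y : B) : L)), hxy⟩ =
        (k : F) * φ ⟨(k : L) * ((x * y : B) : L), hk _ (x * y).2⟩ := by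
      rw [key _ _ hkA (hk _ (x * y).2) hxy, hφk]
    have e2 : φ ⟨(k : L) * ((k : L) * ((x * y : B) : L)), hxy⟩ =
        φ ⟨(k : L) * x, hk x x.2⟩ * φ ⟨(k : L) * y, hk y y.2⟩ := by
      have hm : ((k : L) * x) * ((k : L) * y) ∈ A := A.mul_mem (hk x x.2) (hk y y.2)
      rw [← key _ _ (hk x x.2) (hk y y.2) hm]
      congr 1
      apply Subtype.ext
      show (k : L) * ((k : L) * ((x * y : B) : L)) = ((k : L) * x) * ((k : L) * y)
      push_cast; ring
    have e3 := e1.symm.trans e2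
    field_simp
    linear_combination e3
  · have : (⟨(k : L) * ((0 : B) : L), hk _ (0 : B).2⟩ : A) = 0 := by
      apply Subtype.ext; simp
    rw [this, map_zero, zero_div]
  · intro x y
    have hm : ((k : L) * x) + ((k : L) * y) ∈ A := A.add_mem (hk x x.2) (hk y y.2)
    have : (⟨(k : L) * ((x + y : B) : L), hk _ (x + y).2⟩ : A) = ⟨((k : L) * x) + ((k : L) * y), hm⟩ := by
      apply Subtype.ext
      show (k : L) * ((x + y : B) : L) = _
      push_cast; ring
    rw [this, keya _ _ (hk x x.2) (hk y y.2) hm, add_div]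

theorem splits_aux {L : Type*} [Field L] [NumberField L] (F : ℤ[X]) (hF : F.Monic)
    (hs : (F.map (Int.castRingHom L)).Splits) :
    ∃ g : ℤ[X], g.Monic ∧ 0 < g.natDegree ∧ ∃ k : ℤ, k ≠ 0 ∧ ∀ p : ℕ, p.Prime → ¬ (p : ℤ) ∣ k →
      (∃ t : ℤ, (p : ℤ) ∣ g.eval t) → (F.map (Int.castRingHom (ZMod p))).Splits := by
  classical
  obtain ⟨θ0, hθ0⟩ := Field.exists_primitive_element ℚ L
  have halg : IsAlgebraic ℤ θ0 := by
    have h1 : IsAlgebraic ℚ θ0 := Algebra.IsAlgebraic.isAlgebraic θ0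
    exact (IsFractionRing.isAlgebraic_iff ℤ ℚ L).mpr h1
  obtain ⟨c, hc0, hcint⟩ := halg.exists_integral_multiple
  set θ : L := c • θ0 with hθ
  have hcL : (c : L) ≠ 0 := by exact_mod_cast hc0
  have hθtop : ℚ⟮θ⟯ = ⊤ := by
    apply le_antisymm le_top
    rw [← hθ0, IntermediateField.adjoin_simple_le_iff]
    have h1 : θ0 = (c : L)⁻¹ * θ := by
      rw [hθ, zsmul_eq_mul]; field_simp
    rw [h1]
    apply mul_mem
    · apply inv_mem
      exact intCast_mem _ c
    · exact IntermediateField.mem_adjoin_simple_self ℚ θ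
  -- every element has an integer multiple in ℤ[θ]
  let A : Subalgebra ℤ L := Algebra.adjoin ℤ {θ}
  have hmult : ∀ y : L, ∃ k : ℤ, k ≠ 0 ∧ (k : L) * y ∈ A := by
    intro y
    have hy : y ∈ ℚ⟮θ⟯ := by rw [hθtop]; trivial
    have halg2 : IsAlgebraic ℚ θ := Algebra.IsAlgebraic.isAlgebraic θ
    have hy2 : y ∈ Algebra.adjoin ℚ ({θ} : Set L) := by
      rw [← IntermediateField.adjoin_simple_toSubalgebra_of_isAlgebraic halg2]
      exact hy
    clear hy
    induction hy2 using Algebra.adjoin_induction with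
    | mem x hx =>
      refine ⟨1, one_ne_zero, ?_⟩
      simpa using Algebra.subset_adjoin hx
    | algebraMap r =>
      refine ⟨(r.den : ℤ), by exact_mod_cast r.den_nz, ?_⟩
      have : (((r.den : ℤ) : L)) * (algebraMap ℚ L r) = ((r.num : ℤ) : L) := by
        have h1 : ((r.den : ℚ) * r) = (r.num : ℚ) := by
          rw [mul_comm]; exact Rat.mul_den_eq_num r
        rw [eq_ratCast]
        exact_mod_cast congrArg (fun x : ℚ => (x : L)) h1
      rw [this]
      exact intCast_mem A r.num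
    | add x y _ _ hx hy =>
      obtain ⟨k1, h1, h1'⟩ := hx
      obtain ⟨k2, h2, h2'⟩ := hy
      refine ⟨k1 * k2, mul_ne_zero h1 h2, ?_⟩
      have : ((k1 * k2 : ℤ) : L) * (x + y) = (k2 : L) * ((k1 : L) * x) + (k1 : L) * ((k2 : L) * y) := by
        push_cast; ring
      rw [this]
      exact A.add_mem (A.mul_mem (intCast_mem A k2) h1') (A.mul_mem (intCast_mem A k1) h2')
    | mul x y _ _ hx hy =>
      obtain ⟨k1, h1, h1'⟩ := hx
      obtain ⟨k2, h2, h2'⟩ := hy
      refine ⟨k1 * k2, mul_ne_zero h1 h2, ?_⟩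
      have : ((k1 * k2 : ℤ) : L) * (x * y) = ((k1 : L) * x) * ((k2 : L) * y) := by
        push_cast; ring
      rw [this]
      exact A.mul_mem h1' h2'
  -- a common multiple for all integers of L
  let O : Subalgebra ℤ L := integralClosure ℤ L
  have hfin : Module.Finite ℤ O := IsIntegralClosure.finite ℤ ℚ L O
  obtain ⟨S, hS⟩ := hfin.fg_top
  obtain ⟨k, hk0, hk⟩ : ∃ k : ℤ, k ≠ 0 ∧ ∀ b ∈ O.toSubring, (k : L) * b ∈ A.toSubring := by
    choose κ hκ0 hκ using hmult
    refine ⟨∏ s ∈ S, κ s, Finset.prod_ne_zero_iff.mpr fun s _ => hκ0 _, ?_⟩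
    intro b hb
    have hb2 : (⟨b, hb⟩ : O) ∈ Submodule.span ℤ (S : Set O) := by rw [hS]; trivial
    have : ∀ x ∈ Submodule.span ℤ (S : Set O), ((∏ s ∈ S, κ s : ℤ) : L) * (x : L) ∈ A := by
      intro x hx
      induction hx using Submodule.span_induction with
      | mem x hx =>
        have hxS : x ∈ S := hx
        rw [← Finset.mul_prod_erase S (fun s : O => κ s) hxS]
        have e : ((κ x * ∏ s ∈ S.erase x, κ s : ℤ) : L) * (x : L) =
            ((∏ s ∈ S.erase x, κ s : ℤ) : L) * ((κ x : L) * x) := by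
          push_cast; ring
        rw [e]
        exact A.mul_mem (intCast_mem A _) (hκ x)
      | zero => simp
      | add x y _ _ hx hy =>
        have e : ((∏ s ∈ S, κ s : ℤ) : L) * ((x + y : O) : L) =
            ((∏ s ∈ S, κ s : ℤ) : L) * (x : L) + ((∏ s ∈ S, κ s : ℤ) : L) * (y : L) := by
          push_cast; ring
        rw [e]
        exact A.add_mem hx hy
      | smul a x _ hx =>
        have e : ((∏ s ∈ S, κ s : ℤ) : L) * ((a • x : O) : L) =
            (a : L) * (((∏ s ∈ S, κ s : ℤ) : L) * (x : L)) := by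
          rw [zsmul_eq_mul]; push_cast; ring
        rw [e]
        exact A.mul_mem (intCast_mem A a) hx
    exact this _ hb2
  -- the minimal polynomial of θ
  set g := minpoly ℤ θ with hg
  have hgdeg : 0 < g.natDegree := minpoly.natDegree_pos hcint
  refine ⟨g, minpoly.monic hcint, hgdeg, k, hk0, ?_⟩
  rintro p hp hpk0 ⟨t, ht⟩
  have : Fact p.Prime := ⟨hp⟩
  have hpk : ((k : ℤ) : ZMod p) ≠ 0 := by
    intro h
    exact hpk0 ((ZMod.intCast_zmod_eq_zero_iff_dvd _ _).mp h)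
  -- homomorphism from ℤ[θ]
  have φ0 : AdjoinRoot g →+* ZMod p := by
    refine AdjoinRoot.lift (Int.castRingHom (ZMod p)) (t : ZMod p) ?_
    rw [← Polynomial.eval_map, Polynomial.eval_intCast_map]
    show ((g.eval t : ℤ) : ZMod p) = 0
    exact (ZMod.intCast_zmod_eq_zero_iff_dvd _ _).mpr ht
  have φ1 : A →+* ZMod p := φ0.comp (minpoly.equivAdjoin hcint).symm.toRingEquiv.toRingHom
  obtain ⟨ψ⟩ := extend_hom A.toSubring O.toSubring k hk (F := ZMod p) φ1 hpk
  have hsplO : (F.map (Int.castRingHom O)).Splits := by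
    have hinj : Function.Injective (algebraMap O L) := Subtype.val_injective
    refine Polynomial.Splits.of_splits_map_of_injective (i := algebraMap O L) hinj ?_ ?_
    · rw [Polynomial.map_map]
      have : (algebraMap O L).comp (Int.castRingHom O) = Int.castRingHom L := RingHom.ext_int _ _
      rw [this]; exact hs
    · intro a ha
      rw [Polynomial.map_map] at ha
      have : (algebraMap O L).comp (Int.castRingHom O) = Int.castRingHom L := RingHom.ext_int _ _
      rw [this] at ha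
      have hroot : (F.map (Int.castRingHom L)).IsRoot a := (Polynomial.mem_roots'.mp ha).2
      have hint : IsIntegral ℤ a := ⟨F, hF, by
        rw [IsRoot.def, Polynomial.eval_map] at hroot
        exact hroot⟩
      exact ⟨⟨a, hint⟩, rfl⟩
  have h2 := hsplO.map ψ
  rw [Polynomial.map_map] at h2
  have : (ψ : O →+* ZMod p).comp (Int.castRingHom O) = Int.castRingHom (ZMod p) := RingHom.ext_int _ _
  rwa [this] at h2

theorem exists_splitting_poly (F : ℤ[X]) (hF : F.Monic) :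
    ∃ g : ℤ[X], g.Monic ∧ 0 < g.natDegree ∧ ∃ k : ℤ, k ≠ 0 ∧ ∀ p : ℕ, p.Prime → ¬ (p : ℤ) ∣ k →
      (∃ t : ℤ, (p : ℤ) ∣ g.eval t) → (F.map (Int.castRingHom (ZMod p))).Splits := by
  have h := SplittingField.splits (F.map (Int.castRingHom ℚ))
  have : NumberField (F.map (Int.castRingHom ℚ)).SplittingField := { 
    to_charZero := inferInstance
    to_finiteDimensional := inferInstance }
  apply splits_aux (L := (F.map (Int.castRingHom ℚ)).SplittingField) F hF
  rw [Polynomial.map_map] at h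
  convert h using 2
  exact RingHom.ext_int _ _

/-- If `f(X^m)` splits over `F`, every root of `f` in `F` is an `m`-th power and `f` splits. -/
theorem splits_of_expand {F : Type*} [Field F] (f : F[X]) (hf0 : f ≠ 0) (m : ℕ) (hm : 0 < m)
    (hs : (expand F m f).Splits) :
    f.Splits ∧ ∀ a : F, f.IsRoot a → ∃ b : F, b ^ m = a := by
  have hexp0 : expand F m f ≠ 0 := by
    intro h; exact hf0 ((expand_eq_zero hm).mp h)
  have key : ∀ a : AlgebraicClosure F, (f.map (algebraMap F (AlgebraicClosure F))).IsRoot a →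
      ∃ b : F, algebraMap F (AlgebraicClosure F) (b ^ m) = a := by
    intro a ha
    obtain ⟨b, hb⟩ := IsAlgClosed.exists_pow_nat_eq a hm
    have hb2 : ((expand F m f).map (algebraMap F (AlgebraicClosure F))).IsRoot b := by
      rw [IsRoot.def, map_expand, expand_eval, hb]
      exact ha
    obtain ⟨b', hb'⟩ := hs.mem_range_of_isRoot hexp0 hb2
    exact ⟨b', by rw [map_pow, hb', hb]⟩
  constructor
  · refine Splits.of_splits_map (algebraMap F (AlgebraicClosure F)) (IsAlgClosed.splits _) ?_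
    intro a ha
    obtain ⟨b, hb⟩ := key a (mem_roots'.mp ha).2
    exact ⟨b ^ m, hb⟩
  · intro a ha
    have ha2 : (f.map (algebraMap F (AlgebraicClosure F))).IsRoot (algebraMap F _ a) := by
      exact ha.map
    obtain ⟨b, hb⟩ := key _ ha2
    exact ⟨b, (algebraMap F (AlgebraicClosure F)).injective hb⟩

theorem dvd_of_expand {F : Type*} [Field F] [Fintype F] (f : F[X]) (hf0 : f ≠ 0)
    (hc : f.coeff 0 ≠ 0) (hsep : f.Separable) (m N : ℕ) (hm : 0 < m)
    (hN : m * N = Fintype.card F - 1) (hN0 : 0 < N)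
    (hs : (expand F m f).Splits) : f ∣ X ^ N - 1 := by
  obtain ⟨h1, h2⟩ := splits_of_expand f hf0 m hm hs
  have hne : (X ^ N - 1 : F[X]) ≠ 0 := X_pow_sub_C_ne_zero hN0 1
  apply h1.dvd_of_roots_le_roots hf0
  rw [Multiset.le_iff_subset (nodup_roots hsep)]
  intro a ha
  have har : f.IsRoot a := (mem_roots'.mp ha).2
  obtain ⟨b, hb⟩ := h2 a har
  have ha0 : a ≠ 0 := by
    intro h
    rw [h, IsRoot.def, ← coeff_zero_eq_eval_zero] at har
    exact hc har
  have hb0 : b ≠ 0 := by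
    intro h
    apply ha0
    rw [← hb, h, zero_pow hm.ne']
  rw [mem_roots hne, IsRoot.def, eval_sub, eval_pow, eval_X, eval_one, ← hb, ← pow_mul, hN,
    FiniteField.pow_card_sub_one_eq_one b hb0, sub_self]

theorem dvd_card_of_splits {F : Type*} [Field F] [Fintype F] (m : ℕ) (hm : 0 < m)
    (hmF : (m : F) ≠ 0) (hs : (X ^ m - 1 : F[X]).Splits) : m ∣ Fintype.card F - 1 := by
  have : NeZero (m : F) := ⟨hmF⟩
  have hne : (X ^ m - 1 : F[X]) ≠ 0 := X_pow_sub_C_ne_zero hm 1
  have hcs : (cyclotomic m F).Splits := hs.of_dvd hne (cyclotomic.dvd_X_pow_sub_one m F)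
  have hdeg : (cyclotomic m F).degree ≠ 0 := by
    rw [degree_cyclotomic]
    exact_mod_cast (Nat.totient_pos.mpr hm).ne'
  obtain ⟨ζ, hζ⟩ := hcs.exists_eval_eq_zero hdeg
  have hprim : IsPrimitiveRoot ζ m := (isRoot_cyclotomic_iff).mp hζ
  have hζ0 : ζ ≠ 0 := by
    intro h
    have := hprim.pow_eq_one
    rw [h, zero_pow hm.ne'] at this
    exact zero_ne_one this
  exact hprim.dvd_of_pow_eq_one _ (FiniteField.pow_card_sub_one_eq_one ζ hζ0)

/-- the shift operator on sequences -/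
def shift (R : Type*) [CommRing R] : (ℕ → R) →ₗ[R] (ℕ → R) where
  toFun u n := u (n + 1)
  map_add' _ _ := rfl
  map_smul' _ _ := rfl

theorem shift_pow {R : Type*} [CommRing R] (k : ℕ) (u : ℕ → R) (n : ℕ) :
    ((shift R) ^ k) u n = u (n + k) := by
  induction k generalizing u n with
  | zero => simp
  | succ k ih =>
    rw [pow_succ, Module.End.mul_apply, ih]
    show u (n + k + 1) = _
    rw [add_assoc]

theorem aeval_charPoly {R : Type*} [CommRing R] (E : LinearRecurrence R) (u : ℕ → R)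
    (hu : E.IsSolution u) : aeval (shift R) E.charPoly u = 0 := by
  rw [LinearRecurrence.charPoly, map_sub, map_sum]
  funext n
  simp only [aeval_monomial, map_one, one_mul, LinearMap.sub_apply, Pi.sub_apply,
    Pi.zero_apply, LinearMap.sum_apply]
  rw [Finset.sum_apply, shift_pow, hu n, sub_eq_zero]
  apply Finset.sum_congr rfl
  intro i _
  rw [Module.End.mul_apply, Module.algebraMap_end_apply, Pi.smul_apply, shift_pow, smul_eq_mul]

theorem periodic_of_dvd {R : Type*} [CommRing R] (E : LinearRecurrence R) (N : ℕ)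
    (hN : E.charPoly ∣ X ^ N - 1) (u : ℕ → R) (hu : E.IsSolution u) (n : ℕ) :
    u (n + N) = u n := by
  obtain ⟨g, hg⟩ := hN
  have h1 : aeval (shift R) (X ^ N - 1 : R[X]) u = 0 := by
    rw [hg, mul_comm, map_mul, Module.End.mul_apply, aeval_charPoly E u hu, map_zero]
  have h2 := congrFun h1 n
  simp only [map_sub, map_pow, aeval_X, map_one, LinearMap.sub_apply, Pi.sub_apply,
    Pi.zero_apply, Module.End.one_apply] at h2
  rw [shift_pow] at h2
  exact sub_eq_zero.mp h2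

theorem mkSol_linear {R : Type*} [CommRing R] (E : LinearRecurrence R) (n : ℕ) :
    ∃ φ : (Fin E.order → R) →ₗ[R] R, ∀ x, φ x = E.mkSol x n := by
  refine ⟨(LinearMap.proj n) ∘ₗ E.solSpace.subtype ∘ₗ E.toInit.symm.toLinearMap, fun x => rfl⟩

theorem shift_isSolution {R : Type*} [CommRing R] (E : LinearRecurrence R) (u : ℕ → R)
    (hu : E.IsSolution u) (k : ℕ) : E.IsSolution (fun n => u (n + k)) := by
  intro n
  show u (n + E.order + k) = _
  have := hu (n + k)
  rw [show n + E.order + k = n + k + E.order by ring, this]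
  apply Finset.sum_congr rfl
  intro i _
  show _ = E.coeffs i * u (n + i + k)
  rw [show n + k + (i : ℕ) = n + i + k by ring]

theorem exists_mkSol_ne_zero {F : Type*} [Field F] (E : LinearRecurrence F)
    (hd : 0 < E.order) (N : ℕ) (hN : 0 < N)
    (hper : ∀ u : ℕ → F, E.IsSolution u → ∀ n, u (n + N) = u n) (n : ℕ) :
    ∃ x : Fin E.order → F, E.mkSol x n ≠ 0 := by
  set v := E.mkSol (Pi.single ⟨0, hd⟩ 1) with hv
  have hvs : E.IsSolution v := E.is_sol_mkSol _
  have hv0 : v 0 = 1 := by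
    have := E.mkSol_eq_init (Pi.single ⟨0, hd⟩ 1) ⟨0, hd⟩
    simpa using this
  have hmul : ∀ j, v (N * j) = 1 := by
    intro j
    induction j with
    | zero => simpa using hv0
    | succ j ih =>
      rw [Nat.mul_succ, hper v hvs, ih]
  set k := N * n - n with hk
  have hkn : n + k = N * n := by
    have : n ≤ N * n := Nat.le_mul_of_pos_left n hN
    omega
  refine ⟨fun i => v (i + k), ?_⟩
  have := E.eq_mk_of_is_sol_of_eq_init (shift_isSolution E v hvs k)
    (init := fun i => v (i + k)) (fun _ => rfl) n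
  rw [← this]
  show v (n + k) ≠ 0
  rw [hkn, hmul]
  exact one_ne_zero

theorem card_ker {F : Type*} [Field F] [Fintype F] {d : ℕ} (φ : (Fin d → F) →ₗ[F] F)
    (hφ : φ ≠ 0) : Nat.card (LinearMap.ker φ) = Fintype.card F ^ (d - 1) := by
  have h1 : Module.finrank F (LinearMap.ker φ) = d - 1 := by
    have h2 := φ.finrank_range_add_finrank_ker
    have h3 : LinearMap.range φ = ⊤ := by
      rw [LinearMap.range_eq_top]
      exact LinearMap.surjective_of_ne_zero hφ
    rw [h3, finrank_top, Module.finrank_self, Module.finrank_fin_fun] at h2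
    omega
  rw [Module.natCard_eq_pow_finrank (K := F), h1, Nat.card_eq_fintype_card]

theorem separable_mod (f : ℤ[X]) (hsep : (f.map (Int.castRingHom ℚ)).Separable) :
    ∃ k : ℤ, k ≠ 0 ∧ ∀ p : ℕ, p.Prime → ¬ (p : ℤ) ∣ k →
      (f.map (Int.castRingHom (ZMod p))).Separable := by
  obtain ⟨a, b, hab⟩ := hsep
  -- clear denominators
  have hint : ∀ q : ℚ[X], ∃ k : ℤ, k ≠ 0 ∧ ∃ q' : ℤ[X], q'.map (Int.castRingHom ℚ) = C (k : ℚ) * q := by
    intro q
    induction q using Polynomial.induction_on' with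
    | add p q hp hq =>
      obtain ⟨k1, h1, q1, e1⟩ := hp
      obtain ⟨k2, h2, q2, e2⟩ := hq
      refine ⟨k1 * k2, mul_ne_zero h1 h2, C k2 * q1 + C k1 * q2, ?_⟩
      have c1 : map (Int.castRingHom ℚ) (C k1) = C (k1 : ℚ) := by rw [map_C]; rfl
      have c2 : map (Int.castRingHom ℚ) (C k2) = C (k2 : ℚ) := by rw [map_C]; rfl
      have c3 : (C ((k1 * k2 : ℤ) : ℚ) : ℚ[X]) = C (k1 : ℚ) * C (k2 : ℚ) := by
        rw [← C_mul]; push_cast; rfl
      rw [Polynomial.map_add, Polynomial.map_mul, Polynomial.map_mul, e1, e2, c1, c2, c3]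
      ring
    | monomial n r =>
      refine ⟨r.den, by exact_mod_cast r.den_nz, monomial n r.num, ?_⟩
      rw [map_monomial, C_mul_monomial]
      congr 1
      have : ((r.den : ℚ) * r) = (r.num : ℚ) := by
        rw [mul_comm]; exact Rat.mul_den_eq_num r
      simpa using this.symm
  obtain ⟨k1, h1, a', e1⟩ := hint a
  obtain ⟨k2, h2, b', e2⟩ := hint b
  have hmain : C k2 * a' * f + C k1 * b' * derivative f = C (k1 * k2) := by
    apply Polynomial.map_injective (Int.castRingHom ℚ) (RingHom.injective_int _)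
    have c1 : map (Int.castRingHom ℚ) (C k1) = C (k1 : ℚ) := by rw [map_C]; rfl
    have c2 : map (Int.castRingHom ℚ) (C k2) = C (k2 : ℚ) := by rw [map_C]; rfl
    have c3 : map (Int.castRingHom ℚ) (C (k1 * k2)) = C (k1 : ℚ) * C (k2 : ℚ) := by
      rw [C_mul, Polynomial.map_mul, c1, c2]
    rw [Polynomial.map_add, Polynomial.map_mul, Polynomial.map_mul, Polynomial.map_mul,
      Polynomial.map_mul, e1, e2, ← derivative_map, c1, c2, c3]
    linear_combination (C (k1 : ℚ) * C (k2 : ℚ)) * hab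
  refine ⟨k1 * k2, mul_ne_zero h1 h2, ?_⟩
  intro p hp hpk
  have : Fact p.Prime := ⟨hp⟩
  have hk0 : ((k1 * k2 : ℤ) : ZMod p) ≠ 0 := by
    intro h
    exact hpk ((ZMod.intCast_zmod_eq_zero_iff_dvd _ _).mp h)
  have h3 := congrArg (Polynomial.map (Int.castRingHom (ZMod p))) hmain
  have c3 : map (Int.castRingHom (ZMod p)) (C (k1 * k2)) = C ((k1 * k2 : ℤ) : ZMod p) := by
    rw [map_C]; rfl
  rw [Polynomial.map_add, Polynomial.map_mul, Polynomial.map_mul, Polynomial.map_mul,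
      Polynomial.map_mul, ← derivative_map, c3] at h3
  generalize map (Int.castRingHom (ZMod p)) (C k2) = D2 at h3
  generalize map (Int.castRingHom (ZMod p)) (C k1) = D1 at h3
  refine ⟨C (((k1 * k2 : ℤ) : ZMod p)⁻¹) * (D2 * map (Int.castRingHom (ZMod p)) a'),
    C (((k1 * k2 : ℤ) : ZMod p)⁻¹) * (D1 * map (Int.castRingHom (ZMod p)) b'), ?_⟩
  have h4 : C (((k1 * k2 : ℤ) : ZMod p)⁻¹) * C ((k1 * k2 : ℤ) : ZMod p) = 1 := by
    rw [← C_mul, inv_mul_cancel₀ hk0, C_1]
  linear_combination (C (((k1 * k2 : ℤ) : ZMod p)⁻¹)) * h3 + h4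

theorem norm_sub_root (g : ℤ[X]) (hg : g.Monic) (c : ℤ) :
    Algebra.norm ℤ (algebraMap ℤ (AdjoinRoot g) c - AdjoinRoot.root g) = g.eval c := by
  classical
  set pb := AdjoinRoot.powerBasis' hg with hpb
  have hgen : pb.gen = AdjoinRoot.root g := AdjoinRoot.powerBasis'_gen hg
  have hmin : minpoly ℤ pb.gen = g := by
    rw [hgen]
    symm
    apply minpoly.unique' ℤ (AdjoinRoot.root g) hg
    · rw [AdjoinRoot.aeval_eq, AdjoinRoot.mk_self]
    · intro q hq
      by_cases h0 : q = 0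
      · left; exact h0
      · right
        rw [AdjoinRoot.aeval_eq]
        intro h
        rw [AdjoinRoot.mk_eq_zero] at h
        exact hg.not_dvd_of_degree_lt h0 hq h
  have hev : g.eval c = (Matrix.scalar _ c - Algebra.leftMulMatrix pb.basis pb.gen).det := by
    rw [← Matrix.eval_charpoly, charpoly_leftMulMatrix, hmin]
  rw [hev, Algebra.norm_eq_matrix_det pb.basis, ← hgen, map_sub]
  congr 2
  rw [Algebra.algebraMap_eq_smul_one, map_smul, map_one, Matrix.smul_one_eq_diagonal]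
  rfl

theorem mul_inv_root (g : ℤ[X]) (c : ℤ) (L : ℤ) (hL : g.eval c ∣ L) :
    ∃ η : AdjoinRoot g, (algebraMap ℤ (AdjoinRoot g) c - AdjoinRoot.root g) * η =
      algebraMap ℤ (AdjoinRoot g) L := by
  obtain ⟨w, hw⟩ := hL
  -- g = (X - c) h + g(c)
  obtain ⟨h, hh⟩ := Polynomial.X_sub_C_dvd_sub_C_eval (a := c) (p := g)
  have h1 : AdjoinRoot.mk g (g - C (g.eval c)) = AdjoinRoot.mk g ((X - C c) * h) := by rw [hh]
  rw [map_sub, AdjoinRoot.mk_self, zero_sub, map_mul, map_sub, AdjoinRoot.mk_X, AdjoinRoot.mk_C,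
    AdjoinRoot.mk_C] at h1
  refine ⟨AdjoinRoot.mk g h * algebraMap ℤ (AdjoinRoot g) w, ?_⟩
  rw [hw, map_mul]
  have h2 : algebraMap ℤ (AdjoinRoot g) = AdjoinRoot.of g := rfl
  rw [h2]
  linear_combination ((AdjoinRoot.of g) w) * h1

theorem binom_sum {R : Type*} [CommRing R] (n : ℕ) (y : ℕ → R) :
    ∑ i ∈ Finset.range (n + 2), (-1) ^ i * ((n + 1).choose i : R) * y i =
      (∑ i ∈ Finset.range (n + 1), (-1) ^ i * (n.choose i : R) * y i) -
      (∑ i ∈ Finset.range (n + 1), (-1) ^ i * (n.choose i : R) * y (i + 1)) := by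
  rw [Finset.sum_range_succ']
  have h1 : ∑ i ∈ Finset.range (n + 1), (-1) ^ (i + 1) * ((n + 1).choose (i + 1) : R) * y (i + 1)
      = (∑ i ∈ Finset.range (n + 1), (-1) ^ (i + 1) * (n.choose (i + 1) : R) * y (i + 1)) -
        ∑ i ∈ Finset.range (n + 1), (-1) ^ i * (n.choose i : R) * y (i + 1) := by
    rw [← Finset.sum_sub_distrib]
    apply Finset.sum_congr rfl
    intro i _
    rw [Nat.choose_succ_succ]
    push_cast
    ring
  rw [h1]
  have h2 : ∑ i ∈ Finset.range (n + 1), (-1) ^ i * (n.choose i : R) * y i =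
      ∑ i ∈ Finset.range (n + 1), (-1) ^ (i + 1) * (n.choose (i + 1) : R) * y (i + 1) + y 0 := by
    have h3 := Finset.sum_range_succ' (fun i => (-1) ^ i * (n.choose i : R) * y i) (n + 1)
    have h4 := Finset.sum_range_succ (fun i => (-1) ^ i * (n.choose i : R) * y i) (n + 1)
    rw [h3] at h4
    simp only [Nat.choose_succ_self, Nat.cast_zero, mul_zero, zero_mul, add_zero] at h4
    rw [← h4]
    simp
  rw [h2]
  simp
  ring

theorem partial_fraction {R : Type*} [CommRing R] (n : ℕ) : ∀ (x : R) (y : ℕ → R) (L : R),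
    (∀ i ≤ n, (x + i) * y i = L) →
    (∏ i ∈ Finset.range (n + 1), (x + i)) *
      (∑ i ∈ Finset.range (n + 1), (-1) ^ i * (n.choose i : R) * y i) = L * (n.factorial : R) := by
  induction n with
  | zero =>
    intro x y L h
    have := h 0 le_rfl
    simp at this
    simp [this]
  | succ n ih =>
    intro x y L h
    rw [binom_sum]
    have e1 := ih x y L (fun i hi => h i (by omega))
    have e2 := ih (x + 1) (fun i => y (i + 1)) L (fun i hi => by
      have := h (i + 1) (by omega)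
      push_cast at this
      rw [← this]; ring)
    have p1 : ∏ i ∈ Finset.range (n + 1 + 1), (x + (i : R)) =
        (∏ i ∈ Finset.range (n + 1), (x + (i : R))) * (x + (n + 1 : ℕ)) := by
      rw [Finset.prod_range_succ]
    have p2 : ∏ i ∈ Finset.range (n + 1 + 1), (x + (i : R)) =
        (∏ i ∈ Finset.range (n + 1), (x + 1 + (i : R))) * x := by
      rw [Finset.prod_range_succ']
      simp only [Nat.cast_zero, add_zero]
      congr 1
      apply Finset.prod_congr rfl
      intro i _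
      push_cast; ring
    rw [mul_sub]
    nth_rewrite 1 [p1]
    rw [p2, Nat.factorial_succ]
    push_cast
    linear_combination (x + ((n : R) + 1)) * e1 - x * e2

theorem prod_eval_dvd (g : ℤ[X]) (hg : g.Monic) (a : ℤ) (n : ℕ) (L : ℤ)
    (hL : ∀ i ≤ n, g.eval (a + i) ∣ L) :
    (∏ i ∈ Finset.range (n + 1), g.eval (a + i)) ∣ (L * n.factorial) ^ g.natDegree := by
  classical
  choose! y hy using fun (i : ℕ) (hi : i ≤ n) => mul_inv_root g (a + i) L (hL i hi)
  have h1 := partial_fraction n (algebraMap ℤ (AdjoinRoot g) a - AdjoinRoot.root g) y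
    (algebraMap ℤ (AdjoinRoot g) L) (by
      intro i hi
      rw [← hy i hi, map_add, map_natCast]
      ring)
  have h2 := congrArg (Algebra.norm ℤ) h1
  rw [map_mul, map_prod] at h2
  have h3 : ∀ i : ℕ, Algebra.norm ℤ ((algebraMap ℤ (AdjoinRoot g) a - AdjoinRoot.root g) + (i : AdjoinRoot g)) =
      g.eval (a + i) := by
    intro i
    have e : (algebraMap ℤ (AdjoinRoot g) a - AdjoinRoot.root g) + (i : AdjoinRoot g) =
        algebraMap ℤ (AdjoinRoot g) (a + i) - AdjoinRoot.root g := by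
      rw [map_add, map_natCast]; ring
    rw [e, norm_sub_root g hg]
  simp only [h3] at h2
  have h4 : algebraMap ℤ (AdjoinRoot g) L * (n.factorial : AdjoinRoot g) =
      algebraMap ℤ (AdjoinRoot g) (L * n.factorial) := by
    rw [map_mul, map_natCast]
  have hpb := Algebra.norm_algebraMap_of_basis (AdjoinRoot.powerBasis' hg).basis (L * n.factorial)
  rw [h4, hpb, Fintype.card_fin, AdjoinRoot.powerBasis'_dim] at h2
  exact ⟨_, h2.symm⟩

/-- Size of a monic polynomial. -/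
theorem size_bound (g : ℤ[X]) (hg : g.Monic) (hD : 0 < g.natDegree) :
    ∃ n0 : ℕ, 1 ≤ n0 ∧ ∀ t : ℕ, n0 ≤ t →
      (t : ℤ) ^ g.natDegree ≤ 2 * |g.eval (t : ℤ)| ∧ |g.eval (t : ℤ)| ≤ 2 * (t : ℤ) ^ g.natDegree := by
  set A : ℤ := ∑ i ∈ Finset.range g.natDegree, |g.coeff i| with hA
  have hA0 : 0 ≤ A := Finset.sum_nonneg fun i _ => abs_nonneg _
  refine ⟨2 * A.toNat + 1, by omega, ?_⟩
  intro t ht
  have ht' : 2 * A + 1 ≤ (t : ℤ) := by
    have : (A.toNat : ℤ) = A := Int.toNat_of_nonneg hA0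
    have h2 : ((2 * A.toNat + 1 : ℕ) : ℤ) ≤ (t : ℤ) := by exact_mod_cast ht
    push_cast at h2
    rw [this] at h2
    exact h2
  have ht1 : (1 : ℤ) ≤ t := by linarith
  have hev : g.eval (t : ℤ) = (t : ℤ) ^ g.natDegree +
      ∑ i ∈ Finset.range g.natDegree, g.coeff i * (t : ℤ) ^ i := by
    rw [eval_eq_sum_range, Finset.sum_range_succ, hg.coeff_natDegree, one_mul, add_comm]
  set r := ∑ i ∈ Finset.range g.natDegree, g.coeff i * (t : ℤ) ^ i with hr
  have hrb : |r| ≤ A * (t : ℤ) ^ (g.natDegree - 1) := by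
    calc |r| ≤ ∑ i ∈ Finset.range g.natDegree, |g.coeff i * (t : ℤ) ^ i| :=
          Finset.abs_sum_le_sum_abs _ _
      _ ≤ ∑ i ∈ Finset.range g.natDegree, |g.coeff i| * (t : ℤ) ^ (g.natDegree - 1) := by
          apply Finset.sum_le_sum
          intro i hi
          rw [abs_mul, abs_of_nonneg (pow_nonneg (by linarith : (0 : ℤ) ≤ t) i)]
          apply mul_le_mul_of_nonneg_left _ (abs_nonneg _)
          apply pow_le_pow_right₀ ht1
          rw [Finset.mem_range] at hi
          omega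
      _ = A * (t : ℤ) ^ (g.natDegree - 1) := by rw [← Finset.sum_mul]
  have hpow : (t : ℤ) ^ g.natDegree = t * (t : ℤ) ^ (g.natDegree - 1) := by
    rw [← pow_succ']; congr 1; omega
  have hP : 0 ≤ (t : ℤ) ^ (g.natDegree - 1) := pow_nonneg (by linarith) _
  have h2r : 2 * |r| ≤ (t : ℤ) ^ g.natDegree := by
    rw [hpow]
    nlinarith [hrb, mul_le_mul_of_nonneg_right (show 2 * A ≤ (t : ℤ) by linarith) hP]
  have hT : 0 ≤ (t : ℤ) ^ g.natDegree := pow_nonneg (by linarith) _
  rw [hev]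
  have hab := abs_le.mp (le_refl |r|)
  constructor
  · have : (t : ℤ) ^ g.natDegree + r ≤ |(t : ℤ) ^ g.natDegree + r| := le_abs_self _
    linarith [hab.1]
  · rw [abs_le]
    constructor
    · linarith [hab.1, abs_nonneg r]
    · linarith [hab.2, abs_nonneg r]

theorem many_primes_aux (g : ℤ[X]) (hg : g.Monic) (hD : 0 < g.natDegree) :
    ∃ n0 : ℕ, 1 ≤ n0 ∧ ∀ n : ℕ, n0 ≤ n → ∃ S : Finset ℕ,
      (∀ p ∈ S, p.Prime ∧ p ≤ 2 * (2 * n) ^ g.natDegree ∧ ∃ t : ℤ, (p : ℤ) ∣ g.eval t) ∧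
      2 ^ n ≤ 4 * (2 * (2 * n) ^ g.natDegree) ^ S.card := by
  classical
  obtain ⟨n0, hn0, hb⟩ := size_bound g hg hD
  refine ⟨n0, hn0, ?_⟩
  intro n hn
  set D := g.natDegree with hDdef
  set G := 2 * (2 * n) ^ D with hG
  let c : ℕ → ℕ := fun i => (g.eval ((n : ℤ) + i)).natAbs
  have hcpos : ∀ i, 0 < c i := by
    intro i
    have h1 := (hb (n + i) (by omega)).1
    push_cast at h1
    have hn1 : (0 : ℤ) < n := by exact_mod_cast (by omega : 0 < n)
    have h2 : 0 < ((n : ℤ) + i) ^ D := by positivity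
    have h3 : 0 < |g.eval ((n : ℤ) + i)| := by linarith
    exact Int.natAbs_pos.mpr (abs_pos.mp h3)
  have hcle : ∀ i ≤ n, c i ≤ G := by
    intro i hi
    have h1 := (hb (n + i) (by omega)).2
    push_cast at h1
    have h2 : ((n : ℤ) + i) ^ D ≤ (2 * n : ℤ) ^ D := by
      apply pow_le_pow_left₀ (by positivity)
      have : (i : ℤ) ≤ n := by exact_mod_cast hi
      linarith
    have h3 : ((c i : ℕ) : ℤ) ≤ (G : ℤ) := by
      show (((g.eval ((n : ℤ) + i)).natAbs : ℕ) : ℤ) ≤ _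
      rw [Int.natCast_natAbs, hG]
      push_cast
      linarith
    exact_mod_cast h3
  let Λ : ℕ := (Finset.range (n + 1)).lcm c
  have hΛ0 : Λ ≠ 0 := by
    intro h
    rw [Finset.lcm_eq_zero_iff] at h
    obtain ⟨i, _, hi⟩ := h
    exact (hcpos i).ne' hi
  let S : Finset ℕ := Λ.primeFactors
  have hprimeS : ∀ p ∈ S, ∃ i ≤ n, p ^ (Λ.factorization p) ∣ c i := by
    intro p hp
    have hpp := Nat.prime_of_mem_primeFactors hp
    -- some c i has the full power
    by_contra hcon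
    push Not at hcon
    have hlt : ∀ i ≤ n, (c i).factorization p < Λ.factorization p := by
      intro i hi
      by_contra hge
      push Not at hge
      exact hcon i hi ((hpp.pow_dvd_iff_le_factorization (hcpos i).ne').mpr hge)
    have hpos : 0 < Λ.factorization p := hpp.factorization_pos_of_dvd hΛ0 (Nat.dvd_of_mem_primeFactors hp)
    have hdiv : Λ ∣ Λ / p := by
      apply Finset.lcm_dvd
      intro i hi
      rw [Finset.mem_range] at hi
      have hci : c i ∣ Λ := Finset.dvd_lcm (Finset.mem_range.mpr hi)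
      rw [← Nat.factorization_le_iff_dvd (hcpos i).ne' (by
        have := Nat.div_pos (Nat.le_of_dvd (Nat.pos_of_ne_zero hΛ0) (Nat.dvd_of_mem_primeFactors hp)) hpp.pos
        omega)]
      intro q
      rw [Nat.factorization_div (Nat.dvd_of_mem_primeFactors hp), Finsupp.tsub_apply,
        hpp.factorization]
      have h1 := (Nat.factorization_le_iff_dvd (hcpos i).ne' hΛ0).mpr hci q
      by_cases hq : q = p
      · subst hq
        have := hlt i (by omega)
        simp
        omega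
      · rw [Finsupp.single_apply, if_neg (Ne.symm hq)]
        simpa using h1
    have h1 := Nat.le_of_dvd (Nat.div_pos (Nat.le_of_dvd (Nat.pos_of_ne_zero hΛ0) (Nat.dvd_of_mem_primeFactors hp)) hpp.pos) hdiv
    have h2 := Nat.div_lt_self (Nat.pos_of_ne_zero hΛ0) hpp.one_lt
    omega
  have hΛle : Λ ≤ G ^ S.card := by
    conv_lhs => rw [← Nat.prod_factorization_pow_eq_self hΛ0]
    rw [Finsupp.prod, Nat.support_factorization]
    calc ∏ p ∈ Λ.primeFactors, p ^ Λ.factorization p ≤ ∏ p ∈ Λ.primeFactors, G := by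
          apply Finset.prod_le_prod'
          intro p hp
          obtain ⟨i, hi, hd⟩ := hprimeS p hp
          exact le_trans (Nat.le_of_dvd (hcpos i) hd) (hcle i hi)
      _ = G ^ S.card := by rw [Finset.prod_const]
  refine ⟨S, ?_, ?_⟩
  · intro p hp
    have hpp := Nat.prime_of_mem_primeFactors hp
    obtain ⟨i, hi, hd⟩ := hprimeS p hp
    have hpos : Λ.factorization p ≠ 0 := (hpp.factorization_pos_of_dvd hΛ0 (Nat.dvd_of_mem_primeFactors hp)).ne'
    have hpd : p ∣ c i := dvd_trans (dvd_pow_self p hpos) hd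
    refine ⟨hpp, le_trans (Nat.le_of_dvd (hcpos i) hpd) (hcle i hi), (n : ℤ) + i, ?_⟩
    exact Int.natCast_dvd.mpr hpd
  · -- main inequality
    have h1 := prod_eval_dvd g hg n n (Λ : ℤ) (by
      intro i hi
      have : c i ∣ Λ := Finset.dvd_lcm (Finset.mem_range.mpr (by omega))
      exact Int.natAbs_dvd_natAbs.mp (by simpa using this))
    have h2 := Int.natAbs_dvd_natAbs.mpr h1
    rw [Int.natAbs_pow, Int.natAbs_mul, Int.natAbs_natCast, Int.natAbs_natCast,
      ← Int.natAbsHom_apply, map_prod] at h2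
    have h3 : ∏ i ∈ Finset.range (n + 1), c i ≤ (Λ * n.factorial) ^ D := by
      apply Nat.le_of_dvd (pow_pos (Nat.mul_pos (Nat.pos_of_ne_zero hΛ0) n.factorial_pos) _)
      exact h2
    have h4 : ∏ i ∈ Finset.range (n + 1), (n + i) ^ D ≤ 2 ^ (n + 1) * ∏ i ∈ Finset.range (n + 1), c i := by
      rw [← Finset.card_range (n + 1), ← Finset.prod_const, Finset.card_range, ← Finset.prod_mul_distrib]
      apply Finset.prod_le_prod'
      intro i _
      have h1 := (hb (n + i) (by omega)).1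
      have h5 : (((n + i) ^ D : ℕ) : ℤ) ≤ ((2 * c i : ℕ) : ℤ) := by
        show _ ≤ ((2 * (g.eval ((n : ℤ) + i)).natAbs : ℕ) : ℤ)
        rw [Nat.cast_mul, Int.natCast_natAbs]
        push_cast at h1 ⊢
        exact h1
      exact_mod_cast h5
    have h5 : ∏ i ∈ Finset.range (n + 1), (n + i) = n * (n.centralBinom * n.factorial) := by
      rw [Finset.prod_range_succ', mul_comm]
      simp only [add_zero]
      congr 1
      have e1 : ∏ i ∈ Finset.range n, (n + (i + 1)) = (n + 1).ascFactorial n := by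
        rw [Nat.ascFactorial_eq_prod_range]
        apply Finset.prod_congr rfl
        intro i _; ring
      rw [e1]
      have e2 := Nat.factorial_mul_ascFactorial n n
      have e3 := Nat.choose_mul_factorial_mul_factorial (show n ≤ 2 * n by omega)
      have e4 : 2 * n - n = n := by omega
      rw [e4] at e3
      have e5 : n + n = 2 * n := by ring
      rw [e5, ← e3] at e2
      have e6 : n.factorial * (n + 1).ascFactorial n = n.factorial * (n.centralBinom * n.factorial) := by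
        rw [e2, Nat.centralBinom]; ring
      exact Nat.eq_of_mul_eq_mul_left n.factorial_pos e6
    rw [Finset.prod_pow, h5] at h4
    have h6 : (n * n.centralBinom) ^ D ≤ (2 ^ (n + 1) * Λ) ^ D := by
      have h7 : (n * n.centralBinom) ^ D * n.factorial ^ D ≤ (2 ^ (n + 1) * Λ) ^ D * n.factorial ^ D := by
        calc (n * n.centralBinom) ^ D * n.factorial ^ D = (n * (n.centralBinom * n.factorial)) ^ D := by
              rw [← mul_pow, mul_assoc]
          _ ≤ 2 ^ (n + 1) * ∏ i ∈ Finset.range (n + 1), c i := h4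
          _ ≤ 2 ^ (n + 1) * (Λ * n.factorial) ^ D := Nat.mul_le_mul_left _ h3
          _ ≤ (2 ^ (n + 1)) ^ D * (Λ * n.factorial) ^ D := by
              apply Nat.mul_le_mul_right
              exact Nat.le_self_pow (by omega) _
          _ = (2 ^ (n + 1) * Λ) ^ D * n.factorial ^ D := by
              rw [mul_pow, mul_pow]; ring
      exact Nat.le_of_mul_le_mul_right h7 (pow_pos n.factorial_pos _)
    have h7 : n * n.centralBinom ≤ 2 ^ (n + 1) * Λ := (Nat.pow_le_pow_iff_left (by omega)).mp h6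
    have h8 := Nat.four_pow_le_two_mul_self_mul_centralBinom n (by omega)
    have h9 : 4 ^ n = 2 ^ n * 2 ^ n := by
      rw [← mul_pow]; norm_num
    have h10 : 2 ^ n * 2 ^ n ≤ 2 ^ n * (4 * Λ) := by
      calc 2 ^ n * 2 ^ n = 4 ^ n := h9.symm
        _ ≤ 2 * n * n.centralBinom := h8
        _ = 2 * (n * n.centralBinom) := by ring
        _ ≤ 2 * (2 ^ (n + 1) * Λ) := Nat.mul_le_mul_left _ h7
        _ = 2 ^ n * (4 * Λ) := by rw [pow_succ]; ring
    have h11 : 2 ^ n ≤ 4 * Λ := Nat.le_of_mul_le_mul_left h10 (by positivity)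
    exact le_trans h11 (Nat.mul_le_mul_left _ hΛle)

/-- each residue class is hit at least `L / m` times in an interval of length `L`. -/
theorem interval_count (m : ℕ) [NeZero m] (a : ℤ) (L : ℕ) (r : ZMod m) :
    L / m ≤ ((Finset.Ico a (a + L)).filter (fun y : ℤ => (y : ZMod m) = r)).card := by
  classical
  have hm : 0 < m := Nat.pos_of_ne_zero (NeZero.ne m)
  -- explicit injection
  set s : ℕ := ((r - (a : ZMod m)) : ZMod m).val with hs
  have hsm : s < m := ZMod.val_lt _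
  have hinj : ((Finset.range (L / m)).image (fun k : ℕ => a + (k * m + s : ℕ))) ⊆
      (Finset.Ico a (a + L)).filter (fun y : ℤ => (y : ZMod m) = r) := by
    intro y hy
    rw [Finset.mem_image] at hy
    obtain ⟨k, hk, rfl⟩ := hy
    rw [Finset.mem_range] at hk
    rw [Finset.mem_filter, Finset.mem_Ico]
    have h1 : k * m + s < L := by
      have h2 : (k + 1) * m ≤ L := by
        calc (k + 1) * m ≤ (L / m) * m := Nat.mul_le_mul_right _ hk
          _ ≤ L := Nat.div_mul_le_self L m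
      have h3 : (k + 1) * m = k * m + m := by ring
      omega
    refine ⟨⟨by omega, by omega⟩, ?_⟩
    push_cast
    rw [hs, ZMod.natCast_zmod_val]
    simp
  calc L / m = ((Finset.range (L / m)).image (fun k : ℕ => a + (k * m + s : ℕ))).card := by
        rw [Finset.card_image_of_injective, Finset.card_range]
        intro k1 k2 h
        have h2 : k1 * m + s = k2 * m + s := by
          have := add_left_cancel h
          exact_mod_cast this
        have h3 : k1 * m = k2 * m := by omega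
        exact Nat.eq_of_mul_eq_mul_right hm h3
    _ ≤ _ := Finset.card_le_card hinj

theorem interval_total (m : ℕ) [NeZero m] (a : ℤ) (L : ℕ) :
    ∑ r : ZMod m, ((Finset.Ico a (a + L)).filter (fun y : ℤ => (y : ZMod m) = r)).card = L := by
  rw [← Finset.card_eq_sum_card_fiberwise (f := fun y : ℤ => (y : ZMod m)) (t := Finset.univ)]
  · simp
  · intro x _; simp

/-- the box `[a, a+L)^d` -/
noncomputable def box (d : ℕ) (a : ℤ) (L : ℕ) : Finset (Fin d → ℤ) :=
  Fintype.piFinset fun _ => Finset.Ico a (a + L)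

theorem card_box (d : ℕ) (a : ℤ) (L : ℕ) : (box d a L).card = L ^ d := by
  simp [box]

theorem box_fiber (d m : ℕ) [NeZero m] (a : ℤ) (L : ℕ) (ρ : Fin d → ZMod m) :
    ((box d a L).filter (fun y => (fun i => (y i : ZMod m)) = ρ)).card =
      ∏ i, ((Finset.Ico a (a + L)).filter (fun y : ℤ => (y : ZMod m) = ρ i)).card := by
  classical
  rw [← Fintype.card_piFinset]
  congr 1
  ext y
  simp only [box, Finset.mem_filter, Fintype.mem_piFinset, funext_iff]
  constructor
  · rintro ⟨h1, h2⟩ i; exact ⟨h1 i, h2 i⟩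
  · intro h; exact ⟨fun i => (h i).1, fun i => (h i).2⟩

theorem pow_sub_pow_le (d : ℕ) (A L : ℝ) (hA : 0 ≤ A) (hAL : A ≤ L) :
    L ^ d - A ^ d ≤ d * (L - A) * L ^ (d - 1) := by
  induction d with
  | zero => simp
  | succ d ih =>
    have hL : 0 ≤ L := hA.trans hAL
    rcases Nat.eq_zero_or_pos d with h | h
    · subst h; simp
    · have e1 : L ^ (d + 1) - A ^ (d + 1) = L * (L ^ d - A ^ d) + (L - A) * A ^ d := by ring
      have e2 : A ^ d ≤ L ^ d := pow_le_pow_left₀ hA hAL d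
      have e3 : L * L ^ (d - 1) = L ^ d := by
        rw [← pow_succ']; congr 1; omega
      rw [e1]
      have e4 : L * (L ^ d - A ^ d) ≤ d * (L - A) * L ^ d := by
        calc L * (L ^ d - A ^ d) ≤ L * (d * (L - A) * L ^ (d - 1)) := mul_le_mul_of_nonneg_left ih hL
          _ = d * (L - A) * (L * L ^ (d - 1)) := by ring
          _ = _ := by rw [e3]
      have e5 : (L - A) * A ^ d ≤ (L - A) * L ^ d := mul_le_mul_of_nonneg_left e2 (by linarith)
      simp only [Nat.add_sub_cancel]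
      push_cast
      linarith

theorem box_sum_bound (d m : ℕ) [NeZero m] (a : ℤ) (L : ℕ) (h : (Fin d → ZMod m) → ℝ)
    (h1 : ∀ ρ, |h ρ| ≤ 1) (h0 : ∑ ρ, h ρ = 0) :
    |∑ y ∈ box d a L, h (fun i => (y i : ZMod m))| ≤ d * m * (L : ℝ) ^ (d - 1) := by
  classical
  have hm : 0 < m := Nat.pos_of_ne_zero (NeZero.ne m)
  set Nf : ZMod m → ℕ := fun r => ((Finset.Ico a (a + L)).filter (fun y : ℤ => (y : ZMod m) = r)).card with hNf
  have e1 : ∑ y ∈ box d a L, h (fun i => (y i : ZMod m)) = ∑ ρ, h ρ * (∏ i, (Nf (ρ i) : ℝ)) := by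
    rw [← Finset.sum_fiberwise_of_maps_to (s := box d a L) (t := Finset.univ)
      (g := fun y => (fun i => (y i : ZMod m))) (fun _ _ => Finset.mem_univ _)]
    apply Finset.sum_congr rfl
    intro ρ _
    rw [Finset.sum_congr rfl (g := fun _ => h ρ)]
    · rw [Finset.sum_const, box_fiber, nsmul_eq_mul, mul_comm]
      push_cast
      rfl
    · intro y hy
      rw [Finset.mem_filter] at hy
      rw [hy.2]
  set A : ℕ := L / m with hA
  have hlow : ∀ ρ : Fin d → ZMod m, (A : ℝ) ^ d ≤ ∏ i, (Nf (ρ i) : ℝ) := by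
    intro ρ
    have : (A : ℝ) ^ d = ∏ _i : Fin d, (A : ℝ) := by simp
    rw [this]
    apply Finset.prod_le_prod
    · intro i _; positivity
    · intro i _
      exact_mod_cast interval_count m a L (ρ i)
  have htot : ∑ ρ : Fin d → ZMod m, ∏ i, (Nf (ρ i) : ℝ) = (L : ℝ) ^ d := by
    have h2 := Finset.prod_univ_sum (fun _ : Fin d => (Finset.univ : Finset (ZMod m))) (fun _ r => (Nf r : ℝ))
    rw [Fintype.piFinset_univ] at h2
    rw [← h2]
    have h3 : ∑ r : ZMod m, (Nf r : ℝ) = L := by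
      exact_mod_cast interval_total m a L
    simp [h3]
  have hcard : (Fintype.card (Fin d → ZMod m) : ℝ) = (m : ℝ) ^ d := by
    simp [ZMod.card]
  calc |∑ y ∈ box d a L, h (fun i => (y i : ZMod m))|
      = |∑ ρ, h ρ * ((∏ i, (Nf (ρ i) : ℝ)) - (A : ℝ) ^ d)| := by
        rw [e1]
        congr 1
        simp only [mul_sub]
        rw [Finset.sum_sub_distrib, ← Finset.sum_mul, h0, zero_mul, sub_zero]
    _ ≤ ∑ ρ, |h ρ * ((∏ i, (Nf (ρ i) : ℝ)) - (A : ℝ) ^ d)| := Finset.abs_sum_le_sum_abs _ _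
    _ ≤ ∑ ρ : Fin d → ZMod m, ((∏ i, (Nf (ρ i) : ℝ)) - (A : ℝ) ^ d) := by
        apply Finset.sum_le_sum
        intro ρ _
        rw [abs_mul, abs_of_nonneg (sub_nonneg.mpr (hlow ρ))]
        calc |h ρ| * ((∏ i, (Nf (ρ i) : ℝ)) - (A : ℝ) ^ d) ≤ 1 * ((∏ i, (Nf (ρ i) : ℝ)) - (A : ℝ) ^ d) :=
              mul_le_mul_of_nonneg_right (h1 ρ) (sub_nonneg.mpr (hlow ρ))
          _ = _ := one_mul _
    _ = (L : ℝ) ^ d - ((m * A : ℕ) : ℝ) ^ d := by
        rw [Finset.sum_sub_distrib, htot, Finset.sum_const, Finset.card_univ, nsmul_eq_mul, hcard]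
        push_cast
        rw [mul_pow]
    _ ≤ d * ((L : ℝ) - ((m * A : ℕ) : ℝ)) * (L : ℝ) ^ (d - 1) := by
        apply pow_sub_pow_le _ _ _ (by positivity)
        exact_mod_cast Nat.mul_div_le L m
    _ ≤ d * m * (L : ℝ) ^ (d - 1) := by
        apply mul_le_mul_of_nonneg_right _ (by positivity)
        apply mul_le_mul_of_nonneg_left _ (by positivity)
        have h4 : L < m * A + m := by
          rw [hA]
          have := Nat.lt_mul_div_succ L hm
          rwa [Nat.mul_succ] at this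
        have h5 : (L : ℝ) < ((m * A : ℕ) : ℝ) + m := by exact_mod_cast h4
        linarith

theorem pair_sum_zero (d p q : ℕ) [NeZero p] [NeZero q] (hpq : p.Coprime q)
    (f : (Fin d → ZMod p) → ℝ) (g : (Fin d → ZMod q) → ℝ) (hf : ∑ ρ, f ρ = 0) :
    haveI : NeZero (p * q) := ⟨Nat.mul_ne_zero (NeZero.ne p) (NeZero.ne q)⟩
    ∑ ρ : Fin d → ZMod (p * q), f (fun i => ZMod.castHom (Nat.dvd_mul_right p q) (ZMod p) (ρ i)) *
      g (fun i => ZMod.castHom (Nat.dvd_mul_left q p) (ZMod q) (ρ i)) = 0 := by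
  haveI : NeZero (p * q) := ⟨Nat.mul_ne_zero (NeZero.ne p) (NeZero.ne q)⟩
  let e1 : ZMod (p * q) ≃+* ZMod p × ZMod q := ZMod.chineseRemainder hpq
  let e : (Fin d → ZMod (p * q)) ≃ (Fin d → ZMod p) × (Fin d → ZMod q) :=
    (Equiv.arrowCongr (Equiv.refl (Fin d)) e1.toEquiv).trans (Equiv.arrowProdEquivProdArrow (Fin d) (fun _ => ZMod p) (fun _ => ZMod q))
  have hc : ∀ z : ZMod (p * q), (e1 z).1 = ZMod.castHom (Nat.dvd_mul_right p q) (ZMod p) z := by
    intro z
    have := RingHom.congr_fun (RingHom.ext_zmod ((RingHom.fst (ZMod p) (ZMod q)).comp e1.toRingHom)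
      (ZMod.castHom (Nat.dvd_mul_right p q) (ZMod p))) z
    exact this
  have hc2 : ∀ z : ZMod (p * q), (e1 z).2 = ZMod.castHom (Nat.dvd_mul_left q p) (ZMod q) z := by
    intro z
    have := RingHom.congr_fun (RingHom.ext_zmod ((RingHom.snd (ZMod p) (ZMod q)).comp e1.toRingHom)
      (ZMod.castHom (Nat.dvd_mul_left q p) (ZMod q))) z
    exact this
  calc ∑ ρ : Fin d → ZMod (p * q), f (fun i => ZMod.castHom (Nat.dvd_mul_right p q) (ZMod p) (ρ i)) *
      g (fun i => ZMod.castHom (Nat.dvd_mul_left q p) (ZMod q) (ρ i))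
      = ∑ x : (Fin d → ZMod p) × (Fin d → ZMod q), f x.1 * g x.2 := by
        apply Fintype.sum_equiv e
        intro ρ
        congr 1
        · congr 1
          funext i
          exact (hc (ρ i)).symm
        · congr 1
          funext i
          exact (hc2 (ρ i)).symm
    _ = 0 := by
        rw [Fintype.sum_prod_type]
        simp only [← Finset.mul_sum, ← Finset.sum_mul]
        rw [hf, zero_mul]

theorem second_moment (d : ℕ) (S : Finset ℕ) (Q : ℕ) (hS : ∀ p ∈ S, p.Prime ∧ p ≤ Q)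
    (f : (p : ℕ) → (Fin d → ZMod p) → ℝ)
    (hf1 : ∀ p ∈ S, ∀ ρ, |f p ρ| ≤ 1)
    (hf0 : ∀ p ∈ S, ∀ [NeZero p], ∑ ρ, f p ρ = 0)
    (a : ℤ) (L : ℕ) :
    ∑ y ∈ box d a L, (∑ p ∈ S, f p (fun i => (y i : ZMod p))) ^ 2 ≤
      S.card * (L : ℝ) ^ d + (S.card : ℝ) ^ 2 * (d * Q ^ 2 * (L : ℝ) ^ (d - 1)) := by
  classical
  have e1 : ∑ y ∈ box d a L, (∑ p ∈ S, f p (fun i => (y i : ZMod p))) ^ 2 =
      ∑ p ∈ S, ∑ q ∈ S, ∑ y ∈ box d a L, f p (fun i => (y i : ZMod p)) * f q (fun i => (y i : ZMod q)) := by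
    simp only [sq, Finset.sum_mul_sum]
    rw [Finset.sum_comm]
    apply Finset.sum_congr rfl
    intro p _
    rw [Finset.sum_comm]
  rw [e1]
  have hterm : ∀ p ∈ S, ∀ q ∈ S, ∑ y ∈ box d a L, f p (fun i => (y i : ZMod p)) * f q (fun i => (y i : ZMod q)) ≤
      (if p = q then (L : ℝ) ^ d else 0) + (d * Q ^ 2 * (L : ℝ) ^ (d - 1)) := by
    intro p hp q hq
    have hnn : 0 ≤ (d * Q ^ 2 * (L : ℝ) ^ (d - 1)) := by positivity
    have hp0 : NeZero p := ⟨(hS p hp).1.ne_zero⟩
    have hq0 : NeZero q := ⟨(hS q hq).1.ne_zero⟩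
    by_cases hpq : p = q
    · subst hpq
      rw [if_pos rfl]
      have : ∑ y ∈ box d a L, f p (fun i => (y i : ZMod p)) * f p (fun i => (y i : ZMod p)) ≤
          ∑ y ∈ box d a L, (1 : ℝ) := by
        apply Finset.sum_le_sum
        intro y _
        have := hf1 p hp (fun i => (y i : ZMod p))
        rw [← sq, ← sq_abs]
        exact pow_le_one₀ (abs_nonneg _) this
      rw [Finset.sum_const, card_box, nsmul_eq_mul, mul_one] at this
      push_cast at this
      linarith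
    · rw [if_neg hpq, zero_add]
      have hcop : p.Coprime q := (Nat.coprime_primes (hS p hp).1 (hS q hq).1).mpr hpq
      haveI : NeZero (p * q) := ⟨Nat.mul_ne_zero (NeZero.ne p) (NeZero.ne q)⟩
      have h1 := box_sum_bound d (p * q) a L (fun ρ => f p (fun i => ZMod.castHom (Nat.dvd_mul_right p q) (ZMod p) (ρ i)) *
        f q (fun i => ZMod.castHom (Nat.dvd_mul_left q p) (ZMod q) (ρ i))) (by
          intro ρ
          rw [abs_mul]
          exact mul_le_one₀ (hf1 p hp _) (abs_nonneg _) (hf1 q hq _))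
        (pair_sum_zero d p q hcop (f p) (f q) (hf0 p hp))
      have h2 : ∀ y : Fin d → ℤ, f p (fun i => ZMod.castHom (Nat.dvd_mul_right p q) (ZMod p) ((y i : ℤ) : ZMod (p * q))) *
        f q (fun i => ZMod.castHom (Nat.dvd_mul_left q p) (ZMod q) ((y i : ℤ) : ZMod (p * q))) =
          f p (fun i => (y i : ZMod p)) * f q (fun i => (y i : ZMod q)) := by
        intro y
        simp only [map_intCast]
      simp only [h2] at h1
      refine le_trans (le_abs_self _) (le_trans h1 ?_)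
      apply mul_le_mul_of_nonneg_right _ (by positivity)
      apply mul_le_mul_of_nonneg_left _ (by positivity)
      have h3 : p * q ≤ Q ^ 2 := by
        rw [sq]; exact Nat.mul_le_mul (hS p hp).2 (hS q hq).2
      exact_mod_cast h3
  calc ∑ p ∈ S, ∑ q ∈ S, ∑ y ∈ box d a L, f p (fun i => (y i : ZMod p)) * f q (fun i => (y i : ZMod q))
      ≤ ∑ p ∈ S, ∑ q ∈ S, ((if p = q then (L : ℝ) ^ d else 0) + (d * Q ^ 2 * (L : ℝ) ^ (d - 1))) :=
        Finset.sum_le_sum fun p hp => Finset.sum_le_sum fun q hq => hterm p hp q hq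
    _ = S.card * (L : ℝ) ^ d + (S.card : ℝ) ^ 2 * (d * Q ^ 2 * (L : ℝ) ^ (d - 1)) := by
        simp only [Finset.sum_add_distrib, Finset.sum_ite_eq, Finset.sum_const, nsmul_eq_mul]
        rw [Finset.sum_congr rfl (g := fun _ => (L : ℝ) ^ d) (fun p hp => by rw [if_pos hp])]
        rw [Finset.sum_const, nsmul_eq_mul]
        ring

theorem poly_le_exp (D : ℕ) : ∃ k0 : ℕ, ∀ k : ℕ, k0 ≤ k → 8 * (2 * k ^ 2) ^ (2 * D) ≤ 2 ^ k := by
  have h := tendsto_pow_const_div_const_pow_of_one_lt (4 * D) (r := 2) (by norm_num)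
  have h2 : ∀ᶠ n : ℕ in Filter.atTop, ((n : ℝ) ^ (4 * D)) / 2 ^ n < 1 / (8 * 2 ^ (2 * D)) := by
    apply h.eventually_lt_const
    positivity
  obtain ⟨k0, hk0⟩ := Filter.eventually_atTop.mp h2
  refine ⟨k0, fun k hk => ?_⟩
  have h3 := hk0 k hk
  rw [div_lt_div_iff₀ (by positivity) (by positivity), one_mul] at h3
  have h4 : ((8 * (2 * k ^ 2) ^ (2 * D) : ℕ) : ℝ) = (k : ℝ) ^ (4 * D) * (8 * 2 ^ (2 * D)) := by
    push_cast
    rw [mul_pow, ← pow_mul]
    ring_nf
  have h5 : ((8 * (2 * k ^ 2) ^ (2 * D) : ℕ) : ℝ) ≤ ((2 ^ k : ℕ) : ℝ) := by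
    rw [h4]; push_cast; exact h3.le
  exact_mod_cast h5

theorem many_good_primes (F : ℤ[X]) (hF : F.Monic) (K : ℤ) (hK : K ≠ 0) :
    ∃ D : ℕ, 1 ≤ D ∧ ∃ k0 : ℕ, ∀ k : ℕ, k0 ≤ k → ∃ S : Finset ℕ, k ≤ S.card ∧
      ∀ p ∈ S, p.Prime ∧ p ≤ 2 * (2 * k ^ 2) ^ D ∧ ¬ (p : ℤ) ∣ K ∧
        (F.map (Int.castRingHom (ZMod p))).Splits := by
  classical
  obtain ⟨g, hg, hD, k1, hk1, hspl⟩ := exists_splitting_poly F hF
  obtain ⟨n0, hn0, hmany⟩ := many_primes_aux g hg hD
  obtain ⟨k2, hk2⟩ := poly_le_exp g.natDegree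
  set c0 := (K * k1).natAbs.primeFactors.card with hc0
  refine ⟨g.natDegree, hD, max (max n0 k2) (c0 + 5), ?_⟩
  intro k hk
  have hkn : n0 ≤ k := le_trans (le_trans (le_max_left _ _) (le_max_left _ _)) hk
  have hkk : k2 ≤ k := le_trans (le_trans (le_max_right _ _) (le_max_left _ _)) hk
  have hkc : c0 + 5 ≤ k := le_trans (le_max_right _ _) hk
  have hkpos : 1 ≤ k := by omega
  obtain ⟨S', hS', hcard⟩ := hmany (k ^ 2) (le_trans hkn (Nat.le_self_pow (by norm_num) k))
  set D := g.natDegree with hDd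
  set G := 2 * (2 * k ^ 2) ^ D with hG
  refine ⟨S'.filter (fun p : ℕ => ¬ (p : ℤ) ∣ K * k1), ?_, ?_⟩
  · by_contra hlt
    push Not at hlt
    have h1 : S'.card ≤ (S'.filter (fun p : ℕ => ¬ (p : ℤ) ∣ K * k1)).card + c0 := by
      have h2 := Finset.card_filter_add_card_filter_not (s := S') (fun p : ℕ => ¬ (p : ℤ) ∣ K * k1)
      have h3 : (S'.filter (fun p : ℕ => ¬ ¬ (p : ℤ) ∣ K * k1)).card ≤ c0 := by
        apply Finset.card_le_card
        intro p hp
        rw [Finset.mem_filter, not_not] at hp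
        rw [Nat.mem_primeFactors]
        exact ⟨(hS' p hp.1).1, Int.natCast_dvd.mp hp.2, by
          rw [Int.natAbs_ne_zero]; exact mul_ne_zero hK hk1⟩
      omega
    have h2 : S'.card ≤ k + c0 := by omega
    have hG1 : 1 ≤ G := by
      have : 0 < (2 * k ^ 2) ^ D := by positivity
      omega
    have h3 : 2 ^ (k ^ 2) ≤ 4 * G ^ (k + c0) :=
      le_trans hcard (Nat.mul_le_mul_left _ (Nat.pow_le_pow_right hG1 h2))
    have h4 : 2 * G ^ 2 ≤ 2 ^ k := by
      have := hk2 k hkk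
      calc 2 * G ^ 2 = 8 * (2 * k ^ 2) ^ (2 * D) := by
            rw [hG, mul_pow, ← pow_mul, mul_comm D 2]; ring
        _ ≤ 2 ^ k := this
    have h5 : G ^ 2 ≤ 2 ^ (k - 1) := by
      have : 2 ^ k = 2 * 2 ^ (k - 1) := by
        rw [← pow_succ']; congr 1; omega
      rw [this] at h4
      exact Nat.le_of_mul_le_mul_left h4 (by norm_num)
    have h6 : 2 ^ (2 * k ^ 2) ≤ 2 ^ (4 + (k - 1) * (k + c0)) := by
      calc 2 ^ (2 * k ^ 2) = (2 ^ (k ^ 2)) ^ 2 := by rw [← pow_mul, mul_comm]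
        _ ≤ (4 * G ^ (k + c0)) ^ 2 := Nat.pow_le_pow_left h3 2
        _ = 16 * (G ^ 2) ^ (k + c0) := by rw [mul_pow, ← pow_mul, ← pow_mul, mul_comm 2 (k + c0)]; norm_num
        _ ≤ 16 * (2 ^ (k - 1)) ^ (k + c0) := Nat.mul_le_mul_left _ (Nat.pow_le_pow_left h5 _)
        _ = 2 ^ (4 + (k - 1) * (k + c0)) := by rw [← pow_mul, pow_add]; norm_num
    have h7 : 2 * k ^ 2 ≤ 4 + (k - 1) * (k + c0) := (Nat.pow_le_pow_iff_right (by norm_num)).mp h6
    have h8 : (k - 1) * (k + c0) ≤ k * (k + c0) := Nat.mul_le_mul_right _ (Nat.sub_le _ _)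
    have h9 : k * (c0 + 5) ≤ k * k := Nat.mul_le_mul_left _ hkc
    nlinarith
  · intro p hp
    rw [Finset.mem_filter] at hp
    obtain ⟨hp1, hp2, hp3⟩ := hS' p hp.1
    refine ⟨hp1, hp2, fun h => hp.2 (Dvd.dvd.mul_right h _), ?_⟩
    exact hspl p hp1 (fun h => hp.2 (Dvd.dvd.mul_left h _)) hp3

theorem card_fiber {F : Type*} [Field F] [Fintype F] {d : ℕ} (φ : (Fin d → F) →ₗ[F] F)
    (hφ : φ ≠ 0) (t : F) : Set.ncard {x | φ x = t} = Fintype.card F ^ (d - 1) := by
  obtain ⟨x0, hx0⟩ := LinearMap.surjective_of_ne_zero hφ t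
  have : {x | φ x = t} = (fun y => x0 + y) '' (LinearMap.ker φ : Set (Fin d → F)) := by
    ext x
    simp only [Set.mem_ofPred_eq, Set.mem_image, SetLike.mem_coe, LinearMap.mem_ker]
    constructor
    · intro h
      exact ⟨x - x0, by rw [map_sub, h, hx0, sub_self], by abel⟩
    · rintro ⟨y, hy, rfl⟩
      rw [map_add, hy, add_zero, hx0]
  rw [this, Set.ncard_image_of_injective _ (add_right_injective x0)]
  exact card_ker φ hφ

theorem count_bad {F : Type*} [Field F] [Fintype F] [DecidableEq F] (E : LinearRecurrence F)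
    (hd : 0 < E.order) (N : ℕ) (hN : 0 < N)
    (hper : ∀ u : ℕ → F, E.IsSolution u → ∀ n, u (n + N) = u n)
    (w : ℕ → F) (hw : ∀ n, w (n + N) = w n) :
    Set.ncard {x : Fin E.order → F | ∃ n, E.mkSol x n = w n} ≤
      N * Fintype.card F ^ (E.order - 1) := by
  classical
  choose φ hφ using mkSol_linear E
  have hmod : ∀ (u : ℕ → F) (_ : ∀ n, u (n + N) = u n) (n : ℕ), u n = u (n % N) := by
    intro u hu n
    conv_lhs => rw [← Nat.mod_add_div n N]
    generalize n / N = j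
    induction j with
    | zero => simp
    | succ j ih =>
      rw [Nat.mul_succ, ← add_assoc, hu, ih]
  have hsub : {x : Fin E.order → F | ∃ n, E.mkSol x n = w n} ⊆
      ↑((Finset.range N).biUnion fun n => (Set.toFinite {x | φ n x = w n}).toFinset) := by
    intro x hx
    obtain ⟨n, hn⟩ := hx
    rw [Finset.mem_coe, Finset.mem_biUnion]
    refine ⟨n % N, Finset.mem_range.mpr (Nat.mod_lt _ hN), ?_⟩
    rw [Set.Finite.mem_toFinset, Set.mem_ofPred_eq, hφ, ← hmod _ (hper _ (E.is_sol_mkSol x)),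
      ← hmod w hw]
    exact hn
  calc Set.ncard {x : Fin E.order → F | ∃ n, E.mkSol x n = w n}
      ≤ _ := Set.ncard_le_ncard hsub (Finset.finite_toSet _)
    _ = _ := Set.ncard_coe_finset _
    _ ≤ ∑ n ∈ Finset.range N, (Set.toFinite {x | φ n x = w n}).toFinset.card := Finset.card_biUnion_le
    _ = ∑ n ∈ Finset.range N, Fintype.card F ^ (E.order - 1) := by
        apply Finset.sum_congr rfl
        intro n _
        rw [← Set.ncard_eq_toFinset_card]
        apply card_fiber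
        intro h0
        obtain ⟨x, hx⟩ := exists_mkSol_ne_zero E hd N hN hper n
        apply hx
        rw [← hφ, h0]; rfl
    _ = N * Fintype.card F ^ (E.order - 1) := by
        rw [Finset.sum_const, Finset.card_range, smul_eq_mul]

/-- The reduction of an integer recurrence modulo `p`. -/
def red (E : LinearRecurrence ℤ) (p : ℕ) : LinearRecurrence (ZMod p) :=
  ⟨E.order, fun i => (E.coeffs i : ZMod p)⟩

theorem red_charPoly (E : LinearRecurrence ℤ) (p : ℕ) :
    (red E p).charPoly = E.charPoly.map (Int.castRingHom (ZMod p)) := by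
  simp [LinearRecurrence.charPoly, red, Polynomial.map_sum]
  rfl

theorem red_sol (E : LinearRecurrence ℤ) (p : ℕ) (u : ℕ → ℤ) (hu : E.IsSolution u) :
    (red E p).IsSolution (fun n => (u n : ZMod p)) := by
  intro n
  have := hu n
  show ((u (n + E.order) : ℤ) : ZMod p) = _
  rw [this]
  push_cast
  rfl

theorem red_mkSol (E : LinearRecurrence ℤ) (p : ℕ) (x : Fin E.order → ℤ) (n : ℕ) :
    ((E.mkSol x n : ℤ) : ZMod p) = (red E p).mkSol (fun i => (x i : ZMod p)) n := by
  have h := (red E p).eq_mk_of_is_sol_of_eq_init (red_sol E p _ (E.is_sol_mkSol x)) (init := fun i => (x i : ZMod p)) (by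
    intro i
    show ((E.mkSol x i : ℤ) : ZMod p) = (x i : ZMod p)
    rw [E.mkSol_eq_init x i]) n
  exact h

theorem coeff_zero_charPoly (E : LinearRecurrence ℤ) (hd : 0 < E.order) :
    E.charPoly.coeff 0 = - E.coeffs ⟨0, hd⟩ := by
  rw [LinearRecurrence.charPoly, coeff_sub, finsetSum_coeff, coeff_monomial,
    if_neg hd.ne', zero_sub, neg_inj]
  rw [Finset.sum_eq_single (⟨0, hd⟩ : Fin E.order)]
  · simp
  · intro b _ hb
    rw [coeff_monomial, if_neg]
    intro h
    exact hb (Fin.ext h)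
  · intro h; exact absurd (Finset.mem_univ _) h

/-- solutions modulo a good prime have period `(p-1)/2`. -/
theorem period_good (E : LinearRecurrence ℤ) (hd : 0 < E.order) (p : ℕ) [Fact p.Prime]
    (h0 : ¬ (p : ℤ) ∣ E.coeffs ⟨0, hd⟩)
    (hsep : (E.charPoly.map (Int.castRingHom (ZMod p))).Separable)
    (hs : ((expand ℤ 2 E.charPoly).map (Int.castRingHom (ZMod p))).Splits)
    (N : ℕ) (hN : 2 * N = p - 1) (hN0 : 0 < N) (u : ℕ → ZMod p) (hu : (red E p).IsSolution u)
    (n : ℕ) : u (n + N) = u n := by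
  have hmonp : (red E p).charPoly.Monic := (red E p).charPoly_monic
  have hc : (red E p).charPoly.coeff 0 ≠ 0 := by
    rw [red_charPoly, coeff_map, coeff_zero_charPoly E hd, map_neg, neg_ne_zero]
    intro h
    exact h0 ((ZMod.intCast_zmod_eq_zero_iff_dvd _ _).mp h)
  rw [← red_charPoly] at hsep
  rw [map_expand, ← red_charPoly] at hs
  have hdvd := dvd_of_expand (red E p).charPoly hmonp.ne_zero hc hsep 2 N (by norm_num)
    (by rw [ZMod.card p]; exact hN) hN0 hs
  exact periodic_of_dvd _ N hdvd u hu n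

theorem local_count (E G : LinearRecurrence ℤ) (hE : 0 < E.order) (hG : 0 < G.order)
    (v : ℕ → ℤ) (hv : G.IsSolution v) (p : ℕ) (hp : p.Prime) (hp2 : 2 < p)
    (hE0 : ¬ (p : ℤ) ∣ E.coeffs ⟨0, hE⟩) (hG0 : ¬ (p : ℤ) ∣ G.coeffs ⟨0, hG⟩)
    (hEs : (E.charPoly.map (Int.castRingHom (ZMod p))).Separable)
    (hGs : (G.charPoly.map (Int.castRingHom (ZMod p))).Separable)
    (hE2 : ((expand ℤ 2 E.charPoly).map (Int.castRingHom (ZMod p))).Splits)
    (hG2 : ((expand ℤ 2 G.charPoly).map (Int.castRingHom (ZMod p))).Splits) :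
    2 * Set.ncard {x : Fin E.order → ZMod p | ∃ n, (red E p).mkSol x n = (v n : ZMod p)} ≤
      p ^ E.order := by
  have : Fact p.Prime := ⟨hp⟩
  obtain ⟨N, hN⟩ : ∃ N, 2 * N = p - 1 := by
    have := hp.eq_two_or_odd
    exact ⟨(p - 1) / 2, by omega⟩
  have hN0 : 0 < N := by omega
  have hcount := count_bad (red E p) hE N hN0
    (fun u hu n => period_good E hE p hE0 hEs hE2 N hN hN0 u hu n)
    (fun n => (v n : ZMod p))
    (fun n => period_good G hG p hG0 hGs hG2 N hN hN0 _ (red_sol G p v hv) n)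
  rw [ZMod.card p] at hcount
  change _ ≤ N * p ^ (E.order - 1) at hcount
  calc 2 * Set.ncard {x : Fin E.order → ZMod p | ∃ n, (red E p).mkSol x n = (v n : ZMod p)}
      ≤ 2 * (N * p ^ (E.order - 1)) := Nat.mul_le_mul_left 2 hcount
    _ = (p - 1) * p ^ (E.order - 1) := by rw [← mul_assoc, ← hN]
    _ ≤ p * p ^ (E.order - 1) := Nat.mul_le_mul_right _ (Nat.sub_le p 1)
    _ = p ^ E.order := by
        rw [← pow_succ']
        congr 1
        omega

theorem alg1 (w s : ℝ) (hs : 0 < s) : w = w * (s / 2) ^ 2 * (4 / s ^ 2) := by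
  field_simp
  norm_num

theorem alg2 (s A B : ℝ) (hs : 0 < s) : (s * A + s ^ 2 * B) * (4 / s ^ 2) = 4 * (A / s + B) := by
  field_simp

/-- The counting step: few points are bad at every prime of `S`. -/
theorem count_step (E : LinearRecurrence ℤ) (v : ℕ → ℤ) (S : Finset ℕ) (Q : ℕ)
    (hS : ∀ p ∈ S, p.Prime ∧ p ≤ Q) (hS0 : 0 < S.card)
    (hloc : ∀ p ∈ S, 2 * Set.ncard {x : Fin E.order → ZMod p | ∃ n, (red E p).mkSol x n = (v n : ZMod p)} ≤
      p ^ E.order) (a : ℤ) (L : ℕ) :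
    (Set.ncard {x : Fin E.order → ℤ | x ∈ box E.order a L ∧
      ∀ p ∈ S, ∃ n, (p : ℤ) ∣ E.mkSol x n - v n} : ℝ) ≤
      4 * ((L : ℝ) ^ E.order / S.card + E.order * Q ^ 2 * (L : ℝ) ^ (E.order - 1)) := by
  classical
  set d := E.order with hd
  let B : (p : ℕ) → Set (Fin d → ZMod p) := fun p => {x | ∃ n, (red E p).mkSol x n = (v n : ZMod p)}
  let b : ℕ → ℝ := fun p => (Set.ncard (B p) : ℝ) / (p : ℝ) ^ d
  let f : (p : ℕ) → (Fin d → ZMod p) → ℝ := fun p ρ => (if ρ ∈ B p then 1 else 0) - b p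
  have hb0 : ∀ p, 0 ≤ b p := fun p => by positivity
  have hb1 : ∀ p ∈ S, b p ≤ 1 / 2 := by
    intro p hp
    have hpp := (hS p hp).1.pos
    rw [div_le_div_iff₀ (by positivity) (by norm_num)]
    have := hloc p hp
    have h2 : ((2 * Set.ncard (B p) : ℕ) : ℝ) ≤ ((p ^ d : ℕ) : ℝ) := by exact_mod_cast this
    push_cast at h2
    linarith
  have hf1 : ∀ p ∈ S, ∀ ρ, |f p ρ| ≤ 1 := by
    intro p hp ρ
    have h1 := hb1 p hp
    have h0 := hb0 p
    simp only [f]
    rw [abs_le]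
    split_ifs <;> constructor <;> linarith
  have hf0 : ∀ p ∈ S, ∀ [NeZero p], ∑ ρ, f p ρ = 0 := by
    intro p hp hp0
    simp only [f]
    rw [Finset.sum_sub_distrib, Finset.sum_const, Finset.card_univ, nsmul_eq_mul]
    have h1 : ∑ ρ : Fin d → ZMod p, (if ρ ∈ B p then (1 : ℝ) else 0) = Set.ncard (B p) := by
      rw [← Finset.sum_filter, Finset.sum_const, nsmul_eq_mul, mul_one]
      rw [Set.ncard_eq_toFinset_card']
      congr 2
      ext ρ; simp
    rw [h1]
    have h2 : (Fintype.card (Fin d → ZMod p) : ℝ) = (p : ℝ) ^ d := by simp [ZMod.card]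
    rw [h2]
    have h3 : (p : ℝ) ^ d ≠ 0 := by
      have := (hS p hp).1.pos
      positivity
    simp only [b]
    field_simp
    ring
  have hsm := second_moment d S Q hS f hf1 hf0 a L
  set Z : Set (Fin d → ℤ) := {x : Fin d → ℤ | x ∈ box d a L ∧ ∀ p ∈ S, ∃ n, (p : ℤ) ∣ E.mkSol x n - v n} with hZ
  have hZf : Z ⊆ ↑((box d a L).filter (fun x => ∀ p ∈ S, (fun i => (x i : ZMod p)) ∈ B p)) := by
    intro x hx
    rw [Finset.mem_coe, Finset.mem_filter]
    refine ⟨hx.1, ?_⟩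
    intro p hp
    obtain ⟨n, hn⟩ := hx.2 p hp
    refine ⟨n, ?_⟩
    have h1 := (ZMod.intCast_zmod_eq_zero_iff_dvd _ p).mpr hn
    rw [Int.cast_sub, sub_eq_zero] at h1
    rw [← h1]
    exact (red_mkSol E p x n).symm
  set W := (box d a L).filter (fun x => ∀ p ∈ S, (fun i => (x i : ZMod p)) ∈ B p) with hW
  have hZW : (Set.ncard Z : ℝ) ≤ W.card := by
    have := Set.ncard_le_ncard hZf (Finset.finite_toSet _)
    rw [Set.ncard_coe_finset] at this
    exact_mod_cast this
  have hs : (0 : ℝ) < S.card := by exact_mod_cast hS0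
  have hlow : (W.card : ℝ) * ((S.card : ℝ) / 2) ^ 2 ≤
      ∑ y ∈ box d a L, (∑ p ∈ S, f p (fun i => (y i : ZMod p))) ^ 2 := by
    calc (W.card : ℝ) * ((S.card : ℝ) / 2) ^ 2 = ∑ y ∈ W, ((S.card : ℝ) / 2) ^ 2 := by
          rw [Finset.sum_const, nsmul_eq_mul]
      _ ≤ ∑ y ∈ W, (∑ p ∈ S, f p (fun i => (y i : ZMod p))) ^ 2 := by
          apply Finset.sum_le_sum
          intro y hy
          rw [hW, Finset.mem_filter] at hy
          apply pow_le_pow_left₀ (by positivity)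
          calc (S.card : ℝ) / 2 = ∑ p ∈ S, (1 / 2 : ℝ) := by
                rw [Finset.sum_const, nsmul_eq_mul]; ring
            _ ≤ ∑ p ∈ S, f p (fun i => (y i : ZMod p)) := by
                apply Finset.sum_le_sum
                intro p hp
                have h1 := hb1 p hp
                have h2 : f p (fun i => (y i : ZMod p)) = 1 - b p := by
                  simp only [f]
                  rw [if_pos (hy.2 p hp)]
                rw [h2]; linarith
      _ ≤ _ := by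
          apply Finset.sum_le_sum_of_subset_of_nonneg (Finset.filter_subset _ _)
          intro _ _ _; positivity
  have hfin : (W.card : ℝ) * ((S.card : ℝ) / 2) ^ 2 ≤
      S.card * (L : ℝ) ^ d + (S.card : ℝ) ^ 2 * (d * Q ^ 2 * (L : ℝ) ^ (d - 1)) := hlow.trans hsm
  refine hZW.trans ?_
  have h1 := alg1 (W.card : ℝ) (S.card : ℝ) hs
  rw [h1]
  calc (W.card : ℝ) * ((S.card : ℝ) / 2) ^ 2 * (4 / (S.card : ℝ) ^ 2)
      ≤ (S.card * (L : ℝ) ^ d + (S.card : ℝ) ^ 2 * (d * Q ^ 2 * (L : ℝ) ^ (d - 1))) * (4 / (S.card : ℝ) ^ 2) :=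
        mul_le_mul_of_nonneg_right hfin (div_nonneg (by norm_num) (sq_nonneg _))
    _ = 4 * ((L : ℝ) ^ d / S.card + d * Q ^ 2 * (L : ℝ) ^ (d - 1)) := alg2 _ _ _ hs

theorem good_sets (E G : LinearRecurrence ℤ) (hE : 0 < E.order) (hG : 0 < G.order)
    (hE0 : E.coeffs ⟨0, hE⟩ ≠ 0) (hG0 : G.coeffs ⟨0, hG⟩ ≠ 0)
    (hEs : (E.charPoly.map (Int.castRingHom ℚ)).Separable)
    (hGs : (G.charPoly.map (Int.castRingHom ℚ)).Separable)
    (v : ℕ → ℤ) (hv : G.IsSolution v) :
    ∃ D : ℕ, 1 ≤ D ∧ ∃ k0 : ℕ, ∀ k : ℕ, k0 ≤ k → ∃ S : Finset ℕ, k ≤ S.card ∧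
      ∀ p ∈ S, p.Prime ∧ p ≤ 2 * (2 * k ^ 2) ^ D ∧
        2 * Set.ncard {x : Fin E.order → ZMod p | ∃ n, (red E p).mkSol x n = (v n : ZMod p)} ≤
          p ^ E.order := by
  obtain ⟨k1, hk1, h1⟩ := separable_mod _ hEs
  obtain ⟨k2, hk2, h2⟩ := separable_mod _ hGs
  have hF : (expand ℤ 2 E.charPoly * expand ℤ 2 G.charPoly : ℤ[X]).Monic :=
    (E.charPoly_monic.expand (by norm_num)).mul (G.charPoly_monic.expand (by norm_num))
  have hK : (2 * (k1 * k2) * (E.coeffs ⟨0, hE⟩ * G.coeffs ⟨0, hG⟩) : ℤ) ≠ 0 := by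
    refine mul_ne_zero (mul_ne_zero (by norm_num) (mul_ne_zero hk1 hk2)) (mul_ne_zero hE0 hG0)
  obtain ⟨D, hD, k0, hk⟩ := many_good_primes _ hF _ hK
  refine ⟨D, hD, k0, fun k hkk => ?_⟩
  obtain ⟨S, hS, hp⟩ := hk k hkk
  refine ⟨S, hS, fun p hpS => ?_⟩
  obtain ⟨hpp, hpQ, hpK, hspl⟩ := hp p hpS
  refine ⟨hpp, hpQ, ?_⟩
  have hfact : Fact p.Prime := ⟨hpp⟩
  have d2 : ¬ (p : ℤ) ∣ 2 := fun h => hpK (Dvd.dvd.mul_right (Dvd.dvd.mul_right h _) _)
  have dk1 : ¬ (p : ℤ) ∣ k1 := fun h => hpK (Dvd.dvd.mul_right (Dvd.dvd.mul_left (Dvd.dvd.mul_right h _) _) _)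
  have dk2 : ¬ (p : ℤ) ∣ k2 := fun h => hpK (Dvd.dvd.mul_right (Dvd.dvd.mul_left (Dvd.dvd.mul_left h _) _) _)
  have dE : ¬ (p : ℤ) ∣ E.coeffs ⟨0, hE⟩ := fun h => hpK (Dvd.dvd.mul_left (Dvd.dvd.mul_right h _) _)
  have dG : ¬ (p : ℤ) ∣ G.coeffs ⟨0, hG⟩ := fun h => hpK (Dvd.dvd.mul_left (Dvd.dvd.mul_left h _) _)
  have hp2 : 2 < p := by
    rcases hpp.eq_two_or_odd with h | h
    · exfalso; apply d2; rw [h]; norm_num
    · have := hpp.two_le
      omega
  rw [Polynomial.map_mul] at hspl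
  have hneE : (expand ℤ 2 E.charPoly).map (Int.castRingHom (ZMod p)) ≠ 0 :=
    ((E.charPoly_monic.expand (by norm_num)).map _).ne_zero
  have hneG : (expand ℤ 2 G.charPoly).map (Int.castRingHom (ZMod p)) ≠ 0 :=
    ((G.charPoly_monic.expand (by norm_num)).map _).ne_zero
  exact local_count E G hE hG v hv p hpp hp2 dE dG (h1 p hpp dk1) (h2 p hpp dk2)
    (hspl.of_dvd (mul_ne_zero hneE hneG) (dvd_mul_right _ _))
    (hspl.of_dvd (mul_ne_zero hneE hneG) (dvd_mul_left _ _))

/-- **Main theorem.** -/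
theorem generic (E G : LinearRecurrence ℤ) (hE : 0 < E.order) (hG : 0 < G.order)
    (hE0 : E.coeffs ⟨0, hE⟩ ≠ 0) (hG0 : G.coeffs ⟨0, hG⟩ ≠ 0)
    (hEs : (E.charPoly.map (Int.castRingHom ℚ)).Separable)
    (hGs : (G.charPoly.map (Int.castRingHom ℚ)).Separable)
    (v : ℕ → ℤ) (hv : G.IsSolution v) :
    ∃ δ : ℝ, 0 < δ ∧ ∃ C : ℝ, ∀ H : ℕ, 1 ≤ H →
      (Set.ncard {x : Fin E.order → ℤ | (∀ i, |x i| ≤ (H : ℤ)) ∧
        ¬ ∃ p : ℕ, p.Prime ∧ p ≤ H ∧ ∀ n, ¬ (p : ℤ) ∣ E.mkSol x n - v n} : ℝ) ≤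
        C * (H : ℝ) ^ ((E.order : ℝ) - δ) := by
  classical
  obtain ⟨D, hD, k0, hgood⟩ := good_sets E G hE hG hE0 hG0 hEs hGs v hv
  set d := E.order with hd
  have hD0 : (0 : ℝ) < D := by exact_mod_cast hD
  set δ : ℝ := 1 / (8 * D) with hδ
  have hδ0 : 0 < δ := by positivity
  have hδ8 : δ ≤ 1 / 8 := by
    rw [hδ]
    apply div_le_div_of_nonneg_left (by norm_num) (by norm_num)
    have : (1 : ℝ) ≤ D := by exact_mod_cast hD
    linarith
  -- threshold
  set t0 : ℝ := max 4 (2 * k0 + 2) with ht0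
  have ht04 : 4 ≤ t0 := le_max_left _ _
  have ht0k : 2 * k0 + 2 ≤ t0 := le_max_right _ _
  refine ⟨δ, hδ0, 3 ^ d * t0 + 4 * (3 ^ d * 4 + d * 3 ^ d), ?_⟩
  intro H hH
  have hH1 : (1 : ℝ) ≤ H := by exact_mod_cast hH
  have hHpos : (0 : ℝ) < H := by linarith
  set Z := {x : Fin d → ℤ | (∀ i, |x i| ≤ (H : ℤ)) ∧
        ¬ ∃ p : ℕ, p.Prime ∧ p ≤ H ∧ ∀ n, ¬ (p : ℤ) ∣ E.mkSol x n - v n} with hZ
  set L : ℕ := 2 * H + 1 with hL
  have hboxmem : ∀ x : Fin d → ℤ, (∀ i, |x i| ≤ (H : ℤ)) → x ∈ box d (-(H : ℤ)) L := by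
    intro x hx
    rw [box, Fintype.mem_piFinset]
    intro i
    have := abs_le.mp (hx i)
    rw [Finset.mem_Ico, hL]
    push_cast
    constructor <;> linarith [this.1, this.2]
  have hL3 : (L : ℝ) ≤ 3 * H := by rw [hL]; push_cast; linarith
  have hL0 : (0 : ℝ) ≤ L := by positivity
  have hLd : (L : ℝ) ^ d ≤ 3 ^ d * (H : ℝ) ^ d := by
    rw [← mul_pow]; exact pow_le_pow_left₀ hL0 hL3 d
  have hrp : (H : ℝ) ^ ((d : ℝ) - δ) * (H : ℝ) ^ δ = (H : ℝ) ^ d := by
    rw [← Real.rpow_add hHpos, sub_add_cancel, Real.rpow_natCast]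
  have hXpos : 0 < (H : ℝ) ^ ((d : ℝ) - δ) := Real.rpow_pos_of_pos hHpos _
  set t : ℝ := (H : ℝ) ^ δ with ht
  have htpos : 0 < t := Real.rpow_pos_of_pos hHpos _
  by_cases hlt : t < t0
  · -- trivial bound
    have h1 : (Set.ncard Z : ℝ) ≤ (L : ℝ) ^ d := by
      have hsub : Z ⊆ ↑(box d (-(H : ℤ)) L) := fun x hx => hboxmem x hx.1
      have := Set.ncard_le_ncard hsub (Finset.finite_toSet _)
      rw [Set.ncard_coe_finset, card_box] at this
      exact_mod_cast this
    have h2 : (H : ℝ) ^ d ≤ t0 * (H : ℝ) ^ ((d : ℝ) - δ) := by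
      rw [← hrp, mul_comm]
      exact mul_le_mul_of_nonneg_right hlt.le hXpos.le
    calc (Set.ncard Z : ℝ) ≤ 3 ^ d * (H : ℝ) ^ d := h1.trans hLd
      _ ≤ 3 ^ d * (t0 * (H : ℝ) ^ ((d : ℝ) - δ)) := mul_le_mul_of_nonneg_left h2 (by positivity)
      _ = (3 ^ d * t0) * (H : ℝ) ^ ((d : ℝ) - δ) := by ring
      _ ≤ _ := by
        apply mul_le_mul_of_nonneg_right _ hXpos.le
        have : (0 : ℝ) ≤ 4 * (3 ^ d * 4 + d * 3 ^ d) := by positivity
        linarith
  · push Not at hlt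
    set k : ℕ := ⌊t / 2⌋₊ with hk
    have hkle : (k : ℝ) ≤ t / 2 := Nat.floor_le (by positivity)
    have hkge : t / 4 ≤ k := by
      have := Nat.lt_floor_add_one (t / 2)
      rw [← hk] at this
      linarith
    have hk0k : k0 ≤ k := by
      rw [hk]
      apply Nat.le_floor
      linarith
    have hkpos : (0 : ℝ) < k := by linarith
    obtain ⟨S, hSk, hS⟩ := hgood k hk0k
    set Q : ℕ := 2 * (2 * k ^ 2) ^ D with hQ
    have hQt : (Q : ℝ) ≤ t ^ (2 * D) := by
      rw [hQ]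
      push_cast
      calc (2 : ℝ) * (2 * (k : ℝ) ^ 2) ^ D ≤ 2 * (2 * (t / 2) ^ 2) ^ D := by
            apply mul_le_mul_of_nonneg_left _ (by norm_num)
            apply pow_le_pow_left₀ (by positivity)
            apply mul_le_mul_of_nonneg_left _ (by norm_num)
            exact pow_le_pow_left₀ (by positivity) hkle 2
        _ = 2 * (1 / 2) ^ D * t ^ (2 * D) := by
            have : 2 * (t / 2) ^ 2 = (1 / 2) * t ^ 2 := by ring
            rw [this, mul_pow, ← pow_mul]; ring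
        _ ≤ 1 * t ^ (2 * D) := by
            apply mul_le_mul_of_nonneg_right _ (by positivity)
            have : ((1 : ℝ) / 2) ^ D ≤ (1 / 2) ^ 1 := pow_le_pow_of_le_one (by norm_num) (by norm_num) hD
            linarith
        _ = _ := one_mul _
    have ht4D : t ^ (4 * D) = (H : ℝ) ^ (1 / 2 : ℝ) := by
      rw [ht, ← Real.rpow_natCast, ← Real.rpow_mul hHpos.le]
      congr 1
      rw [hδ]
      push_cast
      field_simp
      norm_num
    have hQ2 : (Q : ℝ) ^ 2 ≤ (H : ℝ) ^ (1 / 2 : ℝ) := by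
      rw [← ht4D]
      calc (Q : ℝ) ^ 2 ≤ (t ^ (2 * D)) ^ 2 := pow_le_pow_left₀ (by positivity) hQt 2
        _ = t ^ (4 * D) := by rw [← pow_mul]; congr 1; ring
    have hQH : Q ≤ H := by
      have h1 : (Q : ℝ) ^ 2 ≤ (H : ℝ) := by
        refine hQ2.trans ?_
        calc (H : ℝ) ^ (1 / 2 : ℝ) ≤ (H : ℝ) ^ (1 : ℝ) := Real.rpow_le_rpow_of_exponent_le hH1 (by norm_num)
          _ = H := Real.rpow_one _
      have h2 : Q ^ 2 ≤ H := by exact_mod_cast h1
      exact le_trans (Nat.le_self_pow (by norm_num) Q) h2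
    have hScard : 0 < S.card := lt_of_lt_of_le (by exact_mod_cast hkpos) hSk
    have hcs := count_step E v S Q (fun p hp => ⟨(hS p hp).1, (hS p hp).2.1⟩) hScard
      (fun p hp => (hS p hp).2.2) (-(H : ℤ)) L
    have hsub : Z ⊆ {x : Fin d → ℤ | x ∈ box d (-(H : ℤ)) L ∧
      ∀ p ∈ S, ∃ n, (p : ℤ) ∣ E.mkSol x n - v n} := by
      intro x hx
      refine ⟨hboxmem x hx.1, ?_⟩
      intro p hp
      by_contra hcon
      push Not at hcon
      exact hx.2 ⟨p, (hS p hp).1, le_trans (hS p hp).2.1 hQH, hcon⟩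
    have hZle : (Set.ncard Z : ℝ) ≤ 4 * ((L : ℝ) ^ d / S.card + d * Q ^ 2 * (L : ℝ) ^ (d - 1)) := by
      refine le_trans ?_ hcs
      have hfin : {x : Fin d → ℤ | x ∈ box d (-(H : ℤ)) L ∧
        ∀ p ∈ S, ∃ n, (p : ℤ) ∣ E.mkSol x n - v n}.Finite :=
        (Finset.finite_toSet (box d (-(H : ℤ)) L)).subset (fun x hx => hx.1)
      exact_mod_cast Set.ncard_le_ncard hsub hfin
    have hA : (L : ℝ) ^ d / S.card ≤ 3 ^ d * 4 * (H : ℝ) ^ ((d : ℝ) - δ) := by
      have hSt : t / 4 ≤ S.card := hkge.trans (by exact_mod_cast hSk)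
      calc (L : ℝ) ^ d / S.card ≤ (3 ^ d * (H : ℝ) ^ d) / (t / 4) :=
            div_le_div₀ (by positivity) hLd (by positivity) hSt
        _ = 3 ^ d * 4 * ((H : ℝ) ^ d / t) := by field_simp
        _ = 3 ^ d * 4 * (H : ℝ) ^ ((d : ℝ) - δ) := by
            congr 1
            rw [← hrp]
            field_simp
    have hB : (d : ℝ) * Q ^ 2 * (L : ℝ) ^ (d - 1) ≤ d * 3 ^ d * (H : ℝ) ^ ((d : ℝ) - δ) := by
      have h1 : (L : ℝ) ^ (d - 1) ≤ 3 ^ d * (H : ℝ) ^ ((d : ℝ) - 1) := by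
        calc (L : ℝ) ^ (d - 1) ≤ (3 * H) ^ (d - 1) := pow_le_pow_left₀ hL0 hL3 _
          _ = 3 ^ (d - 1) * (H : ℝ) ^ (d - 1) := mul_pow _ _ _
          _ ≤ 3 ^ d * (H : ℝ) ^ (d - 1) := by
              apply mul_le_mul_of_nonneg_right _ (by positivity)
              exact pow_le_pow_right₀ (by norm_num) (Nat.sub_le _ _)
          _ = 3 ^ d * (H : ℝ) ^ ((d : ℝ) - 1) := by
              congr 1
              rw [← Real.rpow_natCast]
              congr 1
              rw [Nat.cast_sub hE]; simp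
      calc (d : ℝ) * Q ^ 2 * (L : ℝ) ^ (d - 1) ≤ d * (H : ℝ) ^ (1 / 2 : ℝ) * (3 ^ d * (H : ℝ) ^ ((d : ℝ) - 1)) := by
            apply mul_le_mul _ h1 (by positivity) (by positivity)
            exact mul_le_mul_of_nonneg_left hQ2 (by positivity)
        _ = d * 3 ^ d * ((H : ℝ) ^ (1 / 2 : ℝ) * (H : ℝ) ^ ((d : ℝ) - 1)) := by ring
        _ = d * 3 ^ d * (H : ℝ) ^ ((d : ℝ) - 1 / 2) := by
            rw [← Real.rpow_add hHpos]; congr 2; ring
        _ ≤ d * 3 ^ d * (H : ℝ) ^ ((d : ℝ) - δ) := by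
            apply mul_le_mul_of_nonneg_left _ (by positivity)
            exact Real.rpow_le_rpow_of_exponent_le hH1 (by linarith)
    calc (Set.ncard Z : ℝ) ≤ 4 * ((L : ℝ) ^ d / S.card + d * Q ^ 2 * (L : ℝ) ^ (d - 1)) := hZle
      _ ≤ 4 * (3 ^ d * 4 * (H : ℝ) ^ ((d : ℝ) - δ) + d * 3 ^ d * (H : ℝ) ^ ((d : ℝ) - δ)) := by
          linarith
      _ = (4 * (3 ^ d * 4 + d * 3 ^ d)) * (H : ℝ) ^ ((d : ℝ) - δ) := by ring
      _ ≤ _ := by
          apply mul_le_mul_of_nonneg_right _ hXpos.le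
          have : (0 : ℝ) ≤ 3 ^ d * t0 := by positivity
          linarith

end Pool.Agent.Work.MP_8d13b5_lc.GenericPower
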