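import Pool.Agent.Work.MP_8d13b5_lc.Lrs

set_option autoImplicit false

namespace Pool.Agent.Work.MP_8d13b5_lc

open Polynomial Finset Filter Topology

open Classical in
/-- For every simple recurrence, the proportion of initial vectors in `[-H, H]^d` for which no
prime misses all the terms tends to `0`. -/
theorem tendsto_bad_initial (E : LinearRecurrence ℤ) (hd : 0 < E.order)
    (h0 : E.coeffs ⟨0, hd⟩ ≠ 0) (hs : (E.charPoly.map (Int.castRingHom ℚ)).Separable) :
    Tendsto (fun H : ℕ => (((box E.order H).filter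
        (fun v => ¬ ∃ p : ℕ, p.Prime ∧ ∀ n, ¬ (p : ℤ) ∣ E.mkSol v n)).card : ℝ) /
        ((2 * (H : ℝ) + 1) ^ E.order)) atTop (𝓝 0) := by
  have hgood := infinite_good E.charPoly (LinearRecurrence.charPoly_monic E) hs (by
    rw [charPoly_coeff_zero E hd]
    simpa using h0)
  have hcard : ∀ p ∈ {p : ℕ | p.Prime ∧ 2 < p ∧
      (E.charPoly.map (Int.castRingHom (ZMod p))) ∣ X ^ ((p - 1) / 2) - 1},
      2 * (badSet E p).card ≤ p ^ E.order := by
    intro p hp
    exact card_badSet E hd p hp.1 hp.2.1 hp.2.2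
  have hP : ∀ v : Fin E.order → ℤ, (¬ ∃ p : ℕ, p.Prime ∧ ∀ n, ¬ (p : ℤ) ∣ E.mkSol v n) →
      ∀ p ∈ {p : ℕ | p.Prime ∧ 2 < p ∧
      (E.charPoly.map (Int.castRingHom (ZMod p))) ∣ X ^ ((p - 1) / 2) - 1},
      red p E.order v ∈ badSet E p := by
    intro v hv p hp
    rw [mem_badSet E p hp.1]
    by_contra hcon
    push Not at hcon
    apply hv
    refine ⟨p, hp.1, fun n hn => hcon n ?_⟩
    have h1 := mkSol_redRec E p v n
    rw [← h1, ZMod.intCast_zmod_eq_zero_iff_dvd]
    exact hn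
  exact tendsto_bad E.order _ hgood (fun p hp => hp.1) (badSet E) hcard _ hP

end Pool.Agent.Work.MP_8d13b5_lc
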