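import Pool.Agent.Work.MP_8d13b5_lc.USCount

set_option autoImplicit false

/-!
Primitive recursiveness of the ingredients (period, exceptional zeros, zero bound), definition of
the universal set and the decision procedure.
-/

namespace Pool.Agent.Work.MP_8d13b5_lc.US

open Finset Encodable

abbrev Code := List ℤ × List ℤ

theorem rel_exists_lt {β : Type*} [Primcodable β] {R : ℕ → β → Prop} (h : PrimrecRel R) :
    PrimrecRel (fun (n : ℕ) (y : β) => ∃ m < n, R m y) := by
  have h1 : PrimrecPred (fun p : ℕ × β => ∃ a ∈ List.range p.1, R a p.2) :=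
    (PrimrecRel.exists_mem_list h).comp (Primrec.list_range.comp Primrec.fst) Primrec.snd
  exact h1.of_eq fun p => by simp

theorem rel_forall_lt {β : Type*} [Primcodable β] {R : ℕ → β → Prop} (h : PrimrecRel R) :
    PrimrecRel (fun (n : ℕ) (y : β) => ∀ m < n, R m y) := by
  have h1 : PrimrecPred (fun p : ℕ × β => ∀ a ∈ List.range p.1, R a p.2) :=
    (PrimrecRel.forall_mem_list h).comp (Primrec.list_range.comp Primrec.fst) Primrec.snd
  exact h1.of_eq fun p => by simp

theorem primrec_factorial : Primrec Nat.factorial := by
  have h : Primrec (Nat.rec (motive := fun _ => ℕ) 1 (fun n ih => (n + 1) * ih)) := by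
    refine Primrec.nat_rec₁ 1 (f := fun n ih => (n + 1) * ih) ?_
    exact Primrec.nat_mul.comp₂ (Primrec.succ.comp₂ Primrec₂.left) Primrec₂.right
  refine h.of_eq fun n => ?_
  induction n with
  | zero => rfl
  | succ n ih =>
    show (n + 1) * _ = _
    rw [ih, Nat.factorial_succ]

theorem primrec_len : Primrec (fun x : Code => x.1.length) :=
  Primrec.list_length.comp Primrec.fst

theorem primrec_getLast : Primrec (fun x : Code => x.1.getD (x.1.length - 1) 0) :=
  (Primrec.list_getD 0).comp Primrec.fst (Primrec.nat_sub.comp primrec_len (Primrec.const 1))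

theorem primrec_lastC : Primrec lastC := primrec_natAbs.comp primrec_getLast

theorem primrec_per : Primrec per := by
  unfold per
  refine primrec_factorial.comp (primrec_pow.comp ?_ primrec_len)
  exact Primrec.nat_add.comp (primrec_factorial.comp (Primrec.nat_add.comp primrec_lastC
    (Primrec.const 3))) (Primrec.const 2)

/-- validity of the input data -/
def valid (x : Code) : Prop :=
  x.1.length = x.2.length ∧ 1 ≤ x.1.length ∧ x.1.getD (x.1.length - 1) 0 ≠ 0

theorem primrec_valid : PrimrecPred valid := by
  refine PrimrecPred.and ?_ (PrimrecPred.and ?_ ?_)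
  · exact Primrec.eq.comp primrec_len (Primrec.list_length.comp Primrec.snd)
  · exact Primrec.nat_le.comp (Primrec.const 1) primrec_len
  · exact (Primrec.eq.comp primrec_getLast (Primrec.const 0)).not

theorem primrec_Exc : PrimrecRel Exc := by
  unfold Exc
  refine PrimrecPred.and ?_ ?_
  · exact Primrec.eq.comp primrec_val (Primrec.const 0)
  · have hR : PrimrecRel (fun (m : ℕ) (y : Code × ℕ) =>
        val y.1 (y.2 % per y.1 + m * per y.1) ≠ 0) := by
      refine PrimrecPred.not ?_
      refine Primrec.eq.comp ?_ (Primrec.const 0)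
      refine primrec_val.comp (Primrec.fst.comp Primrec.snd) ?_
      refine Primrec.nat_add.comp ?_ ?_
      · exact Primrec.nat_mod.comp (Primrec.snd.comp Primrec.snd)
          (primrec_per.comp (Primrec.fst.comp Primrec.snd))
      · exact Primrec.nat_mul.comp Primrec.fst (primrec_per.comp (Primrec.fst.comp Primrec.snd))
    exact (rel_exists_lt hR).comp (primrec_len.comp Primrec.fst) Primrec.id

theorem primrec_bnd : Primrec bnd := by
  have h : Primrec₂ (fun (x : Code) (k : ℕ) => Nat.rec (motive := fun _ => ℕ) 0
      (fun i ih => ih + 2 * (val x i).natAbs) k) := by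
    refine Primrec.nat_rec (f := fun _ : Code => 0)
      (g := fun (x : Code) (q : ℕ × ℕ) => q.2 + 2 * (val x q.1).natAbs) (Primrec.const 0) ?_
    refine Primrec.nat_add.comp₂ (Primrec.snd.comp₂ Primrec₂.right) ?_
    refine Primrec.nat_mul.comp₂ (Primrec₂.const 2) ?_
    exact primrec_natAbs.comp₂ (primrec_val.comp₂ Primrec₂.left (Primrec.fst.comp₂ Primrec₂.right))
  refine (h.comp Primrec.id (Primrec.nat_mul.comp primrec_len primrec_per)).of_eq fun x => ?_
  unfold bnd
  generalize x.1.length * per x = k
  induction k with
  | zero => rfl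
  | succ k ih =>
    rw [sum_range_succ, ← ih]
    rfl

open Classical in
/-- the zero bound of the `e`-th coded sequence, `0` if `e` codes no valid data -/
noncomputable def G (e : ℕ) : ℕ :=
  Option.casesOn (motive := fun _ => ℕ) (decode e : Option Code) 0
    (fun x => if valid x then bnd x else 0)

theorem primrec_G : Primrec G := by
  classical
  unfold G
  refine Primrec.option_casesOn (g := fun (_ : ℕ) (x : Code) => if valid x then bnd x else 0)
    Primrec.decode (Primrec.const 0) ?_
  exact Primrec.ite (primrec_valid.comp Primrec.snd) (primrec_bnd.comp Primrec.snd)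
    (Primrec.const 0)

/-- cumulative zero bounds -/
noncomputable def F (k : ℕ) : ℕ := ∑ e ∈ range k, G e

theorem primrec_F : Primrec F := by
  have h : Primrec (Nat.rec (motive := fun _ => ℕ) 0 (fun n ih => ih + G n)) := by
    refine Primrec.nat_rec₁ 0 (f := fun n ih => ih + G n) ?_
    exact Primrec.nat_add.comp₂ Primrec₂.right (primrec_G.comp₂ Primrec₂.left)
  refine h.of_eq fun n => ?_
  induction n with
  | zero => rfl
  | succ n ih =>
    rw [F, sum_range_succ, ← F, ← ih]

/-- `hh y n` is the largest `k ≤ n` with `F k ≤ y` -/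
noncomputable def hh (y n : ℕ) : ℕ := Nat.findGreatest (fun k => F k ≤ y) n

theorem primrec_hh : Primrec₂ hh := by
  unfold hh
  refine Primrec.nat_findGreatest (f := fun p : ℕ × ℕ => p.2)
    (p := fun (p : ℕ × ℕ) (k : ℕ) => F k ≤ p.1) Primrec.snd ?_
  exact Primrec.nat_le.comp (primrec_F.comp Primrec.snd) (Primrec.fst.comp Primrec.fst)

/-- `n` is an exceptional zero of the sequence coded by `e` -/
def Ex (e n : ℕ) : Prop := ∃ x : Code, decode e = some x ∧ valid x ∧ Exc x n

theorem primrec_Ex : PrimrecRel Ex := by
  classical
  have h : Primrec₂ (fun (e n : ℕ) => Option.casesOn (motive := fun _ => Bool)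
      (decode e : Option Code) false (fun x => decide (valid x ∧ Exc x n))) := by
    refine Primrec.option_casesOn (o := fun p : ℕ × ℕ => (decode p.1 : Option Code))
      (g := fun (p : ℕ × ℕ) (x : Code) => decide (valid x ∧ Exc x p.2))
      (Primrec.decode.comp Primrec.fst) (Primrec.const false) ?_
    have h1 : PrimrecPred (fun q : (ℕ × ℕ) × Code => valid q.2 ∧ Exc q.2 q.1.2) :=
      (primrec_valid.comp Primrec.snd).and
        (primrec_Exc.comp Primrec.snd (Primrec.snd.comp Primrec.fst))
    exact h1.decide
  have h2 : PrimrecPred (fun p : ℕ × ℕ => Option.casesOn (motive := fun _ => Bool)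
      (decode p.1 : Option Code) false (fun x => decide (valid x ∧ Exc x p.2)) = true) :=
    Primrec.eq.comp h (Primrec.const true)
  refine h2.of_eq fun p => ?_
  unfold Ex
  cases hdec : (decode p.1 : Option Code) with
  | none => simp
  | some x => simp

/-- no sequence coded by some `e < k` has `n` as an exceptional zero -/
def RR (k n : ℕ) : Prop := ∀ e < k, ¬ Ex e n

theorem primrec_RR : PrimrecRel RR := PrimrecRel.forall_lt primrec_Ex.not

/-- the sequence vanishes identically on some residue class -/
def AA (x : Code) : Prop := ∃ r < per x, ∀ m < x.1.length, val x (r + m * per x) = 0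

theorem primrec_AA : PrimrecPred AA := by
  have h1 : PrimrecRel (fun (m : ℕ) (y : Code × ℕ) => val y.1 (y.2 + m * per y.1) = 0) := by
    refine Primrec.eq.comp ?_ (Primrec.const 0)
    refine primrec_val.comp (Primrec.fst.comp Primrec.snd) ?_
    exact Primrec.nat_add.comp (Primrec.snd.comp Primrec.snd)
      (Primrec.nat_mul.comp Primrec.fst (primrec_per.comp (Primrec.fst.comp Primrec.snd)))
  have h2 := rel_forall_lt h1
  have h3 : PrimrecRel (fun (r : ℕ) (x : Code) => ∀ m < x.1.length, val x (r + m * per x) = 0) :=
    h2.comp (primrec_len.comp Primrec.snd) (Primrec.pair Primrec.snd Primrec.fst)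
  exact (rel_exists_lt h3).comp primrec_per Primrec.id

end Pool.Agent.Work.MP_8d13b5_lc.US
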