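import Mathlib

set_option autoImplicit false

/-!
A `p`-adic zero bound: if `v n = ∑ k ≤ n, C(n,k) a_k` with `p ^ k ∣ a_k` and `v` vanishes on a
finite set `Z`, then every value of `v` is divisible by `p ^ (|Z| / 2)` (`p ≥ 3`).
-/

namespace Pool.Agent.Work.MP_8d13b5_lc.US

open Polynomial Finset

section Poly

variable {R : Type*} [CommRing R] [IsDomain R]

/-- coefficient `i` is divisible by `q ^ ((i + k) / 2)` -/
def Good (q : R) (k : ℕ) (P : R[X]) : Prop := ∀ i, q ^ ((i + k) / 2) ∣ P.coeff i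

omit [IsDomain R] in
theorem good_div (q : R) (k : ℕ) (P Q : R[X]) (a : R) (h : P = (X - C a) * Q) (hP : Good q k P) :
    Good q (k + 1) Q := by
  have hrec : ∀ i, Q.coeff i = P.coeff (i + 1) + a * Q.coeff (i + 1) := by
    intro i
    rw [h, sub_mul, coeff_sub, coeff_X_mul, coeff_C_mul]
    ring
  -- downward induction
  have key : ∀ j i, Q.natDegree < i + j → q ^ ((i + (k + 1)) / 2) ∣ Q.coeff i := by
    intro j
    induction j with
    | zero =>
      intro i hi
      rw [coeff_eq_zero_of_natDegree_lt (by simpa using hi)]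
      exact dvd_zero _
    | succ j ih =>
      intro i hi
      rw [hrec i]
      refine dvd_add ?_ (dvd_mul_of_dvd_right ?_ a)
      · have := hP (i + 1)
        rwa [show i + 1 + k = i + (k + 1) by ring] at this
      · exact (pow_dvd_pow q (by omega)).trans (ih (i + 1) (by omega))
  intro i
  exact key (Q.natDegree + 1) i (by omega)

theorem good_eval (q : R) (Z : Finset R) : ∀ (k : ℕ) (P : R[X]), Good q k P →
    (∀ a ∈ Z, P.eval a = 0) → ∀ x, q ^ ((k + Z.card) / 2) ∣ P.eval x := by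
  classical
  induction Z using Finset.induction_on with
  | empty =>
    intro k P hP _ x
    rw [card_empty, add_zero, eval_eq_sum]
    refine dvd_sum fun i _ => dvd_mul_of_dvd_left ?_ _
    exact (pow_dvd_pow q (by omega)).trans (hP i)
  | insert a Z ha ih =>
    intro k P hP hZ x
    obtain ⟨Q, hQ⟩ := dvd_iff_isRoot.2 (show P.IsRoot a from hZ a (mem_insert_self a Z))
    have hQg := good_div q k P Q a hQ hP
    have hQZ : ∀ b ∈ Z, Q.eval b = 0 := by
      intro b hb
      have h1 := hZ b (mem_insert_of_mem hb)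
      rw [hQ, eval_mul, eval_sub, eval_X, eval_C] at h1
      rcases mul_eq_zero.1 h1 with h2 | h2
      · exfalso
        rw [sub_eq_zero] at h2
        exact ha (h2 ▸ hb)
      · exact h2
    have h3 := ih (k + 1) Q hQg hQZ x
    rw [card_insert_of_notMem ha, hQ, eval_mul]
    refine dvd_mul_of_dvd_right ?_ _
    rwa [show k + (Z.card + 1) = k + 1 + Z.card by ring]

end Poly

/-- `k!` divides `p ^ k * b` in the `p`-adic integers with a quotient divisible by
`p ^ ((k + 1) / 2)`. -/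
theorem exists_quotient (p : ℕ) [hp : Fact p.Prime] (h3 : 3 ≤ p) (k : ℕ) :
    ∃ t : ℤ_[p], (p : ℤ_[p]) ^ ((k + 1) / 2) * t * (k.factorial : ℤ_[p]) = (p : ℤ_[p]) ^ k := by
  set e := padicValNat p k.factorial with he
  have he2 : 2 * e ≤ k := by
    have h1 := sub_one_mul_padicValNat_factorial (p := p) k
    have h2 : (p - 1) * e ≤ k := by
      rw [he, h1]
      exact Nat.sub_le _ _
    have h3' : 2 * e ≤ (p - 1) * e := Nat.mul_le_mul_right _ (by omega)
    omega
  obtain ⟨m, hm⟩ := pow_padicValNat_dvd (p := p) (n := k.factorial)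
  rw [← he] at hm
  have hpm : ¬ p ∣ m := by
    intro hdvd
    have h1 : p ^ (e + 1) ∣ k.factorial := by
      rw [hm, pow_succ]
      exact Nat.mul_dvd_mul_left _ hdvd
    have h2 := (padicValNat_dvd_iff_le (Nat.factorial_ne_zero k)).1 h1
    omega
  have hunit : IsUnit (m : ℤ_[p]) := by
    rw [PadicInt.isUnit_iff]
    by_contra hne
    have hlt : ‖(m : ℤ_[p])‖ < 1 := lt_of_le_of_ne (PadicInt.norm_le_one _) hne
    have h1 : ‖(((m : ℤ) : ℤ_[p]))‖ < 1 := by simpa using hlt
    rw [PadicInt.norm_int_lt_one_iff_dvd] at h1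
    exact hpm (by exact_mod_cast h1)
  obtain ⟨u, hu⟩ := hunit
  refine ⟨(p : ℤ_[p]) ^ (k - e - (k + 1) / 2) * ((u⁻¹ : (ℤ_[p])ˣ) : ℤ_[p]), ?_⟩
  have hfac : (k.factorial : ℤ_[p]) = (p : ℤ_[p]) ^ e * (u : ℤ_[p]) := by
    rw [hu, hm]
    push_cast
    ring
  rw [hfac]
  have hk : k = (k + 1) / 2 + (k - e - (k + 1) / 2) + e := by omega
  calc (p : ℤ_[p]) ^ ((k + 1) / 2) * ((p : ℤ_[p]) ^ (k - e - (k + 1) / 2) *
        ((u⁻¹ : (ℤ_[p])ˣ) : ℤ_[p])) * ((p : ℤ_[p]) ^ e * (u : ℤ_[p]))
      = (p : ℤ_[p]) ^ ((k + 1) / 2 + (k - e - (k + 1) / 2) + e) *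
          (((u⁻¹ : (ℤ_[p])ˣ) : ℤ_[p]) * (u : ℤ_[p])) := by ring
    _ = (p : ℤ_[p]) ^ k := by rw [← hk, Units.inv_mul, mul_one]

theorem zeros_dvd (p : ℕ) [hp : Fact p.Prime] (h3 : 3 ≤ p) (a : ℕ → ℤ)
    (ha : ∀ j, (p : ℤ) ^ j ∣ a j) (v : ℕ → ℤ)
    (hv : ∀ n, v n = ∑ k ∈ range (n + 1), (n.choose k : ℤ) * a k)
    (Z : Finset ℕ) (hZ : ∀ n ∈ Z, v n = 0) (m : ℕ) : (p : ℤ) ^ (Z.card / 2) ∣ v m := by
  classical
  choose t ht using fun k => exists_quotient p h3 k
  choose b hb using ha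
  -- a common upper bound for the arguments
  set N := max m (Z.sup id) with hN
  set P : ℤ_[p][X] := ∑ k ∈ range (N + 1),
    C ((p : ℤ_[p]) ^ ((k + 1) / 2) * t k * (b k : ℤ_[p])) * descPochhammer ℤ_[p] k with hP
  have heval : ∀ n ≤ N, P.eval (n : ℤ_[p]) = ((v n : ℤ) : ℤ_[p]) := by
    intro n hn
    rw [hP, eval_finsetSum, hv n]
    push_cast
    have hterm : ∀ k, eval (n : ℤ_[p]) (C ((p : ℤ_[p]) ^ ((k + 1) / 2) * t k * (b k : ℤ_[p])) *
        descPochhammer ℤ_[p] k) = (n.choose k : ℤ_[p]) * ((a k : ℤ) : ℤ_[p]) := by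
      intro k
      rw [eval_mul, eval_C, descPochhammer_eval_eq_descFactorial,
        Nat.descFactorial_eq_factorial_mul_choose, hb k]
      push_cast
      rw [← ht k]
      ring
    simp only [hterm]
    symm
    apply sum_subset
    · intro k hk
      rw [mem_range] at hk ⊢
      omega
    · intro k _ hk
      rw [mem_range] at hk
      rw [Nat.choose_eq_zero_of_lt (by omega)]
      simp
  have hgood : Good (p : ℤ_[p]) 0 P := by
    intro i
    rw [hP, finsetSum_coeff]
    refine dvd_sum fun k _ => ?_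
    rw [coeff_C_mul]
    by_cases hik : i ≤ k
    · refine dvd_mul_of_dvd_left ?_ _
      rw [mul_assoc]
      refine dvd_mul_of_dvd_left ?_ _
      exact pow_dvd_pow _ (by omega)
    · rw [coeff_eq_zero_of_natDegree_lt (by rw [descPochhammer_natDegree]; omega), mul_zero]
      exact dvd_zero _
  have hroots : ∀ x ∈ Z.image (fun n : ℕ => (n : ℤ_[p])), P.eval x = 0 := by
    intro x hx
    obtain ⟨n, hn, rfl⟩ := mem_image.1 hx
    have hle : n ≤ N := (le_sup (f := id) hn).trans (le_max_right _ _)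
    rw [heval n hle, hZ n hn]
    simp
  have hcard : (Z.image (fun n : ℕ => (n : ℤ_[p]))).card = Z.card :=
    card_image_of_injective _ Nat.cast_injective
  have hfin := good_eval (p : ℤ_[p]) _ 0 P hgood hroots (m : ℤ_[p])
  rw [hcard, zero_add, heval m (le_max_left _ _), PadicInt.pow_p_dvd_int_iff] at hfin
  exact_mod_cast hfin

end Pool.Agent.Work.MP_8d13b5_lc.US
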