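import Pool.Agent.Work.MP_8d13b5_lc.Lrs
import Pool.Agent.Work.MP_8d13b5_lc.USPadic

set_option autoImplicit false

/-!
Periodicity modulo a prime not dividing the last coefficient, divisibility of the iterated
differences, and the resulting bound for the zeros of an integer linear recurrence sequence in a
residue class.
-/

namespace Pool.Agent.Work.MP_8d13b5_lc.US

open Polynomial Finset

theorem tupleSucc_injective {R : Type*} [CommRing R] [IsDomain R] (E : LinearRecurrence R)
    (hd : 0 < E.order) (h0 : E.coeffs ⟨0, hd⟩ ≠ 0) : Function.Injective E.tupleSucc := by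
  rw [← LinearMap.ker_eq_bot, LinearMap.ker_eq_bot']
  intro X hX
  have hne : ∀ i : Fin E.order, (i : ℕ) ≠ 0 → X i = 0 := by
    intro i hi
    have hlt : (i : ℕ) - 1 < E.order := by have := i.2; omega
    have h1 := congrFun hX ⟨(i : ℕ) - 1, hlt⟩
    have h2 : E.tupleSucc X ⟨(i : ℕ) - 1, hlt⟩ = X i := by
      show (if h : ((i : ℕ) - 1) + 1 < E.order then X ⟨(i : ℕ) - 1 + 1, h⟩ else _) = _
      have h3 : (i : ℕ) - 1 + 1 < E.order := by have := i.2; omega
      rw [dif_pos h3]
      congr 1
      apply Fin.ext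
      show (i : ℕ) - 1 + 1 = i
      omega
    rw [h2] at h1
    exact h1
  have hlast : ∑ i, E.coeffs i * X i = 0 := by
    have hlt : E.order - 1 < E.order := by omega
    have h1 := congrFun hX ⟨E.order - 1, hlt⟩
    have h2 : E.tupleSucc X ⟨E.order - 1, hlt⟩ = ∑ i, E.coeffs i * X i := by
      show (if h : (E.order - 1) + 1 < E.order then X ⟨E.order - 1 + 1, h⟩ else _) = _
      rw [dif_neg (by omega)]
    rw [h2] at h1
    exact h1
  rw [Finset.sum_eq_single ⟨0, hd⟩] at hlast
  · funext i
    by_cases hi : (i : ℕ) = 0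
    · have hi' : i = ⟨0, hd⟩ := Fin.ext hi
      rw [hi']
      exact (mul_eq_zero.1 hlast).resolve_left h0
    · exact hne i hi
  · intro i _ hi
    rw [hne i (fun h => hi (Fin.ext h)), mul_zero]
  · intro h
    exact absurd (mem_univ _) h

theorem iterate_factorial {α : Type*} [Fintype α] (F : α → α) (hF : Function.Injective F)
    (T : ℕ) (hT : (Fintype.card α).factorial ∣ T) (x : α) : F^[T] x = x := by
  classical
  obtain ⟨k, rfl⟩ := hT
  set σ : Equiv.Perm α := Equiv.ofBijective F (Finite.injective_iff_bijective.1 hF) with hσ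
  have h1 : σ ^ (Fintype.card α).factorial = 1 := by
    rw [← Fintype.card_perm (α := α)]
    exact pow_card_eq_one
  have h2 : σ ^ ((Fintype.card α).factorial * k) = 1 := by rw [pow_mul, h1, one_pow]
  have h3 : F^[(Fintype.card α).factorial * k] x = (σ ^ ((Fintype.card α).factorial * k)) x := by
    rw [← Equiv.Perm.iterate_eq_pow]
    rfl
  rw [h3, h2]
  rfl

theorem period (E : LinearRecurrence ℤ) (hd : 0 < E.order) (p : ℕ) [Fact p.Prime]
    (hc : ¬ (p : ℤ) ∣ E.coeffs ⟨0, hd⟩) (T : ℕ) (hT : (p ^ E.order).factorial ∣ T)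
    (s : ℕ → ℤ) (hs : E.IsSolution s) (n : ℕ) : (p : ℤ) ∣ s (n + T) - s n := by
  set E' := redRec E p with hE'
  let st : ℕ → (Fin E.order → ZMod p) := fun n i => ((s (n + i) : ℤ) : ZMod p)
  have hst : ∀ n, st (n + 1) = E'.tupleSucc (st n) := by
    intro n
    funext i
    show ((s (n + 1 + i) : ℤ) : ZMod p) = _
    by_cases hi : (i : ℕ) + 1 < E.order
    · have : E'.tupleSucc (st n) i = st n ⟨i + 1, hi⟩ := by
        show (if h : (i : ℕ) + 1 < E.order then st n ⟨i + 1, h⟩ else _) = _
        rw [dif_pos hi]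
      rw [this]
      show ((s (n + 1 + i) : ℤ) : ZMod p) = ((s (n + (i + 1)) : ℤ) : ZMod p)
      rw [show n + 1 + (i : ℕ) = n + (i + 1) by ring]
    · have h1 : E'.tupleSucc (st n) i = ∑ j : Fin E.order, (E.coeffs j : ZMod p) * st n j := by
        show (if h : (i : ℕ) + 1 < E.order then st n ⟨i + 1, h⟩ else _) = _
        rw [dif_neg hi]
        rfl
      rw [h1]
      have h2 : n + 1 + (i : ℕ) = n + E.order := by have := i.2; omega
      rw [h2, hs n]
      push_cast
      rfl
  have hinj : Function.Injective E'.tupleSucc := by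
    apply tupleSucc_injective E' hd
    intro h
    apply hc
    rwa [← ZMod.intCast_zmod_eq_zero_iff_dvd]
  have hcard : Fintype.card (Fin E.order → ZMod p) = p ^ E.order := by
    rw [Fintype.card_fun, ZMod.card, Fintype.card_fin]
  obtain ⟨F, hF⟩ : ∃ F : (Fin E.order → ZMod p) → (Fin E.order → ZMod p),
      F = fun x => E'.tupleSucc x := ⟨_, rfl⟩
  have hst' : ∀ n, st (n + 1) = F (st n) := by
    intro n
    rw [hF]
    exact hst n
  have hinj' : Function.Injective F := by
    rw [hF]
    exact hinj
  have hit : ∀ k n, st (n + k) = F^[k] (st n) := by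
    intro k
    induction k with
    | zero => intro n; rfl
    | succ k ih =>
      intro n
      rw [← add_assoc, hst', ih, Function.iterate_succ_apply']
  have h1 : st (n + T) = st n := by
    rw [hit]
    exact iterate_factorial F hinj' T (by rw [hcard]; exact hT) (st n)
  have h2 : ((s (n + T) : ℤ) : ZMod p) = ((s n : ℤ) : ZMod p) := by
    have := congrFun h1 ⟨0, hd⟩
    exact this
  rw [← ZMod.intCast_zmod_eq_zero_iff_dvd]
  push_cast
  rw [h2, sub_self]

theorem fwdDiff_iterate (E : LinearRecurrence ℤ) (p : ℕ) (hp : p ≠ 0) (T : ℕ)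
    (h : ∀ s, E.IsSolution s → ∀ n, (p : ℤ) ∣ s (n + T) - s n) (s : ℕ → ℤ)
    (hs : E.IsSolution s) (j : ℕ) :
    ∃ s', E.IsSolution s' ∧ ∀ n, (fwdDiff T)^[j] s n = (p : ℤ) ^ j * s' n := by
  induction j with
  | zero => exact ⟨s, hs, fun n => by simp⟩
  | succ j ih =>
    obtain ⟨s', hs', h'⟩ := ih
    choose q hq using h s' hs'
    refine ⟨q, ?_, ?_⟩
    · intro n
      have hp' : (p : ℤ) ≠ 0 := by exact_mod_cast hp
      apply mul_left_cancel₀ hp'
      rw [← hq, mul_sum]
      have h1 : s' (n + E.order + T) = ∑ i, E.coeffs i * s' (n + i + T) := by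
        rw [show n + E.order + T = n + T + E.order by ring, hs' (n + T)]
        apply sum_congr rfl
        intro i _
        rw [show n + T + (i : ℕ) = n + i + T by ring]
      rw [h1, hs' n, ← sum_sub_distrib]
      apply sum_congr rfl
      intro i _
      rw [← mul_sub, hq (n + i)]
      ring
    · intro n
      rw [Function.iterate_succ_apply']
      show (fwdDiff T)^[j] s (n + T) - (fwdDiff T)^[j] s n = _
      rw [h', h', ← mul_sub, hq]
      ring

/-- In a residue class modulo the period every value is divisible by a high power of `p` if there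
are many zeros. -/
theorem class_zeros (E : LinearRecurrence ℤ) (hd : 0 < E.order) (p : ℕ) [hp : Fact p.Prime]
    (h3 : 3 ≤ p) (hc : ¬ (p : ℤ) ∣ E.coeffs ⟨0, hd⟩) (T : ℕ)
    (hT : (p ^ E.order).factorial ∣ T) (s : ℕ → ℤ) (hs : E.IsSolution s) (r : ℕ)
    (Z : Finset ℕ) (hZ : ∀ n ∈ Z, s (r + n * T) = 0) (m : ℕ) :
    (p : ℤ) ^ (Z.card / 2) ∣ s (r + m * T) := by
  refine zeros_dvd p h3 (fun k => (fwdDiff T)^[k] s r) ?_ (fun n => s (r + n * T)) ?_ Z hZ m
  · intro j
    obtain ⟨s', _, h'⟩ := fwdDiff_iterate E p hp.out.ne_zero T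
      (fun s hs n => period E hd p hc T hT s hs n) s hs j
    rw [h']
    exact dvd_mul_right _ _
  · intro n
    have h1 := shift_eq_sum_fwdDiff_iter T s n r
    rw [smul_eq_mul] at h1
    rw [h1]
    apply sum_congr rfl
    intro k _
    rw [nsmul_eq_mul]

theorem shift_mem_solSpace (E : LinearRecurrence ℤ) (x : ℕ → ℤ) (hx : x ∈ E.solSpace) :
    shift ℤ x ∈ E.solSpace := by
  rw [← LinearRecurrence.is_sol_iff_mem_solSpace] at hx ⊢
  intro n
  show x (n + E.order + 1) = ∑ i, E.coeffs i * x (n + i + 1)
  rw [show n + E.order + 1 = n + 1 + E.order by ring, hx (n + 1)]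
  apply sum_congr rfl
  intro i _
  rw [show n + 1 + (i : ℕ) = n + i + 1 by ring]

/-- If the first `d` terms in a residue class vanish then all do. -/
theorem class_eq_zero (E : LinearRecurrence ℤ) (T r : ℕ) (s : ℕ → ℤ) (hs : E.IsSolution s)
    (h : ∀ m < E.order, s (r + m * T) = 0) (m : ℕ) : s (r + m * T) = 0 := by
  have : Module.Free ℤ E.solSpace := Module.Free.of_equiv E.toInit.symm
  have : Module.Finite ℤ E.solSpace := Module.Finite.equiv E.toInit.symm
  set σ : E.solSpace →ₗ[ℤ] E.solSpace :=
    (shift ℤ).restrict (fun x hx => shift_mem_solSpace E x hx) with hσ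
  have hpow : ∀ (k : ℕ) (x : E.solSpace) (n : ℕ), ((σ ^ k) x : ℕ → ℤ) n = (x : ℕ → ℤ) (n + k) := by
    intro k
    induction k with
    | zero => intro x n; simp
    | succ k ih =>
      intro x n
      rw [pow_succ, Module.End.mul_apply, ih]
      show (x : ℕ → ℤ) (n + k + 1) = _
      rw [add_assoc]
  set τ := σ ^ T with hτ
  have hdeg : τ.charpoly.natDegree = E.order := by
    rw [LinearMap.charpoly_natDegree, LinearEquiv.finrank_eq E.toInit, Module.finrank_fin_fun]
  have hmonic := τ.charpoly_monic
  set x : E.solSpace := ⟨s, (E.is_sol_iff_mem_solSpace s).1 hs⟩ with hx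
  have hrel : ∀ n, ∑ j ∈ range (E.order + 1), τ.charpoly.coeff j * s (n + j * T) = 0 := by
    intro n
    have h1 := LinearMap.congr_fun τ.aeval_self_charpoly x
    rw [aeval_eq_sum_range, hdeg] at h1
    have h2 := congrFun (congrArg Subtype.val h1) n
    rw [LinearMap.sum_apply] at h2
    simp only [LinearMap.smul_apply, LinearMap.zero_apply] at h2
    have h3 : ((∑ j ∈ range (E.order + 1), τ.charpoly.coeff j • (τ ^ j) x : E.solSpace) :
        ℕ → ℤ) n = ∑ j ∈ range (E.order + 1), τ.charpoly.coeff j * s (n + j * T) := by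
      rw [Submodule.coe_sum, Finset.sum_apply]
      apply sum_congr rfl
      intro j _
      rw [Submodule.coe_smul, Pi.smul_apply, smul_eq_mul, hτ, ← pow_mul, hpow, mul_comm T j]
    rw [h3] at h2
    exact h2
  induction m using Nat.strong_induction_on with
  | _ m ih =>
    by_cases hm : m < E.order
    · exact h m hm
    · have h1 := hrel (r + (m - E.order) * T)
      rw [sum_range_succ] at h1
      have hlead : τ.charpoly.coeff E.order = 1 := by
        have := hmonic.coeff_natDegree
        rwa [hdeg] at this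
      rw [hlead, one_mul] at h1
      have h2 : ∑ j ∈ range E.order, τ.charpoly.coeff j * s (r + (m - E.order) * T + j * T) = 0 := by
        apply sum_eq_zero
        intro j hj
        rw [mem_range] at hj
        rw [add_assoc, ← add_mul, ih (m - E.order + j) (by omega), mul_zero]
      rw [h2, zero_add, add_assoc, ← add_mul, Nat.sub_add_cancel (by omega)] at h1
      exact h1

end Pool.Agent.Work.MP_8d13b5_lc.US
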