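import Pool.Agent.Work.MP_8d13b5_lc.Algo
import Pool.Agent.Work.MP_8d13b5_lc.USShift

set_option autoImplicit false

/-!
Exceptional zeros of a coded linear recurrence sequence: zeros which do not lie in a residue class
(modulo the explicit period `per x`) on which the sequence vanishes identically. There are at most
`bnd x` of them, an explicit number.
-/

namespace Pool.Agent.Work.MP_8d13b5_lc.US

open Finset

/-- absolute value of the last coefficient -/
def lastC (x : List ℤ × List ℤ) : ℕ := (x.1.getD (x.1.length - 1) 0).natAbs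

/-- an explicit period -/
def per (x : List ℤ × List ℤ) : ℕ := (((lastC x + 3).factorial + 2) ^ x.1.length).factorial

/-- exceptional zeros -/
def Exc (x : List ℤ × List ℤ) (n : ℕ) : Prop :=
  val x n = 0 ∧ ∃ m < x.1.length, val x (n % per x + m * per x) ≠ 0

/-- explicit bound for the number of exceptional zeros -/
def bnd (x : List ℤ × List ℤ) : ℕ :=
  ∑ i ∈ range (x.1.length * per x), 2 * (val x i).natAbs

theorem per_pos (x : List ℤ × List ℤ) : 0 < per x := Nat.factorial_pos _

theorem length_code (E : LinearRecurrence ℤ) (v : Fin E.order → ℤ) :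
    (code E v).1.length = E.order := by simp [code]

theorem lastC_code (E : LinearRecurrence ℤ) (hd : 0 < E.order) (v : Fin E.order → ℤ) :
    lastC (code E v) = (E.coeffs ⟨0, hd⟩).natAbs := by
  rw [lastC, length_code]
  congr 1
  have hl : E.order - 1 < (List.ofFn E.coeffs).reverse.length := by simp; omega
  show (List.ofFn E.coeffs).reverse.getD (E.order - 1) 0 = _
  rw [List.getD_eq_getElem _ _ hl, List.getElem_reverse, List.getElem_ofFn]
  congr 1
  apply Fin.ext
  simp

/-- there is a prime `p ≥ 3` not dividing the last coefficient and adapted to the period -/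
theorem exists_prime (E : LinearRecurrence ℤ) (hd : 0 < E.order) (h0 : E.coeffs ⟨0, hd⟩ ≠ 0)
    (v : Fin E.order → ℤ) :
    ∃ p : ℕ, p.Prime ∧ 3 ≤ p ∧ ¬ (p : ℤ) ∣ E.coeffs ⟨0, hd⟩ ∧
      (p ^ E.order).factorial ∣ per (code E v) := by
  set K := lastC (code E v) + 3 with hK
  have hprime : (Nat.minFac (K.factorial + 1)).Prime := by
    apply Nat.minFac_prime
    have := Nat.factorial_pos K
    omega
  refine ⟨Nat.minFac (K.factorial + 1), hprime, ?_, ?_, ?_⟩
  all_goals
    have hgt : K < Nat.minFac (K.factorial + 1) := by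
      by_contra hle
      push Not at hle
      have h1 : Nat.minFac (K.factorial + 1) ∣ K.factorial :=
        Nat.dvd_factorial hprime.pos hle
      have h2 : Nat.minFac (K.factorial + 1) ∣ 1 :=
        (Nat.dvd_add_right h1).1 (Nat.minFac_dvd _)
      exact hprime.one_lt.ne' (Nat.dvd_one.1 h2)
  · omega
  · intro hdvd
    rw [Int.natCast_dvd, ← lastC_code E hd v] at hdvd
    have hpos : 0 < lastC (code E v) := by
      rw [lastC_code E hd v]
      exact Int.natAbs_pos.2 h0
    have := Nat.le_of_dvd hpos hdvd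
    omega
  · rw [per, length_code]
    apply Nat.factorial_dvd_factorial
    apply Nat.pow_le_pow_left
    have h1 : Nat.minFac (K.factorial + 1) ≤ K.factorial + 1 :=
      Nat.minFac_le (Nat.succ_pos _)
    rw [← hK]
    omega

/-- the zeros in one class -/
theorem card_class (E : LinearRecurrence ℤ) (hd : 0 < E.order) (h0 : E.coeffs ⟨0, hd⟩ ≠ 0)
    (v : Fin E.order → ℤ) (r : ℕ) (W : Finset ℕ)
    (hW : ∀ n ∈ W, E.mkSol v n = 0 ∧ n % per (code E v) = r) (m : ℕ)
    (hm : E.mkSol v (r + m * per (code E v)) ≠ 0) :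
    W.card ≤ 2 * (E.mkSol v (r + m * per (code E v))).natAbs := by
  classical
  obtain ⟨p, hp, h3, hpc, hT⟩ := exists_prime E hd h0 v
  set T := per (code E v) with hTdef
  have : Fact p.Prime := ⟨hp⟩
  have hdecomp : ∀ n ∈ W, r + n / T * T = n := by
    intro n hn
    have h1 := (hW n hn).2
    have h2 := Nat.mod_add_div n T
    rw [h1] at h2
    rw [mul_comm]
    exact h2
  have hinj : Set.InjOn (fun n => n / T) (W : Set ℕ) := by
    intro a ha b hb hab
    have h1 := hdecomp a ha
    have h2 := hdecomp b hb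
    have hab' : a / T = b / T := hab
    rw [← h1, ← h2, hab']
  have hZ : ∀ k ∈ W.image (fun n => n / T), E.mkSol v (r + k * T) = 0 := by
    intro k hk
    obtain ⟨n, hn, rfl⟩ := mem_image.1 hk
    show E.mkSol v (r + n / T * T) = 0
    rw [hdecomp n hn]
    exact (hW n hn).1
  have hdvd := class_zeros E hd p h3 hpc T hT (E.mkSol v) (E.is_sol_mkSol v) r _ hZ m
  rw [card_image_of_injOn hinj] at hdvd
  have hdvd' : p ^ (W.card / 2) ∣ (E.mkSol v (r + m * T)).natAbs := by
    rw [← Int.natCast_dvd]
    exact_mod_cast hdvd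
  have hle : p ^ (W.card / 2) ≤ (E.mkSol v (r + m * T)).natAbs :=
    Nat.le_of_dvd (Int.natAbs_pos.2 hm) hdvd'
  have h2 : 2 ^ (W.card / 2) ≤ p ^ (W.card / 2) := Nat.pow_le_pow_left (by omega) _
  have h4 : W.card / 2 < 2 ^ (W.card / 2) := Nat.lt_two_pow_self
  omega

theorem card_exc (E : LinearRecurrence ℤ) (hd : 0 < E.order) (h0 : E.coeffs ⟨0, hd⟩ ≠ 0)
    (v : Fin E.order → ℤ) (W : Finset ℕ) (hW : ∀ n ∈ W, Exc (code E v) n) :
    W.card ≤ bnd (code E v) := by
  classical
  set T := per (code E v) with hT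
  have hTpos : 0 < T := per_pos _
  have hW' : ∀ n ∈ W, E.mkSol v n = 0 ∧ ∃ m < E.order, E.mkSol v (n % T + m * T) ≠ 0 := by
    intro n hn
    obtain ⟨h1, m, hm, h2⟩ := hW n hn
    rw [val_code E hd] at h1 h2
    rw [length_code] at hm
    exact ⟨h1, m, hm, h2⟩
  set Rn := W.image (fun n => n % T) with hRn
  have hR : ∀ r ∈ Rn, ∃ m < E.order, E.mkSol v (r + m * T) ≠ 0 := by
    intro r hr
    obtain ⟨n, hn, rfl⟩ := mem_image.1 hr
    exact (hW' n hn).2
  choose! μ hμ1 hμ2 using hR
  have hRlt : ∀ r ∈ Rn, r < T := by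
    intro r hr
    obtain ⟨n, hn, rfl⟩ := mem_image.1 hr
    exact Nat.mod_lt _ hTpos
  have h1 : W.card = ∑ r ∈ Rn, (W.filter (fun n => n % T = r)).card :=
    card_eq_sum_card_fiberwise (fun n hn => mem_image_of_mem _ hn)
  have h2 : ∀ r ∈ Rn, (W.filter (fun n => n % T = r)).card ≤
      2 * (E.mkSol v (r + μ r * T)).natAbs := by
    intro r hr
    apply card_class E hd h0 v r _ _ (μ r) (hμ2 r hr)
    intro n hn
    rw [mem_filter] at hn
    exact ⟨(hW' n hn.1).1, hn.2⟩
  have hinj : Set.InjOn (fun r => r + μ r * T) (Rn : Set ℕ) := by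
    intro a ha b hb hab
    have ha' := hRlt a ha
    have hb' := hRlt b hb
    have h3 : (a + μ a * T) % T = (b + μ b * T) % T := by
      simp only at hab
      rw [hab]
    rwa [Nat.add_mul_mod_self_right, Nat.add_mul_mod_self_right, Nat.mod_eq_of_lt ha',
      Nat.mod_eq_of_lt hb'] at h3
  calc W.card = ∑ r ∈ Rn, (W.filter (fun n => n % T = r)).card := h1
    _ ≤ ∑ r ∈ Rn, 2 * (E.mkSol v (r + μ r * T)).natAbs := sum_le_sum h2
    _ = ∑ i ∈ Rn.image (fun r => r + μ r * T), 2 * (E.mkSol v i).natAbs := by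
        rw [sum_image hinj]
    _ ≤ ∑ i ∈ range (E.order * T), 2 * (E.mkSol v i).natAbs := by
        apply sum_le_sum_of_subset
        intro i hi
        obtain ⟨r, hr, rfl⟩ := mem_image.1 hi
        have h3 := hRlt r hr
        have h4 := hμ1 r hr
        rw [mem_range]
        calc r + μ r * T < T + μ r * T := by omega
          _ = (μ r + 1) * T := by ring
          _ ≤ E.order * T := Nat.mul_le_mul_right _ h4
    _ = bnd (code E v) := by
        rw [bnd, length_code]
        apply sum_congr rfl
        intro i _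
        rw [val_code E hd]

end Pool.Agent.Work.MP_8d13b5_lc.US
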